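import Pool.Agent.Lib.MP_8a3537_gt.RO.Spec
import Pool.Agent.Lib.MP_8a3537_gt.UV.SWP

/-!
# RO, module NWC (helper12): Newton iteration
-/

namespace Pool.Agent.Lib.MP8a3537.RO

open Matrix Pool.Agent.Lib.MP8a3537.UV Pool.Agent.Lib.MP8a3537.AU
open Pool.Agent.Lib.MP8a3537.UV.SWPAux

namespace NWCM

variable {A : Type} [Ring A] [StarRing A] {ε : ℤˣ} {n : ℕ}

theorem base (m q : Matrix (Fin n) (Fin n) A) (hm : IsUnit (1 + m)) :
    StablyHyperbolic ε (fromBlocks 0 (1 + m) 0 q) := by
  obtain ⟨⟨a, w, h1, h2⟩, ha⟩ := hm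
  simp only at ha
  subst ha
  refine stab_of_isom (Φ := UF (0 : Matrix (Fin n) (Fin n) A) 0 0) ?_ (trivial_form n)
  refine ⟨fromBlocks 1 (-(wᴴ * q * w)ᴴ) 0 w, fromBlocks 1 ((wᴴ * q * w)ᴴ * (1 + m)) 0 (1 + m), 0, ?_, ?_, ?_⟩
  · rw [fromBlocks_multiply]
    simp [h2, fromBlocks_one]
  · rw [fromBlocks_multiply]
    simp [h1, Matrix.mul_assoc, fromBlocks_one]
  · unfold UF
    rw [fromBlocks_conjTranspose, fromBlocks_multiply, fromBlocks_multiply]
    simp only [Matrix.conjTranspose_one, Matrix.conjTranspose_zero, Matrix.conjTranspose_neg,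
      Matrix.conjTranspose_conjTranspose, Matrix.mul_zero, Matrix.zero_mul, Matrix.mul_one, Matrix.one_mul,
      add_zero, zero_add, smul_zero, sub_zero, h1, Matrix.neg_mul]
    congr 1
    simp [Matrix.mul_assoc, h2]

theorem step (p m q : Matrix (Fin n) (Fin n) A) :
    Isometric ε (fromBlocks p (1 + m) 0 q)
      (fromBlocks (-(m * p) + pᴴ * q * p) (1 + (m - pᴴ * q - (ε : ℤ) • (pᴴ * qᴴ))) 0 q) := by
  refine ⟨fromBlocks 1 0 (-p) 1, fromBlocks 1 0 p 1, fromBlocks 0 0 (q * p) 0, ?_, ?_, ?_⟩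
  · rw [fromBlocks_multiply]
    simp [fromBlocks_one]
  · rw [fromBlocks_multiply]
    simp [fromBlocks_one]
  · rw [fromBlocks_conjTranspose, fromBlocks_conjTranspose, fromBlocks_multiply, fromBlocks_multiply,
      fromBlocks_smul, fromBlocks_add, eq_sub_iff_add_eq, fromBlocks_add]
    simp only [Matrix.conjTranspose_one, Matrix.conjTranspose_zero, Matrix.conjTranspose_neg,
      Matrix.conjTranspose_mul, Matrix.mul_zero, Matrix.zero_mul, Matrix.mul_one, Matrix.one_mul,
      add_zero, zero_add, smul_zero, Matrix.neg_mul, Matrix.mul_neg, Matrix.add_mul,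
      Matrix.mul_add, Matrix.mul_assoc]
    congr 1
    · abel
    · abel
    · abel

theorem pow_mem {E : ℕ → Bool → Bool → AddSubgroup (Matrix (Fin n) (Fin n) A)} {N : ℕ} (hE : EFam E N)
    {m : Matrix (Fin n) (Fin n) A} (hm : m ∈ E 1 false false) (i : ℕ) : m ^ (i + 1) ∈ E (i + 1) false false := by
  induction i with
  | zero => simpa using hm
  | succ i ih =>
    rw [pow_succ]
    exact hE.mul (i + 1) 1 false false false _ _ ih hm

theorem main {E : ℕ → Bool → Bool → AddSubgroup (Matrix (Fin n) (Fin n) A)} {N : ℕ} (hE : EFam E N) (d : ℕ) :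
    ∀ k : ℕ, 1 ≤ k → N ≤ k + d → ∀ p ∈ E k false true, ∀ m ∈ E 1 false false, ∀ q ∈ E 1 true false,
      StablyHyperbolic ε (fromBlocks p (1 + m) 0 q) := by
  induction d with
  | zero =>
    intro k _ hkN p hp m hm q _
    have hp0 : p = 0 := hE.zero _ _ p (hE.mono N k false true (by omega) hp)
    have hnil : IsNilpotent m := by
      refine ⟨N + 1, hE.zero false false _ ?_⟩
      exact hE.mono N (N + 1) false false (by omega) (pow_mem hE hm N)
    rw [hp0]
    exact base m q hnil.isUnit_one_add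
  | succ d ih =>
    intro k hk hkN p hp m hm q hq
    refine stab_of_isom (step p m q) ?_
    have hps : pᴴ ∈ E k false true := by simpa using hE.star k false true p hp
    have hqs : qᴴ ∈ E 1 true false := by simpa using hE.star 1 true false q hq
    have h1 : m * p ∈ E (1 + k) false true := hE.mul 1 k false false true m p hm hp
    have h2 : pᴴ * q ∈ E (k + 1) false false := hE.mul k 1 false true false _ _ hps hq
    have h3 : pᴴ * qᴴ ∈ E (k + 1) false false := hE.mul k 1 false true false _ _ hps hqs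
    have h4 : pᴴ * q * p ∈ E (k + 1 + k) false true := hE.mul (k + 1) k false false true _ _ h2 hp
    refine ih (k + 1) (by omega) (by omega) _ ?_ _ ?_ q hq
    · refine add_mem (neg_mem ?_) (hE.mono (k + 1) (k + 1 + k) false true (by omega) h4)
      rw [add_comm k 1]
      exact h1
    · have h2' := hE.mono 1 (k + 1) false false (by omega) h2
      have h3' := hE.mono 1 (k + 1) false false (by omega) h3
      exact sub_mem (sub_mem hm h2') (AddSubgroup.zsmul_mem _ h3' _)

end NWCM

theorem specNWC : SpecNWC := by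
  intro A _ _ ε n N E hE p hp m hm q hq
  exact NWCM.main hE N 1 le_rfl (by omega) p hp m hm q hq

end Pool.Agent.Lib.MP8a3537.RO
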