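import Pool.Agent.Lib.MP_8a3537_gt.RO.Spec
import Pool.Agent.Lib.MP_8a3537_gt.UV.EMV
import Pool.Agent.Lib.MP_8a3537_gt.UV.SWP
import Pool.Agent.Lib.MP_8a3537_gt.AU.GDS

/-! # RO, module SCH: elimination -/

namespace Pool.Agent.Lib.MP8a3537.RO

open Matrix Pool.Agent.Lib.MP8a3537.UV

namespace SCHM

variable {A : Type} [Ring A] [StarRing A]

theorem isoC (ε : ℤˣ) {M P : Type} [Fintype M] [DecidableEq M] [Fintype P] [DecidableEq P]
    (Λ : Matrix M M A) (B : Matrix M P A) (K : Matrix P P A) (C : Matrix P M A)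
    (Z Φ : Matrix (M ⊕ P) (M ⊕ P) A)
    (h : Φ = fromBlocks (Λ + B * C + Cᴴ * (K * C)) (B + Cᴴ * K) (K * C) K + Z - (ε : ℤ) • Zᴴ) :
    Isometric ε (fromBlocks Λ B 0 K) Φ := by
  refine ⟨fromBlocks 1 0 C 1, fromBlocks 1 0 (-C) 1, Z, ?_, ?_, ?_⟩
  · rw [fromBlocks_multiply]; simp
  · rw [fromBlocks_multiply]; simp
  · rw [h, fromBlocks_conjTranspose, Matrix.mul_assoc, fromBlocks_multiply, fromBlocks_multiply]
    simp

theorem isoD (ε : ℤˣ) {M P : Type} [Fintype M] [DecidableEq M] [Fintype P] [DecidableEq P]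
    (Λ : Matrix M M A) (B : Matrix M P A) (K : Matrix P P A) (D : Matrix M P A)
    (Z Φ : Matrix (M ⊕ P) (M ⊕ P) A)
    (h : Φ = fromBlocks Λ (Λ * D + B) (Dᴴ * Λ) (Dᴴ * (Λ * D + B) + K) + Z - (ε : ℤ) • Zᴴ) :
    Isometric ε (fromBlocks Λ B 0 K) Φ := by
  refine ⟨fromBlocks 1 D 0 1, fromBlocks 1 (-D) 0 1, Z, ?_, ?_, ?_⟩
  · rw [fromBlocks_multiply]; simp
  · rw [fromBlocks_multiply]; simp
  · rw [h, fromBlocks_conjTranspose, Matrix.mul_assoc, fromBlocks_multiply, fromBlocks_multiply]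
    simp

theorem isoK (ε : ℤˣ) {N : Type} [Fintype N] [DecidableEq N] (ψ : Matrix N N A) :
    Isometric ε (fromBlocks ψ (1 : Matrix N N A) 0 (0 : Matrix N N A)) (hyp N A) := by
  refine isoC ε ψ 1 0 (-ψ) 0 _ ?_
  unfold hyp
  simp

/-- The sum of two stably hyperbolic forms. -/
theorem sh_sum (ε : ℤˣ) {M P : Type} [Fintype M] [DecidableEq M] [Fintype P] [DecidableEq P]
    (Λ : Matrix M M A) (K : Matrix P P A) (m₁ n₁ m₂ n₂ : ℕ)
    (h₁ : Isometric ε (fromBlocks Λ 0 0 (hyp (Fin m₁) A)) (hyp (Fin n₁) A))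
    (h₂ : Isometric ε (fromBlocks K 0 0 (hyp (Fin m₂) A)) (hyp (Fin n₂) A)) :
    Isometric ε (fromBlocks (fromBlocks Λ 0 0 K) 0 0 (hyp (Fin (m₁ + m₂)) A))
      (hyp (Fin (n₁ + n₂)) A) := by
  have s1 := EMVAux.iso_sum' ε (fromBlocks Λ 0 0 K)
    (EMVAux.iso_symm ε (EMVAux.hyp_sum (A := A) ε m₁ m₂))
  have s2 : Isometric ε
      (fromBlocks (fromBlocks Λ 0 0 K) 0 0 (fromBlocks (hyp (Fin m₁) A) 0 0 (hyp (Fin m₂) A)))
      (fromBlocks (fromBlocks Λ 0 0 (hyp (Fin m₁) A)) 0 0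
        (fromBlocks K 0 0 (hyp (Fin m₂) A))) := by
    refine EMVAux.iso_equiv ε _ _ (Equiv.sumSumSumComm M (Fin m₁ ⊕ Fin m₁) P
      (Fin m₂ ⊕ Fin m₂)) ?_
    ext i j
    rcases i with (i | i) | (i | i) <;> rcases j with (j | j) | (j | j) <;> simp
  have s3 := EMVAux.iso_sum ε (fromBlocks K 0 0 (hyp (Fin m₂) A)) h₁
  have s4 := EMVAux.iso_sum' ε (hyp (Fin n₁) A) h₂
  have s5 := EMVAux.hyp_sum (A := A) ε n₁ n₂
  exact EMVAux.iso_trans ε s1 (EMVAux.iso_trans ε s2 (EMVAux.iso_trans ε s3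
    (EMVAux.iso_trans ε s4 s5)))

theorem hyp_card (ε : ℤˣ) (N : Type) [Fintype N] [DecidableEq N] :
    Isometric ε (hyp (Fin (Fintype.card N)) A) (hyp N A) := by
  refine EMVAux.iso_equiv ε _ _ (Equiv.sumCongr (Fintype.equivFin N) (Fintype.equivFin N)) ?_
  ext i j
  rcases i with i | i <;> rcases j with j | j <;>
    simp [hyp, Matrix.one_apply, (Fintype.equivFin N).injective.eq_iff]

theorem main (ε : ℤˣ) {M N : Type} [Fintype M] [DecidableEq M] [Fintype N] [DecidableEq N]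
    (Λ : Matrix M M A) (Zm : Matrix M N A) (Ξ : Matrix N M A) (ψ' : Matrix N N A)
    (h : (Λ + (ε : ℤ) • Λᴴ) * Zm = Ξᴴ) :
    Isometric ε (fromBlocks (Λ + Ξᴴ * ψ' * Ξ) 0 0 (hyp N A))
      (fromBlocks Λ 0 0 (fromBlocks ψ' 1 0 (-(Zmᴴ * Λ * Zm)))) := by
  have s1 := EMVAux.iso_sum' ε (Λ + Ξᴴ * ψ' * Ξ) (EMVAux.iso_symm ε (isoK ε ψ'))
  have hεε : ∀ X : Matrix N M A, (ε : ℤ) • (ε : ℤ) • X = X := by
    intro X
    rcases Int.units_eq_one_or ε with h | h <;> simp [h]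
  have hεε' : ∀ X : Matrix N N A, (ε : ℤ) • (ε : ℤ) • X = X := by
    intro X
    rcases Int.units_eq_one_or ε with h | h <;> simp [h]
  have hstar : ∀ X : Matrix N N A, ((ε : ℤ) • X)ᴴ = (ε : ℤ) • Xᴴ := by
    intro X
    rcases Int.units_eq_one_or ε with h | h <;> simp [h]
  have hstar' : ∀ X : Matrix M N A, ((ε : ℤ) • X)ᴴ = (ε : ℤ) • Xᴴ := by
    intro X
    rcases Int.units_eq_one_or ε with h | h <;> simp [h]
  have s2 : Isometric ε (fromBlocks Λ (fromCols 0 (-Ξᴴ)) 0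
      (fromBlocks ψ' (1 : Matrix N N A) 0 (0 : Matrix N N A)))
      (fromBlocks (Λ + Ξᴴ * ψ' * Ξ) 0 0
      (fromBlocks ψ' (1 : Matrix N N A) 0 (0 : Matrix N N A))) := by
    refine isoC ε _ _ _ (fromRows Ξ (-((ψ' + (ε : ℤ) • ψ'ᴴ) * Ξ)))
      (fromBlocks 0 (fromCols (-(Ξᴴ * ψ')) 0) 0 0) _ ?_
    have e1 : fromBlocks ψ' (1 : Matrix N N A) 0 (0 : Matrix N N A) * fromRows Ξ (-((ψ' + (ε : ℤ) • ψ'ᴴ) * Ξ)) =
        fromRows (-((ε : ℤ) • (ψ'ᴴ * Ξ))) (0 : Matrix N M A) := by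
      rw [Matrix.fromBlocks_mul_fromRows]
      congr 1
      · rw [Matrix.one_mul, Matrix.add_mul, Matrix.smul_mul]
        abel
      · simp
    have e2 : (fromRows Ξ (-((ψ' + (ε : ℤ) • ψ'ᴴ) * Ξ)))ᴴ *
        fromBlocks ψ' (1 : Matrix N N A) 0 (0 : Matrix N N A) =
        fromCols (Ξᴴ * ψ') (Ξᴴ) := by
      rw [Matrix.conjTranspose_fromRows_eq_fromCols_conjTranspose,
        Matrix.fromCols_mul_fromBlocks]
      simp
    rw [e2, e1, Matrix.conjTranspose_fromRows_eq_fromCols_conjTranspose,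
      Matrix.fromCols_mul_fromRows, Matrix.fromCols_mul_fromRows, fromBlocks_conjTranspose,
      fromBlocks_smul, fromBlocks_add, sub_eq_add_neg, fromBlocks_neg, fromBlocks_add]
    congr 1
    · simp only [Matrix.zero_mul, Matrix.mul_zero, Matrix.neg_mul, Matrix.mul_neg, neg_neg,
        smul_neg,
        Matrix.add_mul, Matrix.mul_add, Matrix.smul_mul, Matrix.mul_smul, Matrix.mul_assoc,
        conjTranspose_zero, smul_zero, neg_zero, add_zero, zero_add]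
      abel
    · ext i j
      rcases j with j | j <;> simp
    · rw [Matrix.conjTranspose_fromCols_eq_fromRows_conjTranspose]
      ext i j
      rcases i with i | i <;> simp
    · simp
  have s3 : Isometric ε (fromBlocks Λ (fromCols 0 (-Ξᴴ)) 0
      (fromBlocks ψ' (1 : Matrix N N A) 0 (0 : Matrix N N A)))
      (fromBlocks Λ 0 0 (fromBlocks ψ' 1 0 (-(Zmᴴ * Λ * Zm)))) := by
    refine isoD ε _ _ _ (fromCols 0 Zm)
      (fromBlocks 0 (fromCols 0 ((ε : ℤ) • (Λᴴ * Zm))) 0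
        (fromBlocks 0 0 0 (-(Zmᴴ * Λ * Zm)))) _ ?_
    have hΞ : Ξᴴ = Λ * Zm + (ε : ℤ) • (Λᴴ * Zm) := by
      rw [← h, Matrix.add_mul, Matrix.smul_mul]
    have e1 : Λ * fromCols 0 Zm + fromCols 0 (-Ξᴴ) =
        fromCols (0 : Matrix M N A) (-((ε : ℤ) • (Λᴴ * Zm))) := by
      rw [hΞ, Matrix.mul_fromCols, Matrix.mul_zero]
      ext i j
      rcases j with j | j
      · simp
      · simp only [Matrix.add_apply, Matrix.fromCols_apply_inr, Matrix.neg_apply]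
        abel
    rw [e1, Matrix.conjTranspose_fromCols_eq_fromRows_conjTranspose, Matrix.fromRows_mul,
      Matrix.fromRows_mul_fromCols, fromBlocks_conjTranspose,
      fromBlocks_smul, fromBlocks_add, sub_eq_add_neg, fromBlocks_neg, fromBlocks_add]
    congr 1
    · simp
    · ext i j
      rcases j with j | j <;> simp
    · rw [Matrix.conjTranspose_fromCols_eq_fromRows_conjTranspose, hstar', Matrix.conjTranspose_mul,
        Matrix.conjTranspose_conjTranspose]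
      ext i j
      rcases i with i | i
      · simp
      · have h5 := congrFun (congrFun (hεε (Zmᴴ * Λ)) i) j
        simp only [Matrix.smul_apply] at h5
        simp only [Matrix.zero_apply, Matrix.add_apply, Matrix.fromRows_apply_inr,
          Matrix.neg_apply, Matrix.smul_apply, add_zero, h5, add_neg_cancel]
    · rw [fromBlocks_add, fromBlocks_add, fromBlocks_conjTranspose, fromBlocks_smul,
        fromBlocks_neg, fromBlocks_add]
      congr 1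
      · simp
      · simp
      · simp
      · simp only [Matrix.mul_neg, Matrix.mul_smul, Matrix.conjTranspose_neg,
          Matrix.conjTranspose_mul, Matrix.conjTranspose_conjTranspose, smul_neg, neg_neg,
          Matrix.mul_assoc, add_zero]
        abel
  exact EMVAux.iso_trans ε s1 (EMVAux.iso_trans ε (EMVAux.iso_symm ε s2) s3)

end SCHM

open SCHM in
theorem specSCH : SpecSCH := by
  intro A _ _ ε M N _ _ _ _ Λ Φi Ξ ψ' h1 _ hΛ hK
  obtain ⟨m₁, n₁, h₁⟩ := hΛ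
  obtain ⟨m₂, n₂, h₂⟩ := hK
  have hm := main ε Λ (Φi * Ξᴴ) Ξ ψ' (by rw [← Matrix.mul_assoc, h1, Matrix.one_mul])
  refine ⟨Fintype.card N + (m₁ + m₂), n₁ + n₂, ?_⟩
  have s1 := EMVAux.iso_sum' ε (Λ + Ξᴴ * ψ' * Ξ)
    (EMVAux.iso_symm ε (EMVAux.hyp_sum (A := A) ε (Fintype.card N) (m₁ + m₂)))
  have s2 := EMVAux.iso_assoc ε (Λ + Ξᴴ * ψ' * Ξ) (hyp (Fin (Fintype.card N)) A)
    (hyp (Fin (m₁ + m₂)) A)
  have s3 := EMVAux.iso_sum ε (hyp (Fin (m₁ + m₂)) A)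
    (EMVAux.iso_trans ε (EMVAux.iso_sum' ε (Λ + Ξᴴ * ψ' * Ξ) (hyp_card (A := A) ε N)) hm)
  have s4 := sh_sum ε Λ (fromBlocks ψ' 1 0 (-((Φi * Ξᴴ)ᴴ * Λ * (Φi * Ξᴴ)))) m₁ n₁ m₂ n₂ h₁ h₂
  exact EMVAux.iso_trans ε s1 (EMVAux.iso_trans ε s2 (EMVAux.iso_trans ε s3 s4))

end Pool.Agent.Lib.MP8a3537.RO
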