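import Pool.Agent.Lib.MP_8a3537_gt.RO.Spec
import Pool.Agent.Lib.MP_8a3537_gt.UV.EMV

/-! # RO, module SCU: elimination for `UF` -/

namespace Pool.Agent.Lib.MP8a3537.RO

open Matrix Pool.Agent.Lib.MP8a3537.UV

namespace SCUM

variable {A : Type} [Ring A] [StarRing A]

theorem sq {ε : ℤˣ} {m n : Type} (X : Matrix m n A) : (ε : ℤ) • (ε : ℤ) • X = X := by
  rcases Int.units_eq_one_or ε with h | h <;> simp [h]

theorem star_smul' {ε : ℤˣ} {m n : Type} (X : Matrix m n A) :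
    ((ε : ℤ) • X)ᴴ = (ε : ℤ) • Xᴴ := by
  rcases Int.units_eq_one_or ε with h | h <;> simp [h]

omit [StarRing A] in
theorem W0_mul {n : ℕ} (N : ℕ) (ν : Matrix (Fin n ⊕ Fin n) (Fin n ⊕ Fin n) A)
    (h : ν ^ N = 0) : W0 N ν * (1 + ν) = 1 ∧ (1 + ν) * W0 N ν = 1 := by
  have h1 := geom_sum_mul_neg (-ν) N
  have h2 := mul_neg_geom_sum (-ν) N
  have h3 : (-ν) ^ N = 0 := by
    rw [neg_pow, h, mul_zero]
  rw [sub_neg_eq_add, h3, sub_zero] at h1 h2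
  exact ⟨h1, h2⟩

/-- the matrix `J` -/
def J (A : Type) [Ring A] (ε : ℤˣ) (n : ℕ) : Matrix (Fin n ⊕ Fin n) (Fin n ⊕ Fin n) A :=
  fromBlocks 0 1 ((ε : ℤ) • 1) 0

/-- the inverse of `J` -/
def Ji (A : Type) [Ring A] (ε : ℤˣ) (n : ℕ) : Matrix (Fin n ⊕ Fin n) (Fin n ⊕ Fin n) A :=
  fromBlocks 0 ((ε : ℤ) • 1) 1 0

omit [StarRing A] in
theorem J_Ji (ε : ℤˣ) (n : ℕ) : J A ε n * Ji A ε n = 1 ∧ Ji A ε n * J A ε n = 1 := by
  unfold J Ji
  rw [fromBlocks_multiply, fromBlocks_multiply]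
  rcases Int.units_eq_one_or ε with h | h <;> simp [h, fromBlocks_one]

theorem lam (ε : ℤˣ) {n : ℕ} (ψ μ χ : Matrix (Fin n) (Fin n) A) :
    UF ψ μ χ + (ε : ℤ) • (UF ψ μ χ)ᴴ =
      J A ε n * (1 + nu ε (ψ + (ε : ℤ) • ψᴴ) μ (χ + (ε : ℤ) • χᴴ)) := by
  unfold UF nu J
  rw [← fromBlocks_one, fromBlocks_add, fromBlocks_multiply, fromBlocks_conjTranspose,
    fromBlocks_smul, fromBlocks_add]
  rcases Int.units_eq_one_or ε with h | h
  · simp [h]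
  · simp only [h, Units.val_neg, Units.val_one, neg_smul, one_smul, conjTranspose_add,
      conjTranspose_one, conjTranspose_conjTranspose, conjTranspose_zero, Matrix.zero_mul,
      Matrix.one_mul, Matrix.neg_mul, zero_add, add_zero, neg_neg, neg_zero, smul_neg, neg_add]

end SCUM

open SCUM in
theorem specSCU (hSCH : SpecSCH) : SpecSCU := by
  intro A _ _ ε n r N ψ μ χ Ξ ψ' hν
  set ν := nu ε (ψ + (ε : ℤ) • ψᴴ) μ (χ + (ε : ℤ) • χᴴ) with hνd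
  set w := W0 N ν with hw
  obtain ⟨hw1, hw2⟩ := W0_mul N ν hν
  obtain ⟨hJ1, hJ2⟩ := J_Ji (A := A) ε n
  have hlam := lam ε ψ μ χ
  rw [← hνd] at hlam
  let Ξ' : Matrix (Fin r) (Fin n ⊕ Fin n) A := fromCols Ξ 0
  have hΞ' : Ξ'ᴴ = fromRows Ξᴴ 0 := by
    change (fromCols Ξ 0)ᴴ = _
    rw [conjTranspose_fromCols_eq_fromRows_conjTranspose, conjTranspose_zero]
  have hwb : w = fromBlocks (blk w true true) (blk w true false) (blk w false true)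
      (blk w false false) := by
    ext i j
    rcases i with i | i <;> rcases j with j | j <;> rfl
  have hZm : w * Ji A ε n * Ξ'ᴴ = fromRows (blk w true false * Ξᴴ) (blk w false false * Ξᴴ) := by
    rw [hΞ', Matrix.mul_assoc]
    unfold Ji
    rw [fromBlocks_mul_fromRows]
    conv_lhs => rw [hwb]
    rw [fromBlocks_mul_fromRows]
    simp
  have h1 : (UF ψ μ χ + (ε : ℤ) • (UF ψ μ χ)ᴴ) * (w * Ji A ε n) = 1 := by
    rw [hlam, Matrix.mul_assoc, ← Matrix.mul_assoc _ w, hw2, Matrix.one_mul, hJ1]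
  have h2 : (w * Ji A ε n) * (UF ψ μ χ + (ε : ℤ) • (UF ψ μ χ)ᴴ) = 1 := by
    rw [hlam, Matrix.mul_assoc, ← Matrix.mul_assoc (Ji A ε n), hJ2, Matrix.one_mul, hw1]
  have hκ : -((w * Ji A ε n * Ξ'ᴴ)ᴴ * UF ψ μ χ * (w * Ji A ε n * Ξ'ᴴ)) = kap ψ μ χ w Ξ := by
    rw [hZm]
    unfold UF kap
    rw [EMVAux.rows_form]
    simp
  constructor
  · intro h3 h4
    have h5 := hSCH A ε (Fin n ⊕ Fin n) (Fin r) (UF ψ μ χ) (w * Ji A ε n) Ξ' ψ' h1 h2 h3 (by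
      rw [hκ]
      have h6 : UF ψ' 0 (kap ψ μ χ w Ξ) = fromBlocks ψ' 1 0 (kap ψ μ χ w Ξ) := by
        unfold UF
        simp
      rw [← h6]
      exact h4)
    have h7 : UF ψ μ χ + Ξ'ᴴ * ψ' * Ξ' = UF (ψ + Ξᴴ * ψ' * Ξ) μ χ := by
      rw [hΞ']
      change UF ψ μ χ + fromRows Ξᴴ 0 * ψ' * fromCols Ξ 0 = _
      rw [fromRows_mul, fromRows_mul_fromCols]
      unfold UF
      rw [fromBlocks_add]
      simp
    rw [h7] at h5
    exact h5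
  · have h3 : (UF ψ μ χ + (ε : ℤ) • (UF ψ μ χ)ᴴ) * (w * Ji A ε n * Ξ'ᴴ) = Ξ'ᴴ := by
      rw [← Matrix.mul_assoc, h1, Matrix.one_mul]
    have h4 : kap ψ μ χ w Ξ + (ε : ℤ) • (kap ψ μ χ w Ξ)ᴴ =
        -((w * Ji A ε n * Ξ'ᴴ)ᴴ *
          ((UF ψ μ χ + (ε : ℤ) • (UF ψ μ χ)ᴴ) * (w * Ji A ε n * Ξ'ᴴ))) := by
      rw [← hκ]
      simp only [conjTranspose_neg, conjTranspose_mul, conjTranspose_conjTranspose,
        Matrix.add_mul, Matrix.mul_add, Matrix.smul_mul, Matrix.mul_smul, smul_neg, neg_add,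
        Matrix.mul_assoc]
    rw [h4, h3, ← conjTranspose_mul, hZm]
    change -(fromCols Ξ 0 * fromRows (blk w true false * Ξᴴ) (blk w false false * Ξᴴ))ᴴ = _
    rw [fromCols_mul_fromRows]
    simp [Matrix.mul_assoc]

end Pool.Agent.Lib.MP8a3537.RO
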