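import Pool.Agent.Lib.MP_8a3537_gt.RO.Spec

/-!
# Module EFA (MP_8a3537_gt, folder RO): the family `EE`
-/

set_option autoImplicit false

open Matrix Pool.Agent.Lib.MP8a3537.UV Pool.Agent.Lib.MP8a3537.AU

namespace Pool.Agent.Lib.MP8a3537.RO

namespace EFAAux

variable {R G : Type} [Ring R] [Group G] {H : Subgroup G}

section One

variable {n : Type} [Fintype n] {N : Matrix (n ⊕ n) (n ⊕ n) (MonoidAlgebra R G)}

theorem EE_of {j k : ℕ} {s t : Bool} {M : Matrix n n (MonoidAlgebra R G)} (hjk : k ≤ j)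
    (h : Wrd H N j s t M) : M ∈ EE H N k s t :=
  AddSubgroup.subset_closure ⟨j, hjk, h⟩

theorem wrd_mul {j l : ℕ} {s r t : Bool} {M M' : Matrix n n (MonoidAlgebra R G)}
    (h : Wrd H N j s r M) (h' : Wrd H N l r t M') : Wrd H N (j + l) s t (M * M') := by
  induction h with
  | one hc =>
    rw [Nat.add_comm]
    exact Wrd.cons hc h'
  | @cons k s r q c P hc hP ih =>
    rw [Matrix.mul_assoc, show k + 1 + l = (k + l) + 1 by omega]
    exact Wrd.cons hc (ih h')

theorem EE_mul {k l : ℕ} {s r t : Bool} {M M' : Matrix n n (MonoidAlgebra R G)}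
    (hM : M ∈ EE H N k s r) (hM' : M' ∈ EE H N l r t) : M * M' ∈ EE H N (k + l) s t := by
  unfold EE at hM
  induction hM using AddSubgroup.closure_induction with
  | mem M h =>
    obtain ⟨j, hj, hw⟩ := h
    unfold EE at hM'
    induction hM' using AddSubgroup.closure_induction with
    | mem M' h' =>
      obtain ⟨j', hj', hw'⟩ := h'
      exact EE_of (by omega) (wrd_mul hw hw')
    | zero => rw [Matrix.mul_zero]; exact zero_mem _
    | add x y _ _ hx hy => rw [Matrix.mul_add]; exact add_mem hx hy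
    | neg x _ hx => rw [Matrix.mul_neg]; exact neg_mem hx
  | zero => rw [Matrix.zero_mul]; exact zero_mem _
  | add x y _ _ hx hy => rw [Matrix.add_mul]; exact add_mem hx hy
  | neg x _ hx => rw [Matrix.neg_mul]; exact neg_mem hx

theorem EE_mono {k l : ℕ} (s t : Bool) (h : k ≤ l) : EE H N l s t ≤ EE H N k s t :=
  AddSubgroup.closure_mono fun _ ⟨j, hj, hw⟩ => ⟨j, h.trans hj, hw⟩

theorem cut_univ (x : MonoidAlgebra R G) : cut Set.univ x = x := by
  ext g
  rw [cut_coeff, if_pos (Set.mem_univ g)]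

theorem cutM_univ {m : Type} (M : Matrix m m (MonoidAlgebra R G)) : cutM Set.univ M = M := by
  funext i j
  exact cut_univ (M i j)

omit [Group G] in
theorem cut_neg (c : Set G) (x : MonoidAlgebra R G) : cut c (-x) = -cut c x := by
  ext g
  rw [cut_coeff, MonoidAlgebra.coeff_neg, MonoidAlgebra.coeff_neg, Finsupp.neg_apply,
    Finsupp.neg_apply, cut_coeff]
  split_ifs
  · rfl
  · rw [neg_zero]

theorem cutM_neg {m : Type} (c : Set G) (M : Matrix m m (MonoidAlgebra R G)) :
    cutM c (-M) = -cutM c M := by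
  funext i j
  exact cut_neg c (M i j)

theorem bi_univ : Bi H (Set.univ : Set G) :=
  ⟨fun _ _ _ _ => Set.mem_univ _, fun _ _ _ _ => Set.mem_univ _⟩

theorem bi_inv {c : Set G} (h : Bi H c) : Bi H {x | x⁻¹ ∈ c} := by
  refine ⟨fun k hk x hx => ?_, fun k hk x hx => ?_⟩
  · show (k * x)⁻¹ ∈ c
    rw [_root_.mul_inv_rev]
    exact h.2 _ (inv_mem hk) _ hx
  · show (x * k)⁻¹ ∈ c
    rw [_root_.mul_inv_rev]
    exact h.1 _ (inv_mem hk) _ hx

end One

variable [StarRing R]

theorem cut_star (c : Set G) (x : MonoidAlgebra R G) :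
    star (cut c x) = cut {y | y⁻¹ ∈ c} (star x) := by
  ext g
  rw [star_coeff, cut_coeff, cut_coeff, star_coeff]
  by_cases h : g⁻¹ ∈ c
  · rw [if_pos h, if_pos (show g ∈ {y | y⁻¹ ∈ c} from h)]
  · rw [if_neg h, if_neg (show ¬ g ∈ {y | y⁻¹ ∈ c} from h), star_zero]

theorem cutM_star {m : Type} (c : Set G) (M : Matrix m m (MonoidAlgebra R G)) :
    (cutM c M)ᴴ = cutM {y | y⁻¹ ∈ c} Mᴴ := by
  funext i j
  exact cut_star c (M j i)

section Two

variable {n : ℕ} {ε : ℤˣ} {a μ b : Matrix (Fin n) (Fin n) (MonoidAlgebra R G)}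

theorem blk_star (ha : a = (ε : ℤ) • aᴴ) (hb : b = (ε : ℤ) • bᴴ) (s t : Bool) :
    (blk (nu ε a μ b) s t)ᴴ = blk (nu ε a μ b) (!t) (!s) ∨
      (blk (nu ε a μ b) s t)ᴴ = -blk (nu ε a μ b) (!t) (!s) := by
  have h11 : blk (nu ε a μ b) true true = μ := rfl
  have h22 : blk (nu ε a μ b) false false = μᴴ := rfl
  have h12 : blk (nu ε a μ b) true false = (ε : ℤ) • b := rfl
  have h21 : blk (nu ε a μ b) false true = a := rfl
  cases s <;> cases t
  · left
    show (blk (nu ε a μ b) false false)ᴴ = blk (nu ε a μ b) true true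
    rw [h11, h22, conjTranspose_conjTranspose]
  · show (blk (nu ε a μ b) false true)ᴴ = blk (nu ε a μ b) false true ∨
      (blk (nu ε a μ b) false true)ᴴ = -blk (nu ε a μ b) false true
    rw [h21]
    rcases Int.units_eq_one_or ε with rfl | rfl
    · left
      rw [Units.val_one, one_smul] at ha
      exact ha.symm
    · right
      rw [Units.val_neg, Units.val_one, neg_smul, one_smul] at ha
      rw [eq_neg_iff_add_eq_zero]
      nth_rewrite 2 [ha]
      rw [add_neg_cancel]
  · show (blk (nu ε a μ b) true false)ᴴ = blk (nu ε a μ b) true false ∨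
      (blk (nu ε a μ b) true false)ᴴ = -blk (nu ε a μ b) true false
    rw [h12]
    rcases Int.units_eq_one_or ε with rfl | rfl
    · left
      rw [Units.val_one, one_smul] at hb ⊢
      exact hb.symm
    · right
      rw [Units.val_neg, Units.val_one, neg_smul, one_smul] at hb
      rw [Units.val_neg, Units.val_one, neg_smul, one_smul, neg_neg, conjTranspose_neg]
      exact hb.symm
  · left
    show (blk (nu ε a μ b) true true)ᴴ = blk (nu ε a μ b) false false
    rw [h11, h22]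

theorem letter_star (ha : a = (ε : ℤ) • aᴴ) (hb : b = (ε : ℤ) • bᴴ) (s t : Bool) {c : Set G}
    (hc : Bi H c) : (cutM c (blk (nu ε a μ b) s t))ᴴ ∈ EE H (nu ε a μ b) 1 (!t) (!s) := by
  rw [cutM_star]
  rcases blk_star (μ := μ) ha hb s t with h | h
  · rw [h]
    exact EE_of le_rfl (Wrd.one (bi_inv hc))
  · rw [h, cutM_neg]
    exact neg_mem (EE_of le_rfl (Wrd.one (bi_inv hc)))

theorem wrd_star (ha : a = (ε : ℤ) • aᴴ) (hb : b = (ε : ℤ) • bᴴ) {j : ℕ} {s t : Bool}
    {M : Matrix (Fin n) (Fin n) (MonoidAlgebra R G)} (h : Wrd H (nu ε a μ b) j s t M) :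
    Mᴴ ∈ EE H (nu ε a μ b) j (!t) (!s) := by
  induction h with
  | one hc => exact letter_star ha hb _ _ hc
  | cons hc hP ih =>
    rw [conjTranspose_mul]
    exact EE_mul ih (letter_star ha hb _ _ hc)

theorem EE_star (ha : a = (ε : ℤ) • aᴴ) (hb : b = (ε : ℤ) • bᴴ) {k : ℕ} {s t : Bool}
    {M : Matrix (Fin n) (Fin n) (MonoidAlgebra R G)} (hM : M ∈ EE H (nu ε a μ b) k s t) :
    Mᴴ ∈ EE H (nu ε a μ b) k (!t) (!s) := by
  unfold EE at hM
  induction hM using AddSubgroup.closure_induction with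
  | mem M h =>
    obtain ⟨j, hj, hw⟩ := h
    exact EE_mono _ _ hj (wrd_star ha hb hw)
  | zero => rw [conjTranspose_zero]; exact zero_mem _
  | add x y _ _ hx hy => rw [conjTranspose_add]; exact add_mem hx hy
  | neg x _ hx => rw [conjTranspose_neg]; exact neg_mem hx

end Two

end EFAAux

/-- **EFA**: the family `EE`. -/
theorem specEFA (hJNT : SpecJNT) : SpecEFA := by
  intro R G _ _ _ H X1 X2 X3 Yp Ym hP ε n a μ b h1 h3 h2 ha hb N hN
  refine ⟨⟨?_, ?_, ?_, ?_⟩, ?_, ?_⟩
  · intro k l s r t M M' hM hM'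
    exact EFAAux.EE_mul hM hM'
  · intro k s t M hM
    exact EFAAux.EE_star ha hb hM
  · intro k l s t hkl
    exact EFAAux.EE_mono s t hkl
  · intro s t M hM
    exact hJNT R G H X1 X2 X3 Yp Ym hP ε n a μ b h1 h3 h2 N hN s t M hM
  · intro s t c hc
    exact EFAAux.EE_of le_rfl (Wrd.one hc)
  · intro s t
    have h : cutM Set.univ (blk (nu ε a μ b) s t) = blk (nu ε a μ b) s t := EFAAux.cutM_univ _
    rw [← h]
    exact EFAAux.EE_of le_rfl (Wrd.one EFAAux.bi_univ)

end Pool.Agent.Lib.MP8a3537.RO
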