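import Pool.Agent.Lib.MP_8a3537_gt.RO.Spec

/-!
# MP_8a3537_gt, RO: HLF (helper22)

A half of the double cosets.
-/

namespace Pool.Agent.Lib.MP8a3537.RO

open Matrix Pool.Agent.Lib.MP8a3537.UV Pool.Agent.Lib.MP8a3537.AU

namespace HLFAux

section Grp

variable {G : Type} [Group G] (H : Subgroup G)

theorem self_mem_dc (x : G) : x ∈ dc H x := ⟨1, H.one_mem, 1, H.one_mem, by simp⟩

theorem dc_mul_left {h : G} (hh : h ∈ H) (x : G) : dc H (h * x) = dc H x := by
  ext y
  constructor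
  · rintro ⟨a, ha, b, hb, rfl⟩
    exact ⟨a * h, H.mul_mem ha hh, b, hb, by group⟩
  · rintro ⟨a, ha, b, hb, rfl⟩
    exact ⟨a * h⁻¹, H.mul_mem ha (H.inv_mem hh), b, hb, by group⟩

theorem dc_mul_right {h : G} (hh : h ∈ H) (x : G) : dc H (x * h) = dc H x := by
  ext y
  constructor
  · rintro ⟨a, ha, b, hb, rfl⟩
    exact ⟨a, ha, h * b, H.mul_mem hh hb, by group⟩
  · rintro ⟨a, ha, b, hb, rfl⟩
    exact ⟨a, ha, h⁻¹ * b, H.mul_mem (H.inv_mem hh) hb, by group⟩

/-- the chosen half -/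
def half : Set G := {x | WellOrderingRel (dc H x) (dc H x⁻¹)}

theorem bi_half : Bi H (half H) := by
  constructor
  · intro h hh x hx
    show WellOrderingRel (dc H (h * x)) (dc H (h * x)⁻¹)
    rw [_root_.mul_inv_rev, dc_mul_left H hh, dc_mul_right H (H.inv_mem hh)]
    exact hx
  · intro h hh x hx
    show WellOrderingRel (dc H (x * h)) (dc H (x * h)⁻¹)
    rw [_root_.mul_inv_rev, dc_mul_right H hh, dc_mul_left H (H.inv_mem hh)]
    exact hx

theorem half_inv (x : G) : x⁻¹ ∈ half H ↔ WellOrderingRel (dc H x⁻¹) (dc H x) := by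
  show WellOrderingRel (dc H x⁻¹) (dc H x⁻¹⁻¹) ↔ _
  rw [inv_inv]

theorem not_both (x : G) (h1 : x ∈ half H) (h2 : x⁻¹ ∈ half H) : False := by
  rw [half_inv] at h2
  exact (asymm_of WellOrderingRel h1 h2)

theorem one_of (x : G) (hx : ¬ Flip H x) : x ∈ half H ∨ x⁻¹ ∈ half H := by
  rw [half_inv]
  rcases trichotomous_of (WellOrderingRel (α := Set G)) (dc H x) (dc H x⁻¹) with h | h | h
  · exact Or.inl h
  · exact absurd (show x⁻¹ ∈ dc H x by rw [h]; exact self_mem_dc H x⁻¹) hx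
  · exact Or.inr h

end Grp

end HLFAux

open HLFAux

/-- HLF -/
theorem specHLF : SpecHLF := by
  intro R G _ _ _ H ε n a ha hfl
  refine ⟨half H, bi_half H, ?_⟩
  ext i j x
  have hc : ∀ (i j : Fin n) (x : G), (a i j).coeff x = (ε : ℤ) • star ((a j i).coeff x⁻¹) := by
    intro i j x
    have h1 : a i j = ((ε : ℤ) • aᴴ) i j := congrFun (congrFun ha i) j
    have h2 : ((ε : ℤ) • aᴴ) i j = (ε : ℤ) • star (a j i) := by
      rw [Matrix.smul_apply, Matrix.conjTranspose_apply]
    rw [h1, h2, MonoidAlgebra.coeff_smul, Finsupp.smul_apply, star_coeff]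
  have hr : (cutM (half H) a + (ε : ℤ) • (cutM (half H) a)ᴴ) i j
      = cut (half H) (a i j) + (ε : ℤ) • star (cut (half H) (a j i)) := by
    rw [Matrix.add_apply, Matrix.smul_apply, Matrix.conjTranspose_apply]
    rfl
  rw [hr, MonoidAlgebra.coeff_add, Finsupp.add_apply, MonoidAlgebra.coeff_smul, Finsupp.smul_apply,
    star_coeff, cut_coeff, cut_coeff]
  by_cases h0 : (a i j).coeff x = 0
  · have h1 : (a j i).coeff x⁻¹ = 0 := by
      rw [hc j i x⁻¹, inv_inv, h0, star_zero, smul_zero]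
    rw [h0, h1]
    simp
  · have hx := hfl i j x h0
    rcases one_of H x hx with h | h
    · have h2 : x⁻¹ ∉ half H := fun h2 => not_both H x h h2
      rw [if_pos h, if_neg h2, star_zero, smul_zero, add_zero]
    · have h2 : x ∉ half H := fun h2 => not_both H x h2 h
      rw [if_neg h2, if_pos h, zero_add]
      exact hc i j x

end Pool.Agent.Lib.MP8a3537.RO
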