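import Pool.Agent.Lib.MP_8a3537_gt.RO.Spec
import Pool.Agent.Lib.MP_8a3537_gt.UV.TAT
import Pool.Agent.Lib.MP_8a3537_gt.UV.SWP

/-!
# RO, module NWT: no flips
-/

namespace Pool.Agent.Lib.MP8a3537.RO

open Matrix Pool.Agent.Lib.MP8a3537.UV Pool.Agent.Lib.MP8a3537.AU

namespace NWTAux

variable {R G : Type} [Ring R] [StarRing R] [Group G]

theorem flip_inv {H : Subgroup G} {x : G} (h : Flip H x) : Flip H x⁻¹ := by
  obtain ⟨a, ha, b, hb, hx⟩ := h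
  refine ⟨a⁻¹, H.inv_mem ha, b⁻¹, H.inv_mem hb, ?_⟩
  rw [inv_inv, hx]
  group

theorem coeff_sym {n : ℕ} (ε : ℤ) (ψ : Matrix (Fin n) (Fin n) (MonoidAlgebra R G))
    (i j : Fin n) (x : G) :
    ((ψ + ε • ψᴴ) i j).coeff x = (ψ i j).coeff x + ε • star ((ψ j i).coeff x⁻¹) := by
  rw [Matrix.add_apply, Matrix.smul_apply, Matrix.conjTranspose_apply, MonoidAlgebra.coeff_add,
    Finsupp.add_apply, TATAux.coeff_smul_star]

theorem sym_symm {A : Type} [Ring A] [StarRing A] {n : ℕ} (ε : ℤˣ) (ψ : Matrix (Fin n) (Fin n) A) :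
    ψ + (ε : ℤ) • ψᴴ = (ε : ℤ) • (ψ + (ε : ℤ) • ψᴴ)ᴴ := by
  rcases Int.units_eq_one_or ε with h | h
  · simp [h, add_comm]
  · simp [h, add_comm]

/-- One of the two sides. -/
theorem side (hHLF : SpecHLF) {H : Subgroup G} {X : Set G} (hi : ∀ x ∈ X, x⁻¹ ∈ X)
    (hn : ∀ x ∈ X, x⁻¹ ≠ x) (ε : ℤˣ) {n : ℕ} (ψ : Matrix (Fin n) (Fin n) (MonoidAlgebra R G))
    (hψ : SuppIn X ψ) (hf : ∀ i j x, (ψ i j).coeff x ≠ 0 → ¬ Flip H x) :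
    SuppIn X (ψ + (ε : ℤ) • ψᴴ) ∧ ∃ c : Set G, Bi H c ∧
      ∃ c0 : Matrix (Fin n) (Fin n) (MonoidAlgebra R G),
        ψ = cutM c (ψ + (ε : ℤ) • ψᴴ) + c0 - (ε : ℤ) • c0ᴴ := by
  have key : ∀ i j x, ((ψ + (ε : ℤ) • ψᴴ) i j).coeff x ≠ 0 →
      (ψ i j).coeff x ≠ 0 ∨ (ψ j i).coeff x⁻¹ ≠ 0 := by
    intro i j x h
    by_contra hc
    push Not at hc
    apply h
    rw [coeff_sym, hc.1, hc.2, star_zero, smul_zero, add_zero]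
  have h1 : SuppIn X (ψ + (ε : ℤ) • ψᴴ) := by
    intro i j x h
    rcases key i j x h with h2 | h2
    · exact hψ i j x h2
    · have h3 := hi _ (hψ j i x⁻¹ h2)
      rwa [inv_inv] at h3
  refine ⟨h1, ?_⟩
  have h2 : ∀ i j x, ((ψ + (ε : ℤ) • ψᴴ) i j).coeff x ≠ 0 → ¬ Flip H x := by
    intro i j x h
    rcases key i j x h with h3 | h3
    · exact hf i j x h3
    · exact fun h4 => hf j i x⁻¹ h3 (flip_inv h4)
  obtain ⟨c, hc, hac⟩ := hHLF R G H ε n (ψ + (ε : ℤ) • ψᴴ) (sym_symm ε ψ) h2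
  refine ⟨c, hc, ?_⟩
  have h3 : SuppIn X (ψ - cutM c (ψ + (ε : ℤ) • ψᴴ)) := by
    intro i j x h
    by_contra hx
    apply h
    have h4 : (ψ i j).coeff x = 0 := by
      by_contra h5
      exact hx (hψ i j x h5)
    have h6 : ((ψ + (ε : ℤ) • ψᴴ) i j).coeff x = 0 := by
      by_contra h5
      exact hx (h1 i j x h5)
    rw [Matrix.sub_apply, MonoidAlgebra.coeff_sub, Finsupp.sub_apply, h4]
    unfold cutM
    rw [Matrix.map_apply, cut_coeff, h6, ite_self, sub_zero]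
  have h4 : ψ - cutM c (ψ + (ε : ℤ) • ψᴴ) =
      ((-ε : ℤˣ) : ℤ) • (ψ - cutM c (ψ + (ε : ℤ) • ψᴴ))ᴴ := by
    rw [Units.val_neg, neg_smul, conjTranspose_sub, smul_sub, neg_sub]
    rw [sub_eq_sub_iff_add_eq_add, add_comm ((ε : ℤ) • (cutM c (ψ + (ε : ℤ) • ψᴴ))ᴴ), ← hac]
  obtain ⟨c0, -, hc0⟩ := specTat R G X (-ε) n _ hi hn h3 h4
  refine ⟨c0, ?_⟩
  rw [Units.val_neg, neg_smul, ← sub_eq_add_neg] at hc0
  rw [add_sub_assoc, ← hc0]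
  abel

theorem cutM_zsmul {n : ℕ} (c : Set G) (ε : ℤ) (b : Matrix (Fin n) (Fin n) (MonoidAlgebra R G)) :
    cutM c (ε • b) = ε • cutM c b := by
  classical
  unfold cutM
  ext i j x
  rw [Matrix.map_apply, Matrix.smul_apply, Matrix.smul_apply, Matrix.map_apply, cut_coeff,
    MonoidAlgebra.coeff_smul, MonoidAlgebra.coeff_smul, Finsupp.smul_apply, Finsupp.smul_apply,
    cut_coeff]
  split_ifs
  · rfl
  · rw [smul_zero]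

end NWTAux

open NWTAux

theorem specNWT (hEFA : SpecEFA) (hNWC : SpecNWC) (hHLF : SpecHLF) : SpecNWT := by
  intro R G _ _ _ H X1 X2 X3 Yp Ym hP ε n ψ μ χ hψ hμ hχ hnil hf1 hf2
  obtain ⟨ha, c, hc, c0, hψc⟩ := side hHLF hP.X1i hP.X1n ε ψ hψ hf1
  obtain ⟨hb, c', hc', d0, hχc⟩ := side hHLF hP.X2i hP.X2n ε χ hχ hf2
  obtain ⟨N, hN⟩ := hnil
  obtain ⟨hE, hlet, hblk⟩ := hEFA R G H X1 X2 X3 Yp Ym hP ε n (ψ + (ε : ℤ) • ψᴴ) μ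
    (χ + (ε : ℤ) • χᴴ) ha hμ hb (sym_symm ε ψ) (sym_symm ε χ) N hN
  have h1 : cutM c (ψ + (ε : ℤ) • ψᴴ) ∈
      EE H (nu ε (ψ + (ε : ℤ) • ψᴴ) μ (χ + (ε : ℤ) • χᴴ)) 1 false true := hlet false true c hc
  have h2 : μᴴ ∈ EE H (nu ε (ψ + (ε : ℤ) • ψᴴ) μ (χ + (ε : ℤ) • χᴴ)) 1 false false :=
    hblk false false
  have h3 : cutM c' ((ε : ℤ) • (χ + (ε : ℤ) • χᴴ)) ∈
      EE H (nu ε (ψ + (ε : ℤ) • ψᴴ) μ (χ + (ε : ℤ) • χᴴ)) 1 true false := hlet true false c' hc'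
  have h4 : cutM c' (χ + (ε : ℤ) • χᴴ) ∈
      EE H (nu ε (ψ + (ε : ℤ) • ψᴴ) μ (χ + (ε : ℤ) • χᴴ)) 1 true false := by
    rw [cutM_zsmul] at h3
    have h5 := AddSubgroup.zsmul_mem _ h3 (ε : ℤ)
    rw [smul_smul] at h5
    have h6 : (ε : ℤ) * (ε : ℤ) = 1 := by
      rcases Int.units_eq_one_or ε with h | h <;> simp [h]
    rwa [h6, one_smul] at h5
  have h5 : StablyHyperbolic ε
      (UF (cutM c (ψ + (ε : ℤ) • ψᴴ)) μ (cutM c' (χ + (ε : ℤ) • χᴴ))) :=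
    hNWC (MonoidAlgebra R G) ε n N _ hE _ h1 _ h2 _ h4
  have h6 := (specSwp (MonoidAlgebra R G) ε n _ μ _).2.1 c0 d0 h5
  rwa [← hψc, ← hχc] at h6

end Pool.Agent.Lib.MP8a3537.RO
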