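import Pool.Agent.Lib.MP_8a3537_gt.RO.Spec

/-!
# RO, module FAC: factorization of the part of a matrix in a double coset
-/

namespace Pool.Agent.Lib.MP8a3537.RO

open Matrix Pool.Agent.Lib.MP8a3537.UV Pool.Agent.Lib.MP8a3537.AU

namespace FACAux

variable {R G : Type} [Ring R] [StarRing R] [Group G]

/-- The conclusion of FAC. -/
def Fac (H : Subgroup G) (g : G) {n : ℕ} (ψ : Matrix (Fin n) (Fin n) (MonoidAlgebra R G)) :
    Prop :=
  ∃ (r : ℕ) (Ξ : Matrix (Fin r) (Fin n) (MonoidAlgebra R G))
    (ψ' : Matrix (Fin r) (Fin r) (MonoidAlgebra R G)), SuppIn (H : Set G) Ξ ∧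
    SuppIn {x | x = g} ψ' ∧ ψ = Ξᴴ * ψ' * Ξ

theorem of_type {K : Type} [Fintype K] [DecidableEq K] (H : Subgroup G) (g : G) {n : ℕ}
    (ψ : Matrix (Fin n) (Fin n) (MonoidAlgebra R G))
    (Ξ : Matrix K (Fin n) (MonoidAlgebra R G)) (ψ' : Matrix K K (MonoidAlgebra R G))
    (h1 : SuppIn (H : Set G) Ξ) (h2 : SuppIn {x | x = g} ψ') (h3 : ψ = Ξᴴ * ψ' * Ξ) :
    Fac H g ψ := by
  let e := Fintype.equivFin K
  refine ⟨Fintype.card K, Ξ.submatrix e.symm id, ψ'.submatrix e.symm e.symm, ?_, ?_, ?_⟩
  · intro i j x hx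
    exact h1 _ _ x hx
  · intro i j x hx
    exact h2 _ _ x hx
  · rw [h3, conjTranspose_submatrix, Matrix.submatrix_mul_equiv, Matrix.submatrix_mul_equiv]
    rfl

theorem zero (H : Subgroup G) (g : G) {n : ℕ} :
    Fac H g (0 : Matrix (Fin n) (Fin n) (MonoidAlgebra R G)) := by
  refine ⟨0, 0, 0, ?_, ?_, ?_⟩
  · intro i
    exact i.elim0
  · intro i
    exact i.elim0
  · rw [Matrix.mul_zero]

theorem add {H : Subgroup G} {g : G} {n : ℕ}
    {ψ1 ψ2 : Matrix (Fin n) (Fin n) (MonoidAlgebra R G)} (h1 : Fac H g ψ1) (h2 : Fac H g ψ2) :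
    Fac H g (ψ1 + ψ2) := by
  obtain ⟨r1, Ξ1, p1, a1, b1, c1⟩ := h1
  obtain ⟨r2, Ξ2, p2, a2, b2, c2⟩ := h2
  refine of_type (K := Fin r1 ⊕ Fin r2) H g _ (fromRows Ξ1 Ξ2) (fromBlocks p1 0 0 p2) ?_ ?_ ?_
  · rintro (i | i) j x hx
    · exact a1 i j x hx
    · exact a2 i j x hx
  · rintro (i | i) (j | j) x hx
    · exact b1 i j x hx
    · exact absurd rfl hx
    · exact absurd rfl hx
    · exact b2 i j x hx
  · rw [c1, c2, conjTranspose_fromRows_eq_fromCols_conjTranspose, fromCols_mul_fromBlocks,
      fromCols_mul_fromRows]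
    simp

theorem term (H : Subgroup G) (g h h' : G) (hh : h ∈ H) (hh' : h' ∈ H) {n : ℕ} (i j : Fin n)
    (r : R) : Fac H g (Matrix.single i j (MonoidAlgebra.single (h * g * h') r)) := by
  classical
  refine of_type (K := Unit ⊕ Unit) H g _
    (fromRows (Matrix.single () i (MonoidAlgebra.single h⁻¹ 1))
      (Matrix.single () j (MonoidAlgebra.single h' 1)))
    (fromBlocks 0 (Matrix.single () () (MonoidAlgebra.single g r)) 0 0) ?_ ?_ ?_
  · rintro (u | u) l x hx
    · rw [fromRows_apply_inl, Matrix.single_apply] at hx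
      split_ifs at hx with h1
      · rw [MonoidAlgebra.coeff_single, Finsupp.single_apply] at hx
        split_ifs at hx with h2
        · rw [← h2]
          exact H.inv_mem hh
        · exact absurd rfl hx
      · exact absurd rfl hx
    · rw [fromRows_apply_inr, Matrix.single_apply] at hx
      split_ifs at hx with h1
      · rw [MonoidAlgebra.coeff_single, Finsupp.single_apply] at hx
        split_ifs at hx with h2
        · rw [← h2]
          exact hh'
        · exact absurd rfl hx
      · exact absurd rfl hx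
  · rintro (u | u) (l | l) x hx
    · exact absurd rfl hx
    · rw [fromBlocks_apply₁₂, Matrix.single_apply] at hx
      split_ifs at hx with h1
      · rw [MonoidAlgebra.coeff_single, Finsupp.single_apply] at hx
        split_ifs at hx with h2
        · exact h2.symm
        · exact absurd rfl hx
      · exact absurd rfl hx
    · exact absurd rfl hx
    · exact absurd rfl hx
  · rw [conjTranspose_fromRows_eq_fromCols_conjTranspose, fromCols_mul_fromBlocks,
      fromCols_mul_fromRows]
    simp only [Matrix.mul_zero, add_zero, zero_add, Matrix.zero_mul]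
    rw [Matrix.conjTranspose_single, Matrix.single_mul_single_same,
      Matrix.single_mul_single_same, star_single, star_one, inv_inv,
      MonoidAlgebra.single_mul_single, MonoidAlgebra.single_mul_single, one_mul, mul_one]

end FACAux

open FACAux in
theorem specFAC : SpecFAC := by
  intro R G _ _ _ H g n ψ hψ
  change Fac H g ψ
  rw [Matrix.matrix_eq_sum_single ψ]
  refine Finset.sum_induction _ (Fac H g) (fun _ _ => FACAux.add) (FACAux.zero H g) ?_
  intro i _
  refine Finset.sum_induction _ (Fac H g) (fun _ _ => FACAux.add) (FACAux.zero H g) ?_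
  intro j _
  have key : ∀ x : MonoidAlgebra R G, (∀ y, x.coeff y ≠ 0 → y ∈ dc H g) →
      Fac H g (Matrix.single i j x) := by
    intro x hx
    classical
    have hs : x = ∑ y ∈ x.coeff.support, MonoidAlgebra.single y (x.coeff y) := by
      ext y
      rw [MonoidAlgebra.coeff_sum, Finsupp.finsetSum_apply]
      simp only [MonoidAlgebra.coeff_single, Finsupp.single_apply]
      rw [Finset.sum_ite_eq']
      split_ifs with h
      · rfl
      · exact Finsupp.notMem_support_iff.1 h
    rw [hs]
    have hsum : Matrix.single i j (∑ y ∈ x.coeff.support, MonoidAlgebra.single y (x.coeff y)) =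
        ∑ y ∈ x.coeff.support, Matrix.single i j (MonoidAlgebra.single y (x.coeff y)) := by
      exact map_sum (Matrix.singleAddMonoidHom i j) _ _
    rw [hsum]
    refine Finset.sum_induction _ (Fac H g) (fun _ _ => FACAux.add) (FACAux.zero H g) ?_
    intro y hy
    obtain ⟨h, hh, h', hh', rfl⟩ := hx y (Finsupp.mem_support_iff.1 hy)
    exact term H g h h' hh hh' i j _
  exact key _ (fun y hy => hψ i j y hy)

end Pool.Agent.Lib.MP8a3537.RO
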