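import Pool.Agent.Lib.MP_8a3537_gt.RO.Spec
import Pool.Agent.Lib.MP_8a3537_gt.UV.STK
import Pool.Agent.Lib.MP_8a3537_gt.UV.RES
import Pool.Agent.Lib.MP_8a3537_gt.UV.IND

/-!
# RO, module FPM: the P-move over a ring with the property (FP)
-/

namespace Pool.Agent.Lib.MP8a3537.RO

open Matrix Pool.Agent.Lib.MP8a3537.UV Pool.Agent.Lib.MP8a3537.UV.INDAux Pool.Agent.Lib.MP8a3537.AU

/-- **Module FPM**. -/
theorem specFPM : SpecFPM := by
  intro R G _ _ _ L X ε n a hFP hl hr ha hsym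
  have h0 : SuppIn (∅ : Set G) (0 : Matrix (Fin n) (Fin n) (MonoidAlgebra R G)) := by
    intro i j g hg
    exact absurd rfl hg
  obtain ⟨r, p, a', m', hPM, ha'⟩ := specStk specRES R G L X ∅ ε n a 0 hFP hr hl
    (fun h _ x hx => absurd hx (Set.notMem_empty x)) ha h0 hsym
  refine ⟨r, p, a', hPM.supp_p, hPM.supp_a', ha', hPM.eq_a, hPM.cancel, ?_⟩
  intro y hy hay
  have hm : m' = 0 := hPM.cancel _ m' hPM.eq_m.symm
  set W : Matrix (Fin n) (Fin 1) (MonoidAlgebra R G) := fun i _ => y i with hW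
  have hWs : SuppIn (L : Set G) W := fun i _ g hg => hy i g hg
  have haW : a * W = 0 := by
    ext1 i j
    exact congrFun hay i
  have hpW : p * W = 0 := by
    refine hPM.inj (L : Set G) (fun h hh y hy => L.mul_mem hh hy) ?_ ?_ (Fin 1) (p * W)
      (supp_mul hPM.supp_p hWs (fun x hx y hy => L.mul_mem hx hy)) ?_ ?_
    · intro x _ x' _ y hy y' hy' hxy
      have h1 : x⁻¹ * x' = y * y'⁻¹ := by
        have h2 : x * y * y'⁻¹ = x' := by rw [hxy, mul_inv_cancel_right]
        rw [← h2]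
        group
      rw [h1]
      exact L.mul_mem hy (L.inv_mem hy')
    · intro x hx
      exact absurd hx (Set.notMem_empty x)
    · rw [← Matrix.mul_assoc, ← hPM.eq_a, haW]
    · rw [hm, Matrix.zero_mul]
  funext i
  exact congrFun (congrFun hpW i) 0

end Pool.Agent.Lib.MP8a3537.RO
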