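import Pool.Agent.Lib.MP_8a3537_gt.RO.Spec

/-!
# MP_8a3537_gt, RO: module JNT (helper20), joint nilpotency of the letters
-/

namespace Pool.Agent.Lib.MP8a3537.RO

open Matrix Pool.Agent.Lib.MP8a3537.UV Pool.Agent.Lib.MP8a3537.AU
open Pool.Agent.Lib.MP8a3537.UO (ext)

namespace JNTAux

variable {R G : Type} [Ring R]

theorem cut_add (W : Set G) (x y : MonoidAlgebra R G) : cut W (x + y) = cut W x + cut W y := by
  ext g
  rw [cut_coeff, MonoidAlgebra.coeff_add, Finsupp.add_apply, MonoidAlgebra.coeff_add,
    Finsupp.add_apply, cut_coeff, cut_coeff]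
  split_ifs <;> simp

theorem cut_zero (W : Set G) : cut W (0 : MonoidAlgebra R G) = 0 := by
  ext g
  rw [cut_coeff]
  split_ifs <;> simp

theorem cut_sum {ι : Type*} (W : Set G) (s : Finset ι) (f : ι → MonoidAlgebra R G) :
    cut W (∑ i ∈ s, f i) = ∑ i ∈ s, cut W (f i) := by
  classical
  induction s using Finset.induction_on with
  | empty => simp [cut_zero]
  | insert i s hi ih => rw [Finset.sum_insert hi, Finset.sum_insert hi, cut_add, ih]

variable [Group G]

open Classical in
/-- coefficients of a product, with sums over larger sets -/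
theorem mul_coeff_of (u v : MonoidAlgebra R G) (A B : Finset G) (hA : u.coeff.support ⊆ A)
    (hB : v.coeff.support ⊆ B) (z : G) :
    (u * v).coeff z = ∑ x ∈ A, ∑ y ∈ B, if x * y = z then u.coeff x * v.coeff y else 0 := by
  rw [MonoidAlgebra.coeff_mul]
  unfold Finsupp.sum
  refine (Finset.sum_subset hA fun x _ hx => ?_).trans (Finset.sum_congr rfl fun x _ => ?_)
  · refine Finset.sum_eq_zero fun y _ => ?_
    show (if x * y = z then u.coeff x * v.coeff y else 0) = 0
    rw [Finsupp.notMem_support_iff.1 hx, zero_mul, ite_self]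
  · refine Finset.sum_subset hB fun y _ hy => ?_
    show (if x * y = z then u.coeff x * v.coeff y else 0) = 0
    rw [Finsupp.notMem_support_iff.1 hy, mul_zero, ite_self]

theorem supp_cut (W : Set G) (u : MonoidAlgebra R G) : (cut W u).coeff.support ⊆ u.coeff.support := by
  intro x hx
  rw [Finsupp.mem_support_iff, cut_coeff] at hx
  rw [Finsupp.mem_support_iff]
  intro h
  rw [h, ite_self] at hx
  exact hx rfl

/-- the support of a product -/
theorem supp_mul (u v : MonoidAlgebra R G) (z : G) (h : (u * v).coeff z ≠ 0) :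
    ∃ x y, u.coeff x ≠ 0 ∧ v.coeff y ≠ 0 ∧ x * y = z := by
  classical
  rw [mul_coeff_of u v _ _ (Finset.Subset.refl _) (Finset.Subset.refl _)] at h
  obtain ⟨x, hx, h⟩ := Finset.exists_ne_zero_of_sum_ne_zero h
  obtain ⟨y, hy, h⟩ := Finset.exists_ne_zero_of_sum_ne_zero h
  refine ⟨x, y, Finsupp.mem_support_iff.1 hx, Finsupp.mem_support_iff.1 hy, ?_⟩
  by_contra h2
  exact h (if_neg h2)

/-- the restriction of a product to a set which is determined by the factors -/
theorem cut_mul (c W W' : Set G) (u v : MonoidAlgebra R G) (b : Prop)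
    (h : ∀ x y, u.coeff x ≠ 0 → v.coeff y ≠ 0 → (x * y ∈ W' ↔ b ∧ x ∈ c ∧ y ∈ W)) :
    (b → cut W' (u * v) = cut c u * cut W v) ∧ (¬ b → cut W' (u * v) = 0) := by
  classical
  constructor
  · intro hb
    ext z
    rw [cut_coeff, mul_coeff_of u v _ _ (Finset.Subset.refl _) (Finset.Subset.refl _),
      mul_coeff_of (cut c u) (cut W v) _ _ (supp_cut c u) (supp_cut W v)]
    by_cases hz : z ∈ W'
    · rw [if_pos hz]
      refine Finset.sum_congr rfl fun x hx => Finset.sum_congr rfl fun y hy => ?_
      by_cases hxy : x * y = z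
      · rw [if_pos hxy, if_pos hxy]
        have h1 := (h x y (Finsupp.mem_support_iff.1 hx) (Finsupp.mem_support_iff.1 hy)).1
          (by rw [hxy]; exact hz)
        rw [cut_coeff, cut_coeff, if_pos h1.2.1, if_pos h1.2.2]
      · rw [if_neg hxy, if_neg hxy]
    · rw [if_neg hz]
      symm
      refine Finset.sum_eq_zero fun x hx => Finset.sum_eq_zero fun y hy => ?_
      by_cases hxy : x * y = z
      · rw [if_pos hxy, cut_coeff, cut_coeff]
        by_cases hxc : x ∈ c
        · by_cases hyW : y ∈ W
          · exact absurd ((h x y (Finsupp.mem_support_iff.1 hx) (Finsupp.mem_support_iff.1 hy)).2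
              ⟨hb, hxc, hyW⟩) (by rw [hxy]; exact hz)
          · rw [if_neg hyW, mul_zero]
        · rw [if_neg hxc, zero_mul]
      · rw [if_neg hxy]
  · intro hb
    ext z
    rw [cut_coeff]
    by_cases hz : z ∈ W'
    · rw [if_pos hz]
      by_contra h0
      obtain ⟨x, y, hx, hy, hxy⟩ := supp_mul u v z (by simpa using h0)
      exact hb ((h x y hx hy).1 (by rw [hxy]; exact hz)).1
    · rw [if_neg hz]
      simp

variable {n : Type} [Fintype n]

theorem cutM_apply (W : Set G) (M : Matrix n n (MonoidAlgebra R G)) (i j : n) :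
    cutM W M i j = cut W (M i j) := rfl

/-- blocks of a product -/
theorem blk_mul (N P : Matrix (n ⊕ n) (n ⊕ n) (MonoidAlgebra R G)) (s t : Bool) :
    blk (N * P) s t = blk N s true * blk P true t + blk N s false * blk P false t := by
  ext1 i j
  unfold blk
  rw [Matrix.submatrix_apply, Matrix.mul_apply, Fintype.sum_sum_type, Matrix.add_apply,
    Matrix.mul_apply, Matrix.mul_apply]
  rfl

end JNTAux

open JNTAux in
theorem specJNT (hU : SpecUNQ) : SpecJNT := by
  classical
  intro R G _ _ _ H X1 X2 X3 Yp Ym hPP ε n a μ b ha hμ hb N0 hN s t M hM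
  obtain ⟨hact, huni, hbi, h1Y⟩ := hU G H X1 X2 X3 Yp Ym hPP
  set N := nu ε a μ b with hNdef
  -- supports of the letters
  have hlet : ∀ s t i j g, (blk N s t i j).coeff g ≠ 0 → g ∈ XX X1 X2 X3 s t := by
    intro s t i j g hg
    cases s <;> cases t
    · have h1 : blk N false false i j = star (μ j i) := rfl
      rw [h1, star_coeff] at hg
      have h2 : (μ j i).coeff g⁻¹ ≠ 0 := fun h => hg (by rw [h, star_zero])
      exact hμ j i g⁻¹ h2
    · exact ha i j g hg
    · have h1 : blk N true false i j = (ε : ℤ) • b i j := rfl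
      rw [h1, MonoidAlgebra.coeff_smul, Finsupp.smul_apply] at hg
      exact hb i j g fun h => hg (by rw [h, smul_zero])
    · exact hμ i j g hg
  -- supports of the powers
  have hpow : ∀ k s t i j g, (blk (N ^ k) s t i j).coeff g ≠ 0 → g ∈ YB Yp Ym s := by
    intro k
    induction k with
    | zero =>
      intro s t i j g hg
      rw [pow_zero] at hg
      have h1 : blk (1 : Matrix (Fin n ⊕ Fin n) (Fin n ⊕ Fin n) (MonoidAlgebra R G)) s t i j =
          if sd s i = sd t j then 1 else 0 := Matrix.one_apply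
      rw [h1] at hg
      have h2 : g = 1 := by
        by_contra hg1
        apply hg
        split_ifs
        · rw [MonoidAlgebra.one_def, MonoidAlgebra.coeff_single_apply, if_neg (fun h => hg1 h.symm)]
        · simp
      rw [h2]
      exact (h1Y s).1
    | succ k ih =>
      intro s t i j g hg
      rw [pow_succ', blk_mul, Matrix.add_apply, MonoidAlgebra.coeff_add, Finsupp.add_apply] at hg
      have hterm : ∀ q, ((blk N s q * blk (N ^ k) q t) i j).coeff g ≠ 0 → g ∈ YB Yp Ym s := by
        intro q hq
        rw [Matrix.mul_apply] at hq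
        have h3 : ∃ l, ((blk N s q i l) * (blk (N ^ k) q t l j)).coeff g ≠ 0 := by
          by_contra h4
          push Not at h4
          apply hq
          have h5 : (∑ l, blk N s q i l * blk (N ^ k) q t l j).coeff g =
              ∑ l, (blk N s q i l * blk (N ^ k) q t l j).coeff g := by
            rw [MonoidAlgebra.coeff_sum, Finsupp.finset_sum_apply]
          rw [h5]
          exact Finset.sum_eq_zero fun l _ => h4 l
        obtain ⟨l, hl⟩ := h3
        obtain ⟨x, y, hx, hy, rfl⟩ := supp_mul _ _ _ hl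
        exact hact s q x y (hlet _ _ _ _ _ hx) (ih _ _ _ _ _ hy)
      by_cases h5 : ((blk N s true * blk (N ^ k) true t) i j).coeff g = 0
      · rw [h5, zero_add] at hg
        exact hterm false hg
      · exact hterm true h5
  -- the claim
  have claim : ∀ k s t (M : Matrix (Fin n) (Fin n) (MonoidAlgebra R G)), Wrd H N k s t M →
      ∃ W : Set G, (∀ h ∈ H, ∀ y ∈ W, h * y ∈ W) ∧ M = cutM W (blk (N ^ k) s t) := by
    intro k s t M hM
    induction hM with
    | @one s t c hc =>
      exact ⟨c, hc.1, by rw [pow_one]⟩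
    | @cons k s r t c P hc _ ih =>
      obtain ⟨W, hW, rfl⟩ := ih
      refine ⟨{z | ∃ x ∈ c, ∃ y ∈ W, x ∈ XX X1 X2 X3 s r ∧ y ∈ YB Yp Ym r ∧ z = x * y}, ?_, ?_⟩
      · rintro h hh z ⟨x, hx, y, hy, hxX, hyY, rfl⟩
        exact ⟨h * x, hc.1 h hh x hx, y, hy, (hbi s r).1 h hh x hxX, hyY, (mul_assoc _ _ _).symm⟩
      · -- the restriction of the products
        have key : ∀ q i l j, (q = r → cut {z | ∃ x ∈ c, ∃ y ∈ W, x ∈ XX X1 X2 X3 s r ∧
            y ∈ YB Yp Ym r ∧ z = x * y} (blk N s q i l * blk (N ^ k) q t l j) =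
              cut c (blk N s q i l) * cut W (blk (N ^ k) q t l j)) ∧
            (¬ q = r → cut {z | ∃ x ∈ c, ∃ y ∈ W, x ∈ XX X1 X2 X3 s r ∧
            y ∈ YB Yp Ym r ∧ z = x * y} (blk N s q i l * blk (N ^ k) q t l j) = 0) := by
          intro q i l j
          refine cut_mul c W _ _ _ (q = r) fun x y hx hy => ?_
          have hxX := hlet _ _ _ _ _ hx
          have hyY := hpow _ _ _ _ _ _ hy
          constructor
          · rintro ⟨x', hx', y', hy', hx'X, hy'Y, he⟩
            obtain ⟨hqr, hH⟩ := huni s q r x y x' y' hxX hyY hx'X hy'Y he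
            refine ⟨hqr, ?_, ?_⟩
            · have h1 := hc.2 _ (H.inv_mem hH) x' hx'
              have h2 : x' * (x⁻¹ * x')⁻¹ = x := by group
              rwa [h2] at h1
            · have h1 := hW _ hH y' hy'
              have h2 : x⁻¹ * x' * y' = y := by
                rw [mul_assoc, ← he]; group
              rwa [h2] at h1
          · rintro ⟨rfl, h1, h2⟩
            exact ⟨x, h1, y, h2, hxX, hyY, rfl⟩
        ext1 i j
        rw [Matrix.mul_apply, cutM_apply, pow_succ', blk_mul, Matrix.add_apply, cut_add,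
          Matrix.mul_apply, Matrix.mul_apply, cut_sum, cut_sum]
        cases r
        · have h0 : ∑ l, cut {z | ∃ x ∈ c, ∃ y ∈ W, x ∈ XX X1 X2 X3 s false ∧
              y ∈ YB Yp Ym false ∧ z = x * y} (blk N s true i l * blk (N ^ k) true t l j) = 0 :=
            Finset.sum_eq_zero fun l _ => (key true i l j).2 (by simp)
          rw [h0, zero_add]
          exact Finset.sum_congr rfl fun l _ => ((key false i l j).1 rfl).symm
        · have h0 : ∑ l, cut {z | ∃ x ∈ c, ∃ y ∈ W, x ∈ XX X1 X2 X3 s true ∧
              y ∈ YB Yp Ym true ∧ z = x * y} (blk N s false i l * blk (N ^ k) false t l j) = 0 :=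
            Finset.sum_eq_zero fun l _ => (key false i l j).2 (by simp)
          rw [h0, add_zero]
          exact Finset.sum_congr rfl fun l _ => ((key true i l j).1 rfl).symm
  unfold EE at hM
  induction hM using AddSubgroup.closure_induction with
  | mem M hM =>
    obtain ⟨j, hj, hw⟩ := hM
    obtain ⟨W, _, rfl⟩ := claim j s t M hw
    have h0 : N ^ j = 0 := pow_eq_zero_of_le hj hN
    rw [h0]
    ext1 i l
    rw [cutM_apply]
    exact cut_zero W
  | zero => rfl
  | add x y _ _ hx hy => rw [hx, hy, add_zero]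
  | neg x _ hx => rw [hx, neg_zero]

end Pool.Agent.Lib.MP8a3537.RO
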