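import Pool.Agent.Lib.MP_8a3537_gt.RO.Spec

/-!
# RO, module KNA: nilpotency
-/

namespace Pool.Agent.Lib.MP8a3537.RO

open Matrix Pool.Agent.Lib.MP8a3537.UV Pool.Agent.Lib.MP8a3537.AU

namespace KNAAux

variable {A : Type} [Ring A]

theorem blk_mul {n : ℕ} (M M' : Matrix (Fin n ⊕ Fin n) (Fin n ⊕ Fin n) A) (s t : Bool) :
    blk (M * M') s t = blk M s true * blk M' true t + blk M s false * blk M' false t := by
  ext i j
  simp only [blk, Matrix.submatrix_apply, Matrix.mul_apply, Fintype.sum_sum_type, Matrix.add_apply,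
    sd]

theorem blk_one_tf {n : ℕ} :
    blk (1 : Matrix (Fin n ⊕ Fin n) (Fin n ⊕ Fin n) A) true false = 0 := by
  ext i j
  simp [blk, sd, Matrix.one_apply]

theorem blk_neg {n : ℕ} (M : Matrix (Fin n ⊕ Fin n) (Fin n ⊕ Fin n) A) (s t : Bool) :
    blk (-M) s t = -blk M s t := rfl

theorem blk_sum {n : ℕ} (N : Finset ℕ) (M : ℕ → Matrix (Fin n ⊕ Fin n) (Fin n ⊕ Fin n) A)
    (s t : Bool) : blk (∑ i ∈ N, M i) s t = ∑ i ∈ N, blk (M i) s t := by
  ext i j
  simp only [blk, Matrix.submatrix_apply, Matrix.sum_apply]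

theorem blk_ext {n : ℕ} (M : Matrix (Fin n ⊕ Fin n) (Fin n ⊕ Fin n) A)
    (h : ∀ s t, blk M s t = 0) : M = 0 := by
  ext i j
  rcases i with i | i <;> rcases j with j | j
  · exact congrFun (congrFun (h true true) i) j
  · exact congrFun (congrFun (h true false) i) j
  · exact congrFun (congrFun (h false true) i) j
  · exact congrFun (congrFun (h false false) i) j

variable [StarRing A] {n : ℕ}
  {E : ℕ → Bool → Bool → AddSubgroup (Matrix (Fin n) (Fin n) A)} {N : ℕ}

theorem blk_pow (hE : EFam E N) (M : Matrix (Fin n ⊕ Fin n) (Fin n ⊕ Fin n) A)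
    (hM : ∀ s t, blk M s t ∈ E 1 s t) (i : ℕ) : ∀ s t, blk (M ^ (i + 1)) s t ∈ E (i + 1) s t := by
  induction i with
  | zero =>
    intro s t
    rw [zero_add, pow_one]
    exact hM s t
  | succ i ih =>
    intro s t
    rw [pow_succ', blk_mul]
    have e : i + 1 + 1 = 1 + (i + 1) := by omega
    rw [e]
    exact (E _ s t).add_mem (hE.mul _ _ _ _ _ _ _ (hM s true) (ih true t))
      (hE.mul _ _ _ _ _ _ _ (hM s false) (ih false t))

theorem blk_nu (hE : EFam E N) (ε : ℤˣ) (a0 μ b : Matrix (Fin n) (Fin n) A)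
    (ha : a0 ∈ E 1 false true) (hμ : μ ∈ E 1 true true) (hb : b ∈ E 1 true false) :
    ∀ s t, blk (nu ε a0 μ b) s t ∈ E 1 s t := by
  intro s t
  cases s <;> cases t
  · have e : blk (nu ε a0 μ b) false false = μᴴ := rfl
    rw [e]
    exact hE.star 1 true true μ hμ
  · exact ha
  · have e : blk (nu ε a0 μ b) true false = (ε : ℤ) • b := rfl
    rw [e]
    exact (E 1 true false).zsmul_mem hb _
  · exact hμ

theorem mem_pow (hE : EFam E N) (V ac : Matrix (Fin n) (Fin n) A) (hV : V ∈ E 1 true false)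
    (hac : ac ∈ E 1 false true) (l : ℕ) : (V * ac) ^ l * V ∈ E (2 * l + 1) true false := by
  induction l with
  | zero =>
    rw [pow_zero, one_mul]
    exact hV
  | succ l ih =>
    have e : 2 * (l + 1) + 1 = (1 + 1) + (2 * l + 1) := by omega
    rw [e, pow_succ', Matrix.mul_assoc]
    exact hE.mul _ _ _ _ _ _ _ (hE.mul _ _ _ _ _ _ _ hV hac) ih

theorem pow_eq {r : ℕ} (Ξ : Matrix (Fin r) (Fin n) A) (α θ : Matrix (Fin r) (Fin r) A)
    (V ac : Matrix (Fin n) (Fin n) A) (h1 : Ξᴴ * α * Ξ = ac) (h2 : θ = -(Ξ * V * Ξᴴ)) (l : ℕ) :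
    (θ * α) ^ l * θ = (-1 : ℤ) ^ (l + 1) • (Ξ * ((V * ac) ^ l * V) * Ξᴴ) := by
  induction l with
  | zero =>
    rw [pow_zero, one_mul, pow_zero, one_mul, h2, zero_add, pow_one, neg_smul, one_smul]
  | succ l ih =>
    have e1 : (θ * α) ^ (l + 1) * θ = θ * α * ((θ * α) ^ l * θ) := by
      rw [pow_succ', Matrix.mul_assoc]
    have e2 : (V * ac) ^ (l + 1) * V = V * ac * ((V * ac) ^ l * V) := by
      rw [pow_succ', Matrix.mul_assoc]
    rw [e1, ih, e2, pow_succ (-1 : ℤ) (l + 1), mul_comm, mul_smul, ← Matrix.mul_smul]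
    rw [h2, ← h1]
    simp only [Matrix.neg_mul, Matrix.mul_assoc, Matrix.mul_smul, neg_smul, one_smul, smul_neg]

end KNAAux

open KNAAux in
theorem specKNA : SpecKNA := by
  intro A _ _ ε n r N E hE hN a0 ac μ b ha hac hμ hb
  have hnu := blk_nu hE ε a0 μ b ha hμ hb
  refine ⟨?_, ?_⟩
  · refine blk_ext _ fun s t => ?_
    have h := blk_pow hE _ hnu (N - 1) s t
    rw [Nat.sub_add_cancel hN] at h
    exact hE.zero s t _ h
  · intro Ξ α θ h1 h2
    have hneg : ∀ s t, blk (-(nu ε a0 μ b)) s t ∈ E 1 s t := fun s t => by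
      rw [blk_neg]
      exact (E 1 s t).neg_mem (hnu s t)
    have hW : blk (W0 N (nu ε a0 μ b)) true false ∈ E 1 true false := by
      unfold W0
      rw [blk_sum]
      refine (E 1 true false).sum_mem fun i _ => ?_
      rcases i with _ | i
      · rw [pow_zero, blk_one_tf]
        exact (E 1 true false).zero_mem
      · exact hE.mono 1 (i + 1) true false (by omega) (blk_pow hE _ hneg i true false)
    have hV : (blk (W0 N (nu ε a0 μ b)) true false)ᴴ ∈ E 1 true false :=
      hE.star 1 true false _ hW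
    have h0 : (θ * α) ^ N * θ = 0 := by
      rw [pow_eq Ξ α θ _ ac h1 h2 N]
      have h := hE.mono N (2 * N + 1) true false (by omega) (mem_pow hE _ ac hV hac N)
      rw [hE.zero _ _ _ h, Matrix.mul_zero, Matrix.zero_mul, smul_zero]
    have h3 : (θ * α) ^ (N + 1) = 0 := by
      rw [pow_succ, ← Matrix.mul_assoc, h0, Matrix.zero_mul]
    have h4 : ∀ l : ℕ, (α * θ) ^ (l + 1) = α * ((θ * α) ^ l * θ) := by
      intro l
      induction l with
      | zero => simp
      | succ l ih =>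
        rw [pow_succ', ih, pow_succ' (θ * α) l]
        simp only [Matrix.mul_assoc]
    have h5 : (α * θ) ^ (N + 1) = 0 := by
      rw [h4, h0, Matrix.mul_zero]
    refine ⟨2 * (N + 1), ?_⟩
    rw [pow_mul]
    have hsq : (nu ε α 0 θ) ^ 2 =
        fromBlocks ((ε : ℤ) • (θ * α)) 0 0 ((ε : ℤ) • (α * θ)) := by
      rw [sq]
      unfold nu
      rw [fromBlocks_multiply]
      simp only [Matrix.zero_mul, Matrix.mul_zero, zero_add, add_zero, conjTranspose_zero,
        Matrix.smul_mul, Matrix.mul_smul, smul_zero]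
    rw [hsq, fromBlocks_diagonal_pow, smul_pow, smul_pow, h3, h5, smul_zero]
    exact fromBlocks_zero

end Pool.Agent.Lib.MP8a3537.RO
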