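import Pool.Agent.Lib.MP_8a3537_gt.RO.Spec
import Pool.Agent.Lib.MP_8a3537_gt.UV.IND
import Pool.Agent.Lib.MP_8a3537_gt.UV.NIL

/-!
# RO, module KSP (helper54): the supports of `κ`
-/

namespace Pool.Agent.Lib.MP8a3537.RO

open Matrix Pool.Agent.Lib.MP8a3537.UV Pool.Agent.Lib.MP8a3537.AU

namespace KSPAux

section

variable {R G : Type} [Ring R]

theorem supp_zero {m n : Type} (X : Set G) : SuppIn X (0 : Matrix m n (MonoidAlgebra R G)) := by
  intro i j g hg
  exact absurd (by simp) hg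

theorem blk_mul [Group G] {n : Type} [Fintype n]
    (M M' : Matrix (n ⊕ n) (n ⊕ n) (MonoidAlgebra R G)) (s t : Bool) :
    blk (M * M') s t = blk M s true * blk M' true t + blk M s false * blk M' false t := by
  ext1 i j
  simp only [blk, Matrix.submatrix_apply, Matrix.mul_apply, Matrix.add_apply,
    Fintype.sum_sum_type, sd]

/-- all blocks are supported in the sets `S s t`. -/
def Pr {n : Type} (S : Bool → Bool → Set G) (M : Matrix (n ⊕ n) (n ⊕ n) (MonoidAlgebra R G)) :
    Prop := ∀ s t, SuppIn (S s t) (blk M s t)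

variable [Group G] {n : Type} [Fintype n] [DecidableEq n] {S : Bool → Bool → Set G}

omit [Fintype n] [DecidableEq n] in
theorem pr_zero : Pr S (0 : Matrix (n ⊕ n) (n ⊕ n) (MonoidAlgebra R G)) := by
  intro s t
  have : blk (0 : Matrix (n ⊕ n) (n ⊕ n) (MonoidAlgebra R G)) s t = 0 := rfl
  rw [this]
  exact supp_zero _

omit [Fintype n] [DecidableEq n] in
theorem pr_add {M M' : Matrix (n ⊕ n) (n ⊕ n) (MonoidAlgebra R G)} (h : Pr S M) (h' : Pr S M') :
    Pr S (M + M') := fun s t => INDAux.supp_add (h s t) (h' s t)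

omit [Fintype n] [DecidableEq n] in
theorem pr_neg {M : Matrix (n ⊕ n) (n ⊕ n) (MonoidAlgebra R G)} (h : Pr S M) :
    Pr S (-M) := fun s t => INDAux.supp_neg (h s t)

omit [DecidableEq n] in
theorem pr_mul (hS : ∀ s r t, ∀ x ∈ S s r, ∀ y ∈ S r t, x * y ∈ S s t)
    {M M' : Matrix (n ⊕ n) (n ⊕ n) (MonoidAlgebra R G)} (h : Pr S M) (h' : Pr S M') :
    Pr S (M * M') := by
  intro s t
  rw [blk_mul]
  exact INDAux.supp_add (INDAux.supp_mul (h s true) (h' true t) (hS s true t))
    (INDAux.supp_mul (h s false) (h' false t) (hS s false t))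

omit [Fintype n] in
theorem pr_one (hS : ∀ s, (1 : G) ∈ S s s) :
    Pr S (1 : Matrix (n ⊕ n) (n ⊕ n) (MonoidAlgebra R G)) := by
  intro s t i j g hg
  simp only [blk, Matrix.submatrix_apply, Matrix.one_apply] at hg
  split_ifs at hg with h
  · have hst : s = t := by
      cases s <;> cases t <;> simp_all [sd]
    subst hst
    have hg1 : g = 1 := by
      by_contra hc
      exact hg (NILAux.coeff_one_ne g hc)
    rw [hg1]
    exact hS s
  · exact absurd (by simp) hg

theorem pr_pow (h1 : ∀ s, (1 : G) ∈ S s s) (hS : ∀ s r t, ∀ x ∈ S s r, ∀ y ∈ S r t, x * y ∈ S s t)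
    {M : Matrix (n ⊕ n) (n ⊕ n) (MonoidAlgebra R G)} (h : Pr S M) (k : ℕ) : Pr S (M ^ k) := by
  induction k with
  | zero => rw [pow_zero]; exact pr_one h1
  | succ k ih => rw [pow_succ]; exact pr_mul hS ih h

theorem pr_W0 [StarRing R] {n : ℕ} (h1 : ∀ s, (1 : G) ∈ S s s)
    (hS : ∀ s r t, ∀ x ∈ S s r, ∀ y ∈ S r t, x * y ∈ S s t)
    {M : Matrix (Fin n ⊕ Fin n) (Fin n ⊕ Fin n) (MonoidAlgebra R G)} (h : Pr S M) (N : ℕ) :
    Pr S (W0 N M) := by
  unfold W0
  exact Finset.sum_induction _ (Pr S) (fun _ _ => pr_add) pr_zero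
    (fun i _ => pr_pow h1 hS (pr_neg h) i)

end

end KSPAux

open KSPAux in
/-- **KSP**. -/
theorem specKSP (hWDA : SpecWDA) : SpecKSP := by
  intro R G _ _ _ H X1 X2 X3 Yp Ym X1' hSub ε n r N ψ μ χ Ξ hψ hμ hχ hΞ
  obtain ⟨-, hmul, hinv, -, hlet⟩ := hWDA G H X1 X2 X3 Yp Ym X1' hSub
  set S : Bool → Bool → Set G := fun s t => WS H X1' X2 X3 s t with hSdef
  have Smul : ∀ s r t, ∀ x ∈ S s r, ∀ y ∈ S r t, x * y ∈ S s t := by
    rintro s r t x ⟨k, hk⟩ y ⟨l, hl⟩
    exact ⟨k + l, hmul k l s r t x y hk hl⟩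
  have SH : ∀ s, ∀ x ∈ (H : Set G), x ∈ S s s := fun s x hx => ⟨0, Wd.base hx⟩
  have S1 : ∀ s, (1 : G) ∈ S s s := fun s => SH s 1 H.one_mem
  have Slet : ∀ s t, ∀ x ∈ XX X1' X2 X3 s t, x ∈ S s t := fun s t x hx =>
    ⟨1, (hlet s t x hx).1⟩
  have Sinv : ∀ s t, ∀ x ∈ S s t, x⁻¹ ∈ S (!t) (!s) := by
    rintro s t x ⟨k, hk⟩
    exact ⟨k, hinv k s t x hk⟩
  -- the letters
  have hψS : SuppIn (S false true) ψ := NILAux.supp_mono hψ (Slet false true)
  have hχS : SuppIn (S true false) χ := NILAux.supp_mono hχ (Slet true false)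
  have hμS : SuppIn (S true true) μ := NILAux.supp_mono hμ (Slet true true)
  have hμS' : SuppIn (S false false) μᴴ := INDAux.supp_star hμS (Sinv true true)
  have ha : SuppIn (S false true) (ψ + (ε : ℤ) • ψᴴ) :=
    INDAux.supp_add hψS (INDAux.supp_units ε (INDAux.supp_star hψS (Sinv false true)))
  have hb : SuppIn (S true false) (χ + (ε : ℤ) • χᴴ) :=
    INDAux.supp_add hχS (INDAux.supp_units ε (INDAux.supp_star hχS (Sinv true false)))
  have hν : Pr S (nu ε (ψ + (ε : ℤ) • ψᴴ) μ (χ + (ε : ℤ) • χᴴ)) := by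
    intro s t
    cases s <;> cases t
    · exact hμS'
    · exact ha
    · exact INDAux.supp_units ε hb
    · exact hμS
  have hw := pr_W0 S1 Smul hν N
  set w := W0 N (nu ε (ψ + (ε : ℤ) • ψᴴ) μ (χ + (ε : ℤ) • χᴴ)) with hwdef
  have hΞS : SuppIn (S false false) Ξᴴ :=
    INDAux.supp_star hΞ fun x hx => SH false _ (H.inv_mem hx)
  have hz1 : SuppIn (S true false) (blk w true false * Ξᴴ) :=
    INDAux.supp_mul (hw true false) hΞS (Smul true false false)
  have hz2 : SuppIn (S false false) (blk w false false * Ξᴴ) :=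
    INDAux.supp_mul (hw false false) hΞS (Smul false false false)
  have hz1' : SuppIn (S true false) (blk w true false * Ξᴴ)ᴴ :=
    INDAux.supp_star hz1 (Sinv true false)
  have hz2' : SuppIn (S true true) (blk w false false * Ξᴴ)ᴴ :=
    INDAux.supp_star hz2 (Sinv false false)
  have hone : SuppIn (S false false) (1 : Matrix (Fin n) (Fin n) (MonoidAlgebra R G)) := by
    intro i j g hg
    rw [Matrix.one_apply] at hg
    split_ifs at hg with h
    · have hg1 : g = 1 := by
        by_contra hc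
        exact hg (NILAux.coeff_one_ne g hc)
      rw [hg1]
      exact S1 false
    · exact absurd (by simp) hg
  unfold kap
  refine INDAux.supp_neg (INDAux.supp_add (INDAux.supp_add ?_ ?_) ?_)
  · exact INDAux.supp_mul (INDAux.supp_mul hz1' hψS (Smul true false true)) hz1
      (Smul true true false)
  · exact INDAux.supp_mul (INDAux.supp_mul hz1' (INDAux.supp_add hone hμS')
      (Smul true false false)) hz2 (Smul true false false)
  · exact INDAux.supp_mul (INDAux.supp_mul hz2' hχS (Smul true true false)) hz2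
      (Smul true false false)

end Pool.Agent.Lib.MP8a3537.RO
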