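import Pool.Agent.Lib.MP_8a3537_gt.RO.Spec
import Pool.Agent.Lib.MP_8a3537_gt.AU.LVL
import Pool.Agent.Lib.MP_8a3537_gt.AU.FLT

/-!
# RO, module LVB (helper12): one level
-/

namespace Pool.Agent.Lib.MP8a3537.RO

open Matrix Pool.Agent.Lib.MP8a3537.UV Pool.Agent.Lib.MP8a3537.AU
open Pool.Agent.Lib.MP8a3537.UO (ext)
open Pool.Agent.Lib.MP8a3537.AU.LVLAux

namespace LVBM

section Gen

variable {R G : Type} [Ring R] [Group G] {H : Subgroup G}

theorem exv_mulVec {m n : Type} [Fintype n] (M : Matrix m n (MonoidAlgebra R H)) (x : n → MonoidAlgebra R H) :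
    exv (G := G) (M *ᵥ x) = ext M *ᵥ exv x := by
  funext i
  change MonoidAlgebra.mapDomainRingHom R H.subtype (∑ j, M i j * x j) =
    ∑ j, MonoidAlgebra.mapDomainRingHom R H.subtype (M i j) * MonoidAlgebra.mapDomainRingHom R H.subtype (x j)
  rw [map_sum]
  exact Finset.sum_congr rfl fun j _ => map_mul _ _ _

theorem exv_ne {n : Type} {x : n → MonoidAlgebra R H} {i : n} (h : exv (G := G) x i ≠ 0) : x i ≠ 0 := by
  intro h0
  apply h
  change MonoidAlgebra.mapDomainRingHom R H.subtype (x i) = 0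
  rw [h0, map_zero]

theorem mulVec_ne {S m n : Type} [Ring S] [Fintype n] {M : Matrix m n S} {x : n → S} {i : m}
    (h : (M *ᵥ x) i ≠ 0) : ∃ j, M i j ≠ 0 ∧ x j ≠ 0 := by
  by_contra hc
  push Not at hc
  apply h
  refine Finset.sum_eq_zero fun j _ => ?_
  by_cases hj : M i j = 0
  · change M i j * x j = 0
    rw [hj, zero_mul]
  · change M i j * x j = 0
    rw [hc j hj, mul_zero]

end Gen

section Star

variable {R G : Type} [Ring R] [StarRing R] [Group G] {L : Subgroup G}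

theorem nil_ba {n : Type} [Fintype n] [DecidableEq n] (ε : ℤˣ) (a b : Matrix n n (MonoidAlgebra R G))
    (h : IsNilpotent (nu ε a 0 b)) : ∃ l : ℕ, (b * a) ^ l = 0 := by
  obtain ⟨l, hl⟩ := h
  refine ⟨l, ?_⟩
  have h2 : nu ε a 0 b * nu ε a 0 b = fromBlocks ((ε : ℤ) • (b * a)) 0 0 ((ε : ℤ) • (a * b)) := by
    unfold nu
    rw [fromBlocks_multiply]
    simp only [Matrix.mul_zero, Matrix.zero_mul, Matrix.conjTranspose_zero, add_zero, zero_add,
      Matrix.smul_mul, Matrix.mul_smul, smul_zero]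
  have h3 : (nu ε a 0 b * nu ε a 0 b) ^ l = 0 := by
    rw [← sq, ← pow_mul, mul_comm, pow_mul, hl, sq, zero_mul]
  rw [h2, fromBlocks_diagonal_pow] at h3
  have h4 : ((ε : ℤ) • (b * a)) ^ l = 0 := by
    have := congrArg Matrix.toBlocks₁₁ h3
    rw [toBlocks_fromBlocks₁₁] at this
    exact this
  rcases Int.units_eq_one_or ε with h | h
  · simpa [h] using h4
  · rw [h] at h4
    have h5 : ((-1 : ℤˣ) : ℤ) • (b * a) = -(b * a) := by simp
    rw [h5, neg_pow] at h4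
    have h6 : ((-1 : Matrix n n (MonoidAlgebra R G)) ^ l) * ((-1) ^ l * (b * a) ^ l) = 0 := by rw [h4, mul_zero]
    rwa [← mul_assoc, ← pow_add, ← two_mul, pow_mul, neg_one_sq, one_pow, one_mul] at h6

theorem base (hSUB : SpecSUB) {g : G} {Xa Xb Y : Set G} (hL : Loc L g Xa Xb Y) (ε : ℤˣ)
    (hA : AuslanderRegular (MonoidAlgebra R L)) (C : FC (MonoidAlgebra R L))
    (a b : Matrix C.I C.I (MonoidAlgebra R G)) (k : ℕ) (hNF : NF L Xa Xb ∅ ε C a 0 b) (hB : C.ExBelow k)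
    (hB' : C.dual.ExBelow k) (hP : PL C a b k 0) :
    ∃ (C' : FC (MonoidAlgebra R L)) (a' b' : Matrix C'.I C'.I (MonoidAlgebra R G)),
      NF L Xa Xb ∅ ε C' a' 0 b' ∧ C'.ExBelow (k + 1 : ℕ) ∧ C'.dual.ExBelow (k + 1 : ℕ) ∧
      (Good Xa Xb ε C' a' 0 b' → Good Xa Xb ε C a 0 b) := by
  have hk : ∀ x ∈ C.Cy k, ∃ y, x = C.d *ᵥ y := by
    intro x hx
    obtain ⟨u, hu⟩ := hP x hx
    rw [pow_zero, one_mulVec] at hu
    exact down C.d x u (fun i => by rw [hu])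
  have hE : C.ExBelow (k + 1) := step_ex C k hB hk
  obtain ⟨C1, a1, b1, q, hS⟩ := hSUB R G L Xa Xb ε hA hL.bl hL.br hL.bi hL.bn C a b k hNF hB hB'
  refine ⟨C1, a1, b1, hS.nf, ?_, ?_, hS.good⟩
  · rw [Nat.cast_add, Nat.cast_one]
    refine step_ex C1 k hS.lv ?_
    intro x hx
    have hqx : q *ᵥ x ∈ C.Cy k := by
      constructor
      · intro i hi
        obtain ⟨j, h1, h2⟩ := mulVec_ne hi
        rw [hS.gq i j h1, hx.1 j h2]
      · rw [mulVec_mulVec, hS.ch, ← mulVec_mulVec, hx.2, mulVec_zero]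
    obtain ⟨u', hu'⟩ := hk _ hqx
    obtain ⟨u, hu⟩ := hS.inj (exv x) (fun i hi => hx.1 i (exv_ne hi))
      (by rw [← exv_mulVec, hx.2, exv_zero])
      ⟨exv u', by rw [← exv_mulVec, hu', exv_mulVec]⟩
    exact down C1.d x u (fun i => by rw [hu])
  · rw [Nat.cast_add, Nat.cast_one]
    refine step_ex C1.dual k hS.lv' ?_
    intro y' hy'
    obtain ⟨y, hy, rfl⟩ := hS.top y' hy'
    have hw : ∃ u, b *ᵥ exv y = ext C.d *ᵥ u := by
      have hex := specFLT R G L Set.univ C (k + 1) (fun _ _ _ _ => Set.mem_univ _) hE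
      have g1 : ∀ i, (b *ᵥ exv y) i ≠ 0 → C.deg i < k + 1 := by
        intro i hi
        obtain ⟨j, h1, h2⟩ := mulVec_ne hi
        have h3 := hNF.gb i j h1
        have h4 : - C.deg j = k := hy.1 j (exv_ne h2)
        omega
      have g2 : ext C.d *ᵥ (b *ᵥ exv y) = 0 := by
        have h5 : C.dᴴ *ᵥ y = 0 := hy.2
        rw [mulVec_mulVec, ← hNF.cb, ← mulVec_mulVec, ext_star, ← exv_mulVec, h5, exv_zero, mulVec_zero]
      obtain ⟨u, -, hu⟩ := hex (b *ᵥ exv y) (fun _ _ _ => Set.mem_univ _) g1 g2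
      exact ⟨u, hu⟩
    exact hS.kill y hy hw

theorem main (hSTB : SpecSTB) (hSTA : SpecSTA) (hSUB : SpecSUB) {g : G} {Xa Xb Y : Set G}
    (hL : Loc L g Xa Xb Y) (ε : ℤˣ) (hA : AuslanderRegular (MonoidAlgebra R L)) (k l : ℕ) :
    ∀ (C : FC (MonoidAlgebra R L)) (a b : Matrix C.I C.I (MonoidAlgebra R G)),
    NF L Xa Xb ∅ ε C a 0 b → C.ExBelow k → C.dual.ExBelow k → PL C a b k l →
    ∃ (C' : FC (MonoidAlgebra R L)) (a' b' : Matrix C'.I C'.I (MonoidAlgebra R G)),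
      NF L Xa Xb ∅ ε C' a' 0 b' ∧ C'.ExBelow (k + 1 : ℕ) ∧ C'.dual.ExBelow (k + 1 : ℕ) ∧
      (Good Xa Xb ε C' a' 0 b' → Good Xa Xb ε C a 0 b) := by
  induction l with
  | zero =>
    intro C a b hNF hB hB' hP
    exact base hSUB hL ε hA C a b k hNF hB hB' hP
  | succ l ih =>
    intro C a b hNF hB hB' hP
    obtain ⟨C1, a1, b1, hN1, hE1, hE1', -, hQ1, hG1⟩ :=
      hSTB R G L g Xa Xb Y hL ε hA C a b k l hNF hB hB' hP
    obtain ⟨C2, a2, b2, hN2, hE2, hE2', hP2, hG2⟩ :=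
      hSTA R G L g Xa Xb Y hL ε hA C1 a1 b1 k l hN1 hE1 hE1' hQ1
    obtain ⟨C3, a3, b3, hN3, hE3, hE3', hG3⟩ := ih C2 a2 b2 hN2 hE2 hE2' hP2
    exact ⟨C3, a3, b3, hN3, hE3, hE3', fun h => hG1 (hG2 (hG3 h))⟩

end Star

end LVBM

theorem specLVB (hSTB : SpecSTB) (hSTA : SpecSTA) (hSUB : SpecSUB) : SpecLVB := by
  intro R G _ _ _ L g Xa Xb Y hL ε hA C a b k hNF hB hB'
  obtain ⟨l, hl⟩ := LVBM.nil_ba ε a b hNF.nil
  refine LVBM.main hSTB hSTA hSUB hL ε hA k l C a b hNF hB hB' ?_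
  intro x _
  exact ⟨0, by rw [hl, zero_mulVec, mulVec_zero]⟩

end Pool.Agent.Lib.MP8a3537.RO
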