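import Pool.Agent.Lib.MP_8a3537_gt.RO.Spec
import Pool.Agent.Lib.MP_8a3537_gt.UV.IND
import Pool.Agent.Lib.MP_8a3537_gt.UV.STK
import Pool.Agent.Lib.MP_8a3537_gt.UV.RES
import Pool.Agent.Lib.MP_8a3537_gt.UV.TAT
import Pool.Agent.Lib.MP_8a3537_gt.UV.EMV
import Pool.Agent.Lib.MP_8a3537_gt.UV.SWP

/-!
# RO, module SBF: the single block over a ring `S = R[L]` with the property (FP)

The form `(ψ, 1; 0, χ)` with `ψ` supported in `g L` and `χ` supported in `Xb`, and
`(χ + ε χ^*) (ψ + ε ψ^*)` nilpotent, is stably hyperbolic.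
-/

namespace Pool.Agent.Lib.MP8a3537.RO

open Matrix Pool.Agent.Lib.MP8a3537.UV Pool.Agent.Lib.MP8a3537.UV.INDAux Pool.Agent.Lib.MP8a3537.AU

namespace SBFAux

/-- The coset `g L`. -/
def cosetL {G : Type} [Group G] (L : Subgroup G) (g : G) : Set G := {x | g⁻¹ * x ∈ L}

/-- The data of a single block: `Xa = g L = L g`, `g² ∈ L`. -/
structure SB {G : Type} [Group G] (L : Subgroup G) (g : G) (Xb Y : Set G) : Prop where
  nl : ∀ l ∈ L, g⁻¹ * l * g ∈ L
  nr : ∀ l ∈ L, g * l * g⁻¹ ∈ L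
  sq : g * g ∈ L
  an : ∀ x ∈ cosetL L g, x⁻¹ ≠ x
  bl : ∀ h ∈ L, ∀ x ∈ Xb, h * x ∈ Xb
  br : ∀ h ∈ L, ∀ x ∈ Xb, x * h ∈ Xb
  bi : ∀ x ∈ Xb, x⁻¹ ∈ Xb
  bn : ∀ x ∈ Xb, x⁻¹ ≠ x
  y1 : (1 : G) ∈ Y
  yl : ∀ h ∈ L, ∀ y ∈ Y, h * y ∈ Y
  ab : ∀ z ∈ Xb, ∀ x ∈ cosetL L g, ∀ y ∈ Y, z * (x * y) ∈ Y
  un : ∀ z ∈ Xb, ∀ z' ∈ Xb, ∀ x ∈ cosetL L g, ∀ x' ∈ cosetL L g, ∀ t ∈ Y, ∀ t' ∈ Y,
    z * (x * t) = z' * (x' * t') → t' * t⁻¹ ∈ L

section Coset

variable {G : Type} [Group G] {L : Subgroup G} {g : G} {Xb Y : Set G}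

theorem al (P : SB L g Xb Y) : ∀ h ∈ L, ∀ x ∈ cosetL L g, h * x ∈ cosetL L g := by
  intro h hh x hx
  have h1 := L.mul_mem (P.nl h hh) hx
  have h2 : g⁻¹ * h * g * (g⁻¹ * x) = g⁻¹ * (h * x) := by group
  rwa [h2] at h1

theorem ar : ∀ h ∈ L, ∀ x ∈ cosetL L g, x * h ∈ cosetL L g := by
  intro h hh x hx
  change g⁻¹ * (x * h) ∈ L
  rw [← mul_assoc]
  exact L.mul_mem hx hh

theorem ai (P : SB L g Xb Y) : ∀ x ∈ cosetL L g, x⁻¹ ∈ cosetL L g := by
  intro x hx
  change g⁻¹ * x⁻¹ ∈ L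
  have h1 := P.nr _ hx
  have h2 := L.mul_mem h1 P.sq
  have h3 : g * (g⁻¹ * x) * g⁻¹ * (g * g) = x * g := by group
  rw [h3] at h2
  have h4 := L.inv_mem h2
  rwa [_root_.mul_inv_rev] at h4

theorem amem (x : G) : x ∈ cosetL L g ↔ ∃ l ∈ L, x = g * l := by
  constructor
  · intro hx
    exact ⟨g⁻¹ * x, hx, by group⟩
  · rintro ⟨l, hl, rfl⟩
    change g⁻¹ * (g * l) ∈ L
    rwa [inv_mul_cancel_left]

end Coset

section Cut

variable {R G : Type} [Ring R] [Group G]

open Classical in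
/-- Restriction of the support to `V`. -/
noncomputable def cuts {m n : Type} (V : Set G) (M : Matrix m n (MonoidAlgebra R G)) :
    Matrix m n (MonoidAlgebra R G) :=
  fun i j => .ofCoeff ((M i j).coeff.filter (fun g => g ∈ V))

omit [Group G] in
theorem cuts_coeff {m n : Type} (V : Set G) (M : Matrix m n (MonoidAlgebra R G)) (i : m) (j : n)
    (x : G) [Decidable (x ∈ V)] :
    (cuts V M i j).coeff x = if x ∈ V then (M i j).coeff x else 0 := by
  classical
  unfold cuts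
  change (Finsupp.filter (fun g => g ∈ V) (M i j).coeff) x = _
  rw [Finsupp.filter_apply]
  congr

theorem cuts_mem {m n : Type} {V : Set G} (M : Matrix m n (MonoidAlgebra R G)) (i : m) (j : n)
    {x : G} (hx : x ∈ V) : (cuts V M i j).coeff x = (M i j).coeff x := by
  classical
  rw [cuts_coeff, if_pos hx]

theorem cuts_not {m n : Type} {V : Set G} (M : Matrix m n (MonoidAlgebra R G)) (i : m) (j : n)
    {x : G} (hx : x ∉ V) : (cuts V M i j).coeff x = 0 := by
  classical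
  rw [cuts_coeff, if_neg hx]

theorem cuts_supp {m n : Type} (V : Set G) (M : Matrix m n (MonoidAlgebra R G)) :
    SuppIn V (cuts V M) := by
  intro i j x hx
  by_contra h
  exact hx (cuts_not M i j h)

theorem cuts_supp' {m n : Type} (V Y : Set G) (M : Matrix m n (MonoidAlgebra R G))
    (h : SuppIn Y M) : SuppIn Y (cuts V M) := by
  intro i j x hx
  by_cases h1 : x ∈ V
  · rw [cuts_mem M i j h1] at hx
    exact h i j x hx
  · exact absurd (cuts_not M i j h1) hx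

theorem cuts_add {m n : Type} (V : Set G) (M : Matrix m n (MonoidAlgebra R G)) :
    cuts V M + cuts Vᶜ M = M := by
  ext i j x
  rw [Matrix.add_apply, MonoidAlgebra.coeff_add, Finsupp.add_apply]
  by_cases h : x ∈ V
  · rw [cuts_mem M i j h, cuts_not M i j (by simpa using h), add_zero]
  · rw [cuts_not M i j h, cuts_mem M i j (by simpa using h), zero_add]

/-- Two matrices with disjoint supports and sum `0` are `0`. -/
theorem zero_of_add {m n : Type} {V W : Set G} {M N : Matrix m n (MonoidAlgebra R G)}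
    (hM : SuppIn V M) (hN : SuppIn W N) (hd : ∀ x ∈ V, x ∉ W) (h : M + N = 0) : M = 0 := by
  ext i j x
  rw [Matrix.zero_apply, MonoidAlgebra.coeff_zero, Finsupp.zero_apply]
  by_contra hx
  have h1 := hd x (hM i j x hx)
  have h2 : (N i j).coeff x = 0 := by
    by_contra h3
    exact h1 (hN i j x h3)
  have h3 := congrArg (fun Q : Matrix m n (MonoidAlgebra R G) => (Q i j).coeff x) h
  simp only [Matrix.add_apply, MonoidAlgebra.coeff_add, Finsupp.add_apply, Matrix.zero_apply,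
    MonoidAlgebra.coeff_zero, Finsupp.zero_apply, h2, add_zero] at h3
  exact hx h3

/-- Right multiplication of all the entries by `t`. -/
noncomputable def rt {m n : Type} (t : G) (M : Matrix m n (MonoidAlgebra R G)) :
    Matrix m n (MonoidAlgebra R G) := fun i j => M i j * MonoidAlgebra.single t 1

theorem rt_coeff {m n : Type} (t : G) (M : Matrix m n (MonoidAlgebra R G)) (i : m) (j : n)
    (x : G) : (rt t M i j).coeff x = (M i j).coeff (x * t⁻¹) := by
  unfold rt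
  rw [MonoidAlgebra.coeff_mul_single_eq_coeff_mul (m₂ := x * t⁻¹) (H := ?_), mul_one]
  intro a _
  constructor
  · intro h
    rw [← h, mul_inv_cancel_right]
  · intro h
    rw [h, inv_mul_cancel_right]

theorem rt_rt {m n : Type} (t : G) (M : Matrix m n (MonoidAlgebra R G)) :
    rt t⁻¹ (rt t M) = M := by
  ext i j x
  rw [rt_coeff, rt_coeff, inv_inv, mul_inv_cancel_right]

theorem rt_rt' {m n : Type} (t : G) (M : Matrix m n (MonoidAlgebra R G)) :
    rt t (rt t⁻¹ M) = M := by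
  ext i j x
  rw [rt_coeff, rt_coeff, inv_inv, inv_mul_cancel_right]

theorem rt_zero {m n : Type} (t : G) : rt t (0 : Matrix m n (MonoidAlgebra R G)) = 0 := by
  ext i j x
  rw [rt_coeff]
  rfl

theorem mul_rt {l m n : Type} [Fintype m] (t : G) (M : Matrix l m (MonoidAlgebra R G))
    (N : Matrix m n (MonoidAlgebra R G)) : M * rt t N = rt t (M * N) := by
  ext1 i j
  unfold rt
  rw [Matrix.mul_apply]
  change _ = (M * N) i j * _
  rw [Matrix.mul_apply, Finset.sum_mul]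
  refine Finset.sum_congr rfl fun k _ => ?_
  rw [mul_assoc]

theorem rt_eq_zero {m n : Type} {t : G} {M : Matrix m n (MonoidAlgebra R G)}
    (h : rt t M = 0) : M = 0 := by
  rw [← rt_rt t M, h, rt_zero]

/-- A product with a matrix over `R[g L]`, coefficient by coefficient. -/
theorem mul_zero_of_cut {l m n : Type} [Fintype m] {L : Subgroup G} {g : G}
    {M : Matrix l m (MonoidAlgebra R G)} {Z : Matrix m n (MonoidAlgebra R G)} {Y : Set G}
    (hM : SuppIn (cosetL L g) M) (hZ : SuppIn Y Z)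
    (h : ∀ t ∈ Y, M * cuts {x | x * t⁻¹ ∈ L} Z = 0) (hY : ∀ h ∈ L, ∀ y ∈ Y, h * y ∈ Y) :
    M * Z = 0 := by
  ext i j u
  rw [Matrix.zero_apply, MonoidAlgebra.coeff_zero, Finsupp.zero_apply]
  set t : G := g⁻¹ * u with ht
  have h1 : M * Z = M * cuts {x | x * t⁻¹ ∈ L} Z + M * cuts {x | x * t⁻¹ ∈ L}ᶜ Z := by
    rw [← Matrix.mul_add, cuts_add]
  have h2 : SuppIn {x | g⁻¹ * x * t⁻¹ ∉ L} (M * cuts {x | x * t⁻¹ ∈ L}ᶜ Z) := by
    refine supp_mul hM (cuts_supp _ _) ?_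
    intro x hx y hy h3
    apply hy
    change y * t⁻¹ ∈ L
    have h4 := L.mul_mem (L.inv_mem hx) h3
    have h5 : (g⁻¹ * x)⁻¹ * (g⁻¹ * (x * y) * t⁻¹) = y * t⁻¹ := by group
    rwa [h5] at h4
  have h3 : ((M * cuts {x | x * t⁻¹ ∈ L}ᶜ Z) i j).coeff u = 0 := by
    by_contra h4
    apply h2 i j u h4
    rw [ht, mul_inv_cancel]
    exact L.one_mem
  have h4 : M * cuts {x | x * t⁻¹ ∈ L} Z = 0 := by
    by_cases h5 : t ∈ Y
    · exact h t h5
    · have h6 : cuts {x | x * t⁻¹ ∈ L} Z = 0 := by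
        ext i j x
        rw [Matrix.zero_apply, MonoidAlgebra.coeff_zero, Finsupp.zero_apply]
        by_contra h7
        apply h5
        have h8 := cuts_supp _ _ i j x h7
        have h9 := cuts_supp' _ _ _ hZ i j x h7
        have h10 := hY _ (L.inv_mem h8) _ h9
        have h11 : (x * t⁻¹)⁻¹ * x = t := by group
        rwa [h11] at h10
      rw [h6, Matrix.mul_zero]
  rw [h1, h4, zero_add, h3]

end Cut

section Inj

variable {R G : Type} [Ring R] [StarRing R] [Group G] {L : Subgroup G}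

/-- The injectivity of a P-move on the columns over `R[L]`. -/
theorem inj_one {X : Set G} {n r : ℕ} {a : Matrix (Fin n) (Fin n) (MonoidAlgebra R G)}
    {p : Matrix (Fin r) (Fin n) (MonoidAlgebra R G)}
    {a' : Matrix (Fin r) (Fin r) (MonoidAlgebra R G)}
    {m' : Matrix (Fin n) (Fin r) (MonoidAlgebra R G)}
    (hPM : IsPM L X ∅ a 0 p a' m') {c : Type} (W : Matrix (Fin n) c (MonoidAlgebra R G))
    (hW : SuppIn (L : Set G) W) (h : a * W = 0) : p * W = 0 := by
  have hm : m' = 0 := hPM.cancel _ m' hPM.eq_m.symm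
  refine hPM.inj (L : Set G) (fun h hh y hy => L.mul_mem hh hy) ?_ ?_ c (p * W)
    (supp_mul hPM.supp_p hW (fun x hx y hy => L.mul_mem hx hy)) ?_ ?_
  · intro x _ x' _ y hy y' hy' hxy
    have h1 : x⁻¹ * x' = y * y'⁻¹ := by
      have h2 : x * y * y'⁻¹ = x' := by rw [hxy, mul_inv_cancel_right]
      rw [← h2]
      group
    rw [h1]
    exact L.mul_mem hy (L.inv_mem hy')
  · intro x hx
    exact absurd hx (Set.notMem_empty x)
  · rw [← Matrix.mul_assoc, ← hPM.eq_a, h]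
  · rw [hm, Matrix.zero_mul]

/-- Cancellation of `p^*` on the left. -/
theorem cancel' {X : Set G} {n r : ℕ} {a : Matrix (Fin n) (Fin n) (MonoidAlgebra R G)}
    {p : Matrix (Fin r) (Fin n) (MonoidAlgebra R G)}
    {a' : Matrix (Fin r) (Fin r) (MonoidAlgebra R G)}
    {m' : Matrix (Fin n) (Fin r) (MonoidAlgebra R G)}
    (hPM : IsPM L X ∅ a 0 p a' m') {c : Type} (Z : Matrix (Fin r) c (MonoidAlgebra R G))
    (h : pᴴ * Z = 0) : Z = 0 := by
  have h1 : Zᴴ * p = 0 := by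
    have h2 := congrArg conjTranspose h
    rwa [conjTranspose_mul, conjTranspose_conjTranspose, conjTranspose_zero] at h2
  have h3 := hPM.cancel _ _ h1
  rw [← conjTranspose_conjTranspose Z, h3, conjTranspose_zero]

end Inj

section Move

variable {R G : Type} [Ring R] [StarRing R] [Group G] {L : Subgroup G}

/-- One P-move for the first form. -/
theorem move (hSTK : SpecSTK) (hTAT : SpecTAT) (hEMV : SpecEMV) (hSWP : SpecSWP)
    {X1 : Set G} (hl : ∀ h ∈ L, ∀ x ∈ X1, h * x ∈ X1) (hr : ∀ h ∈ L, ∀ x ∈ X1, x * h ∈ X1)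
    (hi : ∀ x ∈ X1, x⁻¹ ∈ X1) (hn : ∀ x ∈ X1, x⁻¹ ≠ x) (hFP : FP (MonoidAlgebra R L)) (ε : ℤˣ)
    {n : ℕ} (χ ψ : Matrix (Fin n) (Fin n) (MonoidAlgebra R G)) (hχ : SuppIn X1 χ) :
    ∃ (r : ℕ) (p : Matrix (Fin r) (Fin n) (MonoidAlgebra R G))
      (a' : Matrix (Fin r) (Fin r) (MonoidAlgebra R G))
      (m' : Matrix (Fin n) (Fin r) (MonoidAlgebra R G))
      (χ' : Matrix (Fin r) (Fin r) (MonoidAlgebra R G)),
      IsPM L X1 ∅ (χ + (ε : ℤ) • χᴴ) 0 p a' m' ∧ SuppIn X1 χ' ∧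
      a' = χ' + (ε : ℤ) • χ'ᴴ ∧
      (StablyHyperbolic ε (UF χ' 0 (p * ψ * pᴴ)) → StablyHyperbolic ε (UF χ 0 ψ)) := by
  have ha : SuppIn X1 (χ + (ε : ℤ) • χᴴ) := supp_add hχ (supp_units ε (supp_star hχ hi))
  have h0 : SuppIn (∅ : Set G) (0 : Matrix (Fin n) (Fin n) (MonoidAlgebra R G)) := by
    intro i j g hg
    exact absurd rfl hg
  obtain ⟨r, p, a', m', hPM, ha'⟩ := hSTK R G L X1 ∅ ε n (χ + (ε : ℤ) • χᴴ) 0 hFP hr hl
    (fun h _ x hx => absurd hx (Set.notMem_empty x)) ha h0 (sym_of ε χ)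
  obtain ⟨χ', hχ', ha'χ⟩ := hTAT R G X1 ε r a' hi hn hPM.supp_a' ha'
  have hp := hPM.supp_p
  have hps : SuppIn (L : Set G) pᴴ := supp_star hp (fun x hx => L.inv_mem hx)
  have hd0 : (χ - pᴴ * χ' * p) + (ε : ℤ) • (χ - pᴴ * χ' * p)ᴴ = 0 := by
    have e1 := hPM.eq_a
    rw [ha'χ] at e1
    have e2 : (pᴴ * χ' * p)ᴴ = pᴴ * χ'ᴴ * p := by
      rw [conjTranspose_mul, conjTranspose_mul, conjTranspose_conjTranspose, Matrix.mul_assoc]
    rw [conjTranspose_sub, e2, smul_sub]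
    have e3 : pᴴ * (χ' + (ε : ℤ) • χ'ᴴ) * p = pᴴ * χ' * p + (ε : ℤ) • (pᴴ * χ'ᴴ * p) := by
      rw [Matrix.mul_add, Matrix.add_mul, Matrix.mul_smul, Matrix.smul_mul]
    rw [e3] at e1
    calc χ - pᴴ * χ' * p + ((ε : ℤ) • χᴴ - (ε : ℤ) • (pᴴ * χ'ᴴ * p))
        = (χ + (ε : ℤ) • χᴴ) - (pᴴ * χ' * p + (ε : ℤ) • (pᴴ * χ'ᴴ * p)) := by abel
      _ = 0 := by rw [e1, sub_self]
  have hsd : SuppIn X1 (χ - pᴴ * χ' * p) := by
    rw [sub_eq_add_neg]
    exact supp_add hχ (supp_neg (supp_mul (supp_mul hps hχ' hl) hp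
      (fun x hx h hh => hr h hh x hx)))
  obtain ⟨c, _, hc⟩ := hTAT R G X1 (-ε) n (χ - pᴴ * χ' * p) hi hn hsd
    (by rw [neg_units]; exact eq_neg_of_add_eq_zero_left hd0)
  rw [neg_units, ← sub_eq_add_neg] at hc
  refine ⟨r, p, a', m', χ', hPM, hχ', ha'χ, ?_⟩
  intro h
  have h1 := hEMV (MonoidAlgebra R G) ε n r χ' 0 ψ p (by rw [Matrix.mul_zero]; exact h)
  rw [Matrix.zero_mul] at h1
  have h2 := (hSWP (MonoidAlgebra R G) ε n (pᴴ * χ' * p) 0 ψ).2.1 c 0 h1
  have h3 : pᴴ * χ' * p + c - (ε : ℤ) • cᴴ = χ := by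
    rw [add_sub_assoc, ← hc]
    abel
  rw [h3] at h2
  simpa using h2

/-- The polarization of `p χ p^*`. -/
theorem pol {n r : ℕ} (ε : ℤˣ) (p : Matrix (Fin r) (Fin n) (MonoidAlgebra R G))
    (χ : Matrix (Fin n) (Fin n) (MonoidAlgebra R G)) :
    p * χ * pᴴ + (ε : ℤ) • (p * χ * pᴴ)ᴴ = p * (χ + (ε : ℤ) • χᴴ) * pᴴ := by
  rw [conjTranspose_mul, conjTranspose_mul, conjTranspose_conjTranspose, Matrix.mul_add,
    Matrix.add_mul, Matrix.mul_smul, Matrix.smul_mul, Matrix.mul_assoc p χᴴ pᴴ]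

theorem main (hSTK : SpecSTK) (hTAT : SpecTAT) (hEMV : SpecEMV) (hSWP : SpecSWP)
    {g : G} {Xb Y : Set G} (P : SB L g Xb Y) (hFP : FP (MonoidAlgebra R L)) (ε : ℤˣ) (l : ℕ) :
    ∀ {n : ℕ} (ψ χ : Matrix (Fin n) (Fin n) (MonoidAlgebra R G)),
    SuppIn (cosetL L g) ψ → SuppIn Xb χ →
    ((χ + (ε : ℤ) • χᴴ) * (ψ + (ε : ℤ) • ψᴴ)) ^ l = 0 →
    StablyHyperbolic ε (UF ψ 0 χ) := by
  induction l with
  | zero =>
    intro n ψ χ _ _ h
    rw [pow_zero] at h
    have h1 : ∀ M : Matrix (Fin n) (Fin n) (MonoidAlgebra R G), M = 0 := fun M => by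
      rw [← Matrix.mul_one M, h, Matrix.mul_zero]
    rw [h1 ψ, h1 χ]
    exact (hSWP (MonoidAlgebra R G) ε n 0 0 0).2.2
  | succ l ih =>
    intro n ψ χ hψ hχ hnil
    set a := ψ + (ε : ℤ) • ψᴴ with hadef
    set b := χ + (ε : ℤ) • χᴴ with hbdef
    have hsa : SuppIn (cosetL L g) a := supp_add hψ (supp_units ε (supp_star hψ (ai P)))
    have hsb : SuppIn Xb b := supp_add hχ (supp_units ε (supp_star hχ P.bi))
    have hswap : ∀ (k : ℕ) (u v : Matrix (Fin k) (Fin k) (MonoidAlgebra R G)),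
        StablyHyperbolic ε (UF u 0 v) → StablyHyperbolic ε (UF v 0 u) := by
      intro k u v h
      have h1 := (hSWP (MonoidAlgebra R G) ε k v 0 u).1
      rw [conjTranspose_zero] at h1
      exact h1 h
    -- step b
    obtain ⟨r, p, b1, m1, χ1, hPM, hχ1, hb1, hmove⟩ := move hSTK hTAT hEMV hSWP P.bl P.br P.bi
      P.bn hFP ε χ ψ hχ
    rw [← hbdef] at hPM
    have hp := hPM.supp_p
    have hps : SuppIn (L : Set G) pᴴ := supp_star hp (fun x hx => L.inv_mem hx)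
    have hψ1 : SuppIn (cosetL L g) (p * ψ * pᴴ) :=
      supp_mul (supp_mul hp hψ (al P)) hps (fun x hx h hh => ar h hh x hx)
    set a1 := p * ψ * pᴴ + (ε : ℤ) • (p * ψ * pᴴ)ᴴ with ha1def
    have ha1 : a1 = p * a * pᴴ := pol ε p ψ
    have hsa1 : SuppIn (cosetL L g) a1 := by
      rw [ha1]
      exact supp_mul (supp_mul hp hsa (al P)) hps (fun x hx h hh => ar h hh x hx)
    have hsb1 : SuppIn Xb b1 := hPM.supp_a'
    have hint : ∀ k : ℕ, pᴴ * (b1 * a1) ^ k = (b * a) ^ k * pᴴ := by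
      intro k
      induction k with
      | zero => rw [pow_zero, pow_zero, Matrix.mul_one, Matrix.one_mul]
      | succ k ihk =>
        rw [pow_succ', ← Matrix.mul_assoc, ← Matrix.mul_assoc, ha1, ← Matrix.mul_assoc,
          ← Matrix.mul_assoc, ← hPM.eq_a, Matrix.mul_assoc (b * a), ← ha1, ihk, pow_succ',
          Matrix.mul_assoc (b * a)]
    -- supports of the powers
    have hpow : ∀ {k m : ℕ} (u v : Matrix (Fin k) (Fin k) (MonoidAlgebra R G))
        (Z : Matrix (Fin k) (Fin m) (MonoidAlgebra R G)), SuppIn Xb u → SuppIn (cosetL L g) v →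
        SuppIn Y Z → ∀ q : ℕ, SuppIn Y ((u * v) ^ q * Z) := by
      intro k m u v Z hu hv hZ q
      induction q with
      | zero => rw [pow_zero, Matrix.one_mul]; exact hZ
      | succ q ihq =>
        rw [pow_succ', Matrix.mul_assoc, Matrix.mul_assoc]
        have h1 : SuppIn {t | ∃ x ∈ cosetL L g, ∃ y ∈ Y, t = x * y} (v * ((u * v) ^ q * Z)) :=
          supp_mul hv ihq (fun x hx y hy => ⟨x, hx, y, hy, rfl⟩)
        refine supp_mul hu h1 ?_
        rintro z hz _ ⟨x, hx, y, hy, rfl⟩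
        exact P.ab z hz x hx y hy
    have hP1 : (b1 * a1) ^ (l + 1) = 0 := by
      apply cancel' hPM
      rw [hint, hnil, Matrix.zero_mul]
    have hQ1 : a1 * (b1 * a1) ^ l = 0 := by
      have h1 : a1 * (b1 * a1) ^ l = p * a * ((b * a) ^ l * pᴴ) := by
        rw [← hint l, ha1]
        simp only [Matrix.mul_assoc]
      rw [h1]
      set Z := (b * a) ^ l * pᴴ with hZ
      have hZs : SuppIn Y Z := hpow b a pᴴ hsb hsa
        (fun i j x hx => by
          have h2 := P.yl x (hps i j x hx) 1 P.y1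
          rwa [mul_one] at h2) l
      have hbaZ : b * (a * Z) = 0 := by
        rw [← Matrix.mul_assoc, hZ, ← Matrix.mul_assoc, ← pow_succ', hnil, Matrix.zero_mul]
      refine mul_zero_of_cut (supp_mul hp hsa (al P)) hZs ?_ P.yl
      intro t ht
      -- the part in `L t`
      have h2 : b * (a * cuts {x | x * t⁻¹ ∈ L} Z) = 0 := by
        refine zero_of_add (V := {u | ∃ z ∈ Xb, ∃ x ∈ cosetL L g, ∃ y ∈ Y, y * t⁻¹ ∈ L ∧
          u = z * (x * y)}) (W := {u | ∃ z ∈ Xb, ∃ x ∈ cosetL L g, ∃ y ∈ Y, y * t⁻¹ ∉ L ∧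
          u = z * (x * y)}) (N := b * (a * cuts {x | x * t⁻¹ ∈ L}ᶜ Z)) ?_ ?_ ?_ ?_
        · have h3 : SuppIn {u | ∃ x ∈ cosetL L g, ∃ y ∈ Y, y * t⁻¹ ∈ L ∧ u = x * y}
              (a * cuts {x | x * t⁻¹ ∈ L} Z) := by
            have h4 : SuppIn {y | y ∈ Y ∧ y * t⁻¹ ∈ L} (cuts {x | x * t⁻¹ ∈ L} Z) :=
              fun i j x hx => ⟨cuts_supp' _ _ _ hZs i j x hx, cuts_supp _ _ i j x hx⟩
            exact supp_mul hsa h4 (fun x hx y hy => ⟨x, hx, y, hy.1, hy.2, rfl⟩)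
          refine supp_mul hsb h3 ?_
          rintro z hz _ ⟨x, hx, y, hy, hyt, rfl⟩
          exact ⟨z, hz, x, hx, y, hy, hyt, rfl⟩
        · have h3 : SuppIn {u | ∃ x ∈ cosetL L g, ∃ y ∈ Y, y * t⁻¹ ∉ L ∧ u = x * y}
              (a * cuts {x | x * t⁻¹ ∈ L}ᶜ Z) := by
            have h4 : SuppIn {y | y ∈ Y ∧ y * t⁻¹ ∉ L} (cuts {x | x * t⁻¹ ∈ L}ᶜ Z) :=
              fun i j x hx => ⟨cuts_supp' _ _ _ hZs i j x hx, cuts_supp _ _ i j x hx⟩
            exact supp_mul hsa h4 (fun x hx y hy => ⟨x, hx, y, hy.1, hy.2, rfl⟩)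
          refine supp_mul hsb h3 ?_
          rintro z hz _ ⟨x, hx, y, hy, hyt, rfl⟩
          exact ⟨z, hz, x, hx, y, hy, hyt, rfl⟩
        · rintro u ⟨z, hz, x, hx, y, hy, hyt, rfl⟩ ⟨z', hz', x', hx', y', hy', hyt', he⟩
          apply hyt'
          have h3 := P.un z hz z' hz' x hx x' hx' y hy y' hy' he
          have h4 := L.mul_mem h3 hyt
          have h5 : y' * y⁻¹ * (y * t⁻¹) = y' * t⁻¹ := by group
          rwa [h5] at h4
        · rw [← Matrix.mul_add, ← Matrix.mul_add, cuts_add, hbaZ]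
      -- `a Z_t = W g t`
      set V := cuts {x | x * t⁻¹ ∈ L} Z with hV
      have h3 : rt (g * t) (rt (g * t)⁻¹ (a * V)) = a * V := rt_rt' _ _
      set W := rt (g * t)⁻¹ (a * V) with hW
      have h4 : SuppIn (L : Set G) W := by
        intro i j u hu
        rw [hW, rt_coeff, inv_inv] at hu
        have h5 : SuppIn {u | g⁻¹ * u * t⁻¹ ∈ L} (a * V) := by
          refine supp_mul hsa (cuts_supp _ _) ?_
          intro x hx y hy
          change g⁻¹ * (x * y) * t⁻¹ ∈ L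
          have h6 := L.mul_mem hx hy
          have h7 : g⁻¹ * x * (y * t⁻¹) = g⁻¹ * (x * y) * t⁻¹ := by group
          rwa [h7] at h6
        have h6 := h5 i j _ hu
        have h7 := P.nr _ h6
        have h8 : g * (g⁻¹ * (u * (g * t)) * t⁻¹) * g⁻¹ = u := by group
        rwa [h8] at h7
      have h5 : b * W = 0 := by
        apply rt_eq_zero (t := g * t)
        rw [← mul_rt, h3, h2]
      have h6 := inj_one hPM W h4 h5
      rw [Matrix.mul_assoc, ← h3, mul_rt, h6, rt_zero]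
    -- step a
    obtain ⟨r2, p2, a2, m2, ψ2, hPM2, hψ2, ha2, hmove2⟩ := move hSTK hTAT hEMV hSWP (al P) ar
      (ai P) P.an hFP ε (p * ψ * pᴴ) χ1 hψ1
    rw [← ha1def] at hPM2
    have hp2 := hPM2.supp_p
    have hps2 : SuppIn (L : Set G) p2ᴴ := supp_star hp2 (fun x hx => L.inv_mem hx)
    have hχ2 : SuppIn Xb (p2 * χ1 * p2ᴴ) :=
      supp_mul (supp_mul hp2 hχ1 P.bl) hps2 (fun x hx h hh => P.br h hh x hx)
    have hpb : p2 * χ1 * p2ᴴ + (ε : ℤ) • (p2 * χ1 * p2ᴴ)ᴴ = p2 * b1 * p2ᴴ := by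
      rw [pol ε p2 χ1, ← hb1]
    have hint2 : ∀ k : ℕ, (p2 * b1 * p2ᴴ * a2) ^ k * p2 = p2 * (b1 * a1) ^ k := by
      intro k
      induction k with
      | zero => rw [pow_zero, pow_zero, Matrix.mul_one, Matrix.one_mul]
      | succ k ihk =>
        rw [pow_succ, Matrix.mul_assoc, pow_succ]
        have h1 : p2 * b1 * p2ᴴ * a2 * p2 = p2 * (b1 * a1) := by
          rw [hPM2.eq_a]
          simp only [Matrix.mul_assoc]
        rw [h1, ← Matrix.mul_assoc, ihk, Matrix.mul_assoc]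
    have hP2 : (p2 * b1 * p2ᴴ * a2) ^ l = 0 := by
      apply hPM2.cancel
      rw [hint2]
      set Z := (b1 * a1) ^ l with hZ
      have hZs : SuppIn Y Z := by
        have h2 := hpow b1 a1 (1 : Matrix (Fin r) (Fin r) (MonoidAlgebra R G)) hsb1 hsa1
          (by
            intro i j x hx
            by_cases hij : i = j
            · rw [hij, Matrix.one_apply_eq] at hx
              have h3 : x = 1 := by
                classical
                by_contra h4
                apply hx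
                rw [MonoidAlgebra.one_def, MonoidAlgebra.coeff_single,
                  Finsupp.single_apply, if_neg (Ne.symm h4)]
              rw [h3]
              exact P.y1
            · rw [Matrix.one_apply_ne hij] at hx
              exact absurd rfl hx) l
        rwa [Matrix.mul_one] at h2
      have hp2' : SuppIn (cosetL L 1) p2 := by
        intro i j x hx
        change 1⁻¹ * x ∈ L
        rw [inv_one, one_mul]
        exact hp2 i j x hx
      refine mul_zero_of_cut hp2' hZs ?_ P.yl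
      intro t ht
      have h2 : a1 * cuts {x | x * t⁻¹ ∈ L} Z = 0 := by
        refine zero_of_add (V := {u | g⁻¹ * u * t⁻¹ ∈ L}) (W := {u | g⁻¹ * u * t⁻¹ ∉ L})
          (N := a1 * cuts {x | x * t⁻¹ ∈ L}ᶜ Z) ?_ ?_ (fun x hx h => h hx) ?_
        · refine supp_mul hsa1 (cuts_supp _ _) ?_
          intro x hx y hy
          change g⁻¹ * (x * y) * t⁻¹ ∈ L
          have h6 := L.mul_mem hx hy
          have h7 : g⁻¹ * x * (y * t⁻¹) = g⁻¹ * (x * y) * t⁻¹ := by group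
          rwa [h7] at h6
        · refine supp_mul hsa1 (cuts_supp _ _) ?_
          intro x hx y hy h3
          apply hy
          change y * t⁻¹ ∈ L
          have h4 := L.mul_mem (L.inv_mem hx) h3
          have h5 : (g⁻¹ * x)⁻¹ * (g⁻¹ * (x * y) * t⁻¹) = y * t⁻¹ := by group
          rwa [h5] at h4
        · rw [← Matrix.mul_add, cuts_add, hQ1]
      set V := cuts {x | x * t⁻¹ ∈ L} Z with hV
      have h3 : rt t (rt t⁻¹ V) = V := rt_rt' _ _
      set W := rt t⁻¹ V with hW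
      have h4 : SuppIn (L : Set G) W := by
        intro i j u hu
        rw [hW, rt_coeff, inv_inv] at hu
        have h5 : u * t * t⁻¹ ∈ L := by
          have h6 := cuts_supp {x | x * t⁻¹ ∈ L} Z i j (u * t) hu
          exact h6
        rwa [mul_inv_cancel_right] at h5
      have h5 : a1 * W = 0 := by
        apply rt_eq_zero (t := t)
        rw [← mul_rt, h3, h2]
      have h6 := inj_one hPM2 W h4 h5
      rw [← h3, mul_rt, h6, rt_zero]
    apply hswap
    apply hmove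
    apply hswap
    apply hmove2
    apply ih ψ2 (p2 * χ1 * p2ᴴ) hψ2 hχ2
    rw [hpb, ← ha2]
    exact hP2

end Move

/-- The single block over a ring with the property (FP). -/
theorem single_block_FP {R G : Type} [Ring R] [StarRing R] [Group G] {L : Subgroup G} {g : G}
    {Xb Y : Set G} (P : SB L g Xb Y) (hFP : FP (MonoidAlgebra R L)) (ε : ℤˣ) {n : ℕ}
    (ψ χ : Matrix (Fin n) (Fin n) (MonoidAlgebra R G)) (hψ : SuppIn (cosetL L g) ψ)
    (hχ : SuppIn Xb χ)
    (hnil : IsNilpotent ((χ + (ε : ℤ) • χᴴ) * (ψ + (ε : ℤ) • ψᴴ))) :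
    StablyHyperbolic ε (UF ψ 0 χ) := by
  obtain ⟨l, hl⟩ := hnil
  exact main (specStk specRES) specTat specEmv specSwp P hFP ε l ψ χ hψ hχ hl

/-- The data of the Spec and the data `SB`. -/
theorem sb_of_loc {G : Type} [Group G] {L : Subgroup G} {g : G} {Xa Xb Y : Set G}
    (P : Loc L g Xa Xb Y) : Xa = cosetL L g ∧ SB L g Xb Y := by
  have hg : g ∈ Xa := (P.ag g).2 ⟨1, L.one_mem, (one_mul g).symm⟩
  have hnr : ∀ l ∈ L, g * l * g⁻¹ ∈ L := by
    intro l hl
    obtain ⟨l', hl', h⟩ := (P.ag _).1 (P.ar l hl g hg)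
    rw [h, mul_inv_cancel_right]
    exact hl'
  have hsq : g * g ∈ L := by
    obtain ⟨l', hl', h⟩ := (P.ag _).1 (P.ai g hg)
    have h1 : g * g = l'⁻¹ := by
      have h2 : l' = g⁻¹ * g⁻¹ := eq_mul_inv_of_mul_eq h.symm
      rw [h2, _root_.mul_inv_rev, inv_inv]
    rw [h1]
    exact L.inv_mem hl'
  have hnl : ∀ l ∈ L, g⁻¹ * l * g ∈ L := by
    intro l hl
    have h1 := L.mul_mem (L.mul_mem (L.inv_mem hsq) (hnr l hl)) hsq
    have h2 : (g * g)⁻¹ * (g * l * g⁻¹) * (g * g) = g⁻¹ * l * g := by group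
    rwa [h2] at h1
  have hX : Xa = cosetL L g := by
    ext x
    rw [P.ag]
    constructor
    · rintro ⟨l, hl, rfl⟩
      change g⁻¹ * (l * g) ∈ L
      rw [← mul_assoc]
      exact hnl l hl
    · intro hx
      refine ⟨g * (g⁻¹ * x) * g⁻¹, hnr _ hx, ?_⟩
      group
  refine ⟨hX, ?_⟩
  exact
    { nl := hnl
      nr := hnr
      sq := hsq
      an := fun x hx => P.an x (by rw [hX]; exact hx)
      bl := P.bl
      br := P.br
      bi := P.bi
      bn := P.bn
      y1 := P.y1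
      yl := P.yl
      ab := by
        intro z hz x hx y hy
        rw [← mul_assoc]
        exact P.ya z hz x (by rw [hX]; exact hx) y hy
      un := by
        intro z hz z' hz' x hx x' hx' t ht t' ht' h
        refine P.dj z hz z' hz' x (by rw [hX]; exact hx) x' (by rw [hX]; exact hx') t ht t' ht' ?_
        rw [mul_assoc, mul_assoc, h] }

theorem nil_of {A : Type} [Ring A] [StarRing A] {n : ℕ} (ε : ℤˣ) (a b : Matrix (Fin n) (Fin n) A)
    (h : IsNilpotent (nu ε a 0 b)) : IsNilpotent (b * a) := by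
  obtain ⟨k, hk⟩ := h
  have hsq : nu ε a 0 b * nu ε a 0 b =
      fromBlocks ((ε : ℤ) • (b * a)) 0 0 ((ε : ℤ) • (a * b)) := by
    unfold nu
    rw [fromBlocks_multiply, conjTranspose_zero]
    simp only [Matrix.mul_zero, Matrix.zero_mul, zero_add, add_zero, Matrix.smul_mul,
      Matrix.mul_smul, smul_zero]
  have hpow : ∀ q : ℕ, (fromBlocks ((ε : ℤ) • (b * a)) 0 0 ((ε : ℤ) • (a * b))) ^ q =
      fromBlocks (((ε : ℤ) • (b * a)) ^ q) 0 0 (((ε : ℤ) • (a * b)) ^ q) := by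
    intro q
    induction q with
    | zero => rw [pow_zero, pow_zero, pow_zero, fromBlocks_one]
    | succ q ih => rw [pow_succ, ih, fromBlocks_multiply, pow_succ, pow_succ]; simp
  have h1 : ((ε : ℤ) • (b * a)) ^ k = 0 := by
    have h2 : (nu ε a 0 b) ^ (2 * k) = 0 := by
      rw [two_mul, pow_add, hk, Matrix.zero_mul]
    rw [pow_mul, pow_two, hsq, hpow, ← fromBlocks_zero, fromBlocks_inj] at h2
    exact h2.1
  refine ⟨k, ?_⟩
  rcases Int.units_eq_one_or ε with rfl | rfl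
  · simpa using h1
  · have h2 : (-(b * a)) ^ k = 0 := by simpa using h1
    rcases Nat.even_or_odd k with hk2 | hk2
    · rwa [hk2.neg_pow] at h2
    · rw [hk2.neg_pow] at h2
      exact neg_eq_zero.1 h2

end SBFAux

open SBFAux in
/-- **Module SBF**: the single block, (FP) for `R[L]`. -/
theorem specSBF (_ : SpecFPM) (_ : SpecCMP) (_ : SpecSUM) (_ : SpecYGX) : SpecSBF := by
  intro R G _ _ _ L g Xa Xb Y P hFP
  obtain ⟨hX, hSB⟩ := sb_of_loc P
  subst hX
  intro ε n ψ χ hψ hχ hnil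
  exact single_block_FP hSB hFP ε ψ χ hψ hχ (nil_of ε _ _ hnil)

end Pool.Agent.Lib.MP8a3537.RO
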