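import Pool.Agent.Lib.MP_8a3537_gt.AU.DES
import Pool.Agent.Lib.MP_8a3537_gt.AU.LIF
import Pool.Agent.Lib.MP_8a3537_gt.AU.NOE
import Pool.Agent.Lib.MP_8a3537_gt.AU.RSZ
import Pool.Agent.Lib.MP_8a3537_gt.AU.TRU
import Pool.Agent.Lib.MP_8a3537_gt.AU.RSP
import Pool.Agent.Lib.MP_8a3537_gt.AU.ACY
import Pool.Agent.Lib.MP_8a3537_gt.AU.FLT
import Pool.Agent.Lib.MP_8a3537_gt.AU.CTR
import Pool.Agent.Lib.MP_8a3537_gt.AU.SYM
import Pool.Agent.Lib.MP_8a3537_gt.AU.EXF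
import Pool.Agent.Lib.MP_8a3537_gt.AU.CNE
import Pool.Agent.Lib.MP_8a3537_gt.AU.CNF
import Pool.Agent.Lib.MP_8a3537_gt.AU.GDS
import Pool.Agent.Lib.MP_8a3537_gt.AU.SWA
import Pool.Agent.Lib.MP_8a3537_gt.AU.STF
import Pool.Agent.Lib.MP_8a3537_gt.AU.LAG
import Pool.Agent.Lib.MP_8a3537_gt.AU.ENV

/-! The landed modules of the folder AU, without hypotheses. -/

namespace Pool.Agent.Lib.MP8a3537.RO

open Pool.Agent.Lib.MP8a3537.AU

theorem auLIF : SpecLIF := specLIF specDES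

theorem auRSZ : SpecRSZ := specRSZ specNOE auLIF

theorem auRSP : SpecRSP := specRSP auLIF specTRU

theorem auACY : SpecACY := specACY specTRU

theorem auSYM : SpecSYM := specSYM specDES

theorem auEXF : SpecEXF := specEXF specDES specFLT auSYM

theorem auENV : SpecENV := specENV (specCTR specDES) specSTF specLAG

end Pool.Agent.Lib.MP8a3537.RO
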