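import Pool.Agent.Lib.MP_8a3537_gt.RO.Spec
import Pool.Agent.Lib.MP_8a3537_gt.AU.STE
import Pool.Agent.Lib.MP_8a3537_gt.AU.LVL

/-!
# Module STA: step a
-/

namespace Pool.Agent.Lib.MP8a3537.RO

open Matrix Pool.Agent.Lib.MP8a3537.UV Pool.Agent.Lib.MP8a3537.AU
open Pool.Agent.Lib.MP8a3537.UO (ext)

namespace STAAux

section Groups

variable {G : Type} [Group G] {L : Subgroup G} {g : G} {Xa Xb Y : Set G}

theorem gg_mem (h : Loc L g Xa Xb Y) : g * g ∈ L := by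
  have h1 : g ∈ Xa := (h.ag g).2 ⟨1, L.one_mem, (one_mul g).symm⟩
  obtain ⟨l, hl, h2⟩ := (h.ag g⁻¹).1 (h.ai g h1)
  have h3 : g * g = l⁻¹ := by
    rw [eq_inv_iff_mul_eq_one, mul_assoc]
    have h4 : l * g * g = 1 := by rw [← h2, inv_mul_cancel]
    have h5 : g * l = g⁻¹ := by
      rw [eq_comm, inv_eq_iff_mul_eq_one, ← mul_assoc]
      have h6 : g * (l * g) = 1 := by rw [← h2, mul_inv_cancel]
      have h7 : l = g⁻¹ * g⁻¹ := by
        rw [eq_mul_inv_iff_mul_eq, ← h2]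
      rw [h7]
      group
    rw [h5, mul_inv_cancel]
  rw [h3]
  exact L.inv_mem hl

theorem disj (h : Loc L g Xa Xb Y) : Disj L Xa Y := by
  intro x hx x' hx' y _ y' _ _
  obtain ⟨l', hl', rfl⟩ := (h.ag x').1 hx'
  obtain ⟨l2, hl2, h2⟩ := (h.ag (x⁻¹ * l')).1 (h.ar l' hl' x⁻¹ (h.ai x hx))
  rw [← mul_assoc, h2, mul_assoc]
  exact L.mul_mem hl2 (gg_mem h)

end Groups

section Vec

variable {R G : Type} [Ring R] [Group G] {L : Subgroup G}

theorem supp_mulVec {m n : Type} [Fintype n] {X Y Z : Set G}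
    {M : Matrix m n (MonoidAlgebra R G)} {v : n → MonoidAlgebra R G} (hM : SuppIn X M)
    (hv : SuppV Y v) (hZ : ∀ x ∈ X, ∀ y ∈ Y, x * y ∈ Z) : SuppV Z (M *ᵥ v) := by
  intro i g hg
  exact INDAux.supp_mul hM (N := fun i (_ : Unit) => v i) (fun i _ g hg => hv i g hg) hZ i () g hg

theorem lres_ext_mulVec {m n : Type} [Fintype n] (M : Matrix m n (MonoidAlgebra R L)) (t : G)
    (u : n → MonoidAlgebra R G) (i : m) :
    lres L t ((ext M *ᵥ u) i) = (M *ᵥ fun j => lres L t (u j)) i := by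
  change lres L t (∑ j, emb R L (M i j) * u j) = ∑ j, M i j * lres L t (u j)
  rw [RESAux.lres_sum]
  exact Finset.sum_congr rfl fun j _ => RESAux.lres_emb_mul L t (u j) (M i j)

/-- The components of a cocycle over `R[G]` are cocycles over `R[L]`. -/
theorem lres_cy (C : FC (MonoidAlgebra R L)) (k : ℤ) (v : C.I → MonoidAlgebra R G)
    (hv : ∀ i, v i ≠ 0 → C.deg i = k) (hd : ext C.d *ᵥ v = 0) (t : G) :
    (fun i => lres L t (v i)) ∈ C.Cy k := by
  refine ⟨fun i hi => hv i ?_, ?_⟩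
  · intro h0
    apply hi
    change lres L t (v i) = 0
    rw [h0, RESAux.lres_zero]
  · funext i
    rw [← lres_ext_mulVec, hd]
    exact RESAux.lres_zero L t

theorem ne_mulVec {A : Type} [Ring A] {m n : Type} [Fintype n] {M : Matrix m n A} {v : n → A}
    {i : m} (h : (M *ᵥ v) i ≠ 0) : ∃ j, M i j ≠ 0 ∧ v j ≠ 0 := by
  by_contra h0
  push Not at h0
  apply h
  change ∑ j, M i j * v j = 0
  refine Finset.sum_eq_zero fun j _ => ?_
  by_cases h1 : M i j = 0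
  · rw [h1, zero_mul]
  · rw [h0 j h1, mul_zero]

end Vec

section Main

variable {R G : Type} [Ring R] [StarRing R] [Group G] {L : Subgroup G} {g : G} {Xa Xb Y : Set G}

/-- `(b a)^l x` for a cocycle `x` of degree `k` over `R[L]` is supported in `Y`, and it is a cocycle
of degree `k` over `R[G]`. -/
theorem iter (hL : Loc L g Xa Xb Y) {ε : ℤˣ} {C : FC (MonoidAlgebra R L)}
    {a b : Matrix C.I C.I (MonoidAlgebra R G)} (hN : NF L Xa Xb ∅ ε C a 0 b) (k : ℤ)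
    (x : C.I → MonoidAlgebra R L) (hx : x ∈ C.Cy k) (l : ℕ) :
    SuppV Y ((b * a) ^ l *ᵥ exv x) ∧
      (∀ i, ((b * a) ^ l *ᵥ exv (G := G) x) i ≠ 0 → C.deg i = k) ∧
      ext C.d *ᵥ ((b * a) ^ l *ᵥ exv (G := G) x) = 0 := by
  induction l with
  | zero =>
    rw [pow_zero, one_mulVec]
    refine ⟨?_, ?_, ?_⟩
    · intro i t ht
      have h1 : t ∈ L := by
        by_contra h0
        exact ht (RESAux.emb_coeff_not_mem L (x i) t h0)
      have h2 := hL.yl t h1 1 hL.y1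
      rwa [mul_one] at h2
    · intro i hi
      apply hx.1 i
      intro h0
      apply hi
      change MonoidAlgebra.mapDomainRingHom R L.subtype (x i) = 0
      rw [h0, map_zero]
    · rw [← STEAux.exv_mulVec, hx.2]
      exact LVLAux.exv_zero
  | succ l ih =>
    obtain ⟨h1, h2, h3⟩ := ih
    have h4 : (b * a) ^ (l + 1) *ᵥ exv (G := G) x =
        b *ᵥ (a *ᵥ ((b * a) ^ l *ᵥ exv x)) := by
      rw [pow_succ', ← mulVec_mulVec, ← mulVec_mulVec]
    rw [h4]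
    refine ⟨?_, ?_, ?_⟩
    · have h5 : SuppV {z | ∃ x ∈ Xa, ∃ y ∈ Y, z = x * y} (a *ᵥ ((b * a) ^ l *ᵥ exv (G := G) x)) :=
        supp_mulVec hN.sa h1 fun x hx y hy => ⟨x, hx, y, hy, rfl⟩
      refine supp_mulVec hN.sb h5 ?_
      rintro z hz w ⟨x, hx, y, hy, rfl⟩
      rw [← mul_assoc]
      exact hL.ya z hz x hx y hy
    · intro i hi
      obtain ⟨j, hj1, hj2⟩ := ne_mulVec hi
      obtain ⟨j', hj3, hj4⟩ := ne_mulVec hj2
      have e1 := hN.gb i j hj1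
      have e2 := hN.ga j j' hj3
      have e3 := h2 j' hj4
      omega
    · rw [mulVec_mulVec, mulVec_mulVec, ← hN.cb, Matrix.mul_assoc, ← hN.ca, ← Matrix.mul_assoc,
        ← mulVec_mulVec, h3, mulVec_zero]

/-- `(b' a') p = p (b a)`, iterated. -/
theorem comm_pow {A : Type} [Ring A] [StarRing A] {n m : Type} [Fintype n] [DecidableEq n]
    [Fintype m] [DecidableEq m] (a b : Matrix n n A) (a' b' : Matrix m m A) (p : Matrix m n A)
    (h1 : pᴴ * a' * p = a) (h2 : b' = p * b * pᴴ) (l : ℕ) :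
    (b' * a') ^ l * p = p * (b * a) ^ l := by
  have h3 : b' * a' * p = p * (b * a) := by
    rw [h2, ← h1]
    simp only [Matrix.mul_assoc]
  induction l with
  | zero => rw [pow_zero, pow_zero, Matrix.one_mul, Matrix.mul_one]
  | succ l ih =>
    rw [pow_succ, Matrix.mul_assoc, h3, ← Matrix.mul_assoc, ih, Matrix.mul_assoc, pow_succ]

end Main

end STAAux

/-- **Module STA**: step a. -/
theorem specSTA (hSUR : SpecSUR) (hCMP : SpecCMP) (hSUM : SpecSUM) : SpecSTA := by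
  intro R G _ _ _ L g Xa Xb Y hL ε hA C a b k l hN hC hD hQ
  obtain ⟨C', a', b', p, S⟩ := hSUR R G L Xa Xb ε hA hL.al hL.ar hL.ai hL.an C a b k hN hC hD
  refine ⟨C', a', b', S.nf, S.lv, S.lv', ?_, S.good⟩
  intro x' hx'
  obtain ⟨x, hx, rfl⟩ := S.top x' hx'
  obtain ⟨h1, h2, h3⟩ := STAAux.iter hL hN (k : ℤ) x hx l
  obtain ⟨u0, hu0⟩ := hQ x hx
  have key : ∃ u : C'.I → MonoidAlgebra R G,
      ext p *ᵥ ((b * a) ^ l *ᵥ exv (G := G) x) = ext C'.d *ᵥ u := by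
    refine hSUM R G L _ _ _ C'.d (ext p) _ fun t => ?_
    have h4 := STAAux.lres_cy C (k : ℤ) _ h2 h3 t
    obtain ⟨u1, hu1⟩ := hCMP R G L Xa Y hL.al hL.ar hL.yl (STAAux.disj hL) _ _ _ C.dᴴ a
      ((b * a) ^ l *ᵥ exv (G := G) x) hN.sa h1 ⟨u0, by rw [hu0, LVLAux.ext_star]⟩ t
    obtain ⟨u2, hu2⟩ := S.kill _ h4 ⟨u1, by rw [hu1, LVLAux.ext_star]⟩
    exact ⟨exv u2, by rw [← STEAux.exv_mulVec, hu2, STEAux.exv_mulVec]⟩
  obtain ⟨u, hu⟩ := key
  refine ⟨u, ?_⟩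
  rw [← hu, STEAux.exv_mulVec, mulVec_mulVec, mulVec_mulVec,
    STAAux.comm_pow a b a' b' (ext p) S.ea S.eb l]

end Pool.Agent.Lib.MP8a3537.RO
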