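import Pool.Agent.Lib.MP_8a3537_gt.RO.Spec
import Pool.Agent.Lib.MP_8a3537_gt.AU.NLK
import Pool.Agent.Lib.MP_8a3537_gt.AU.PRG
import Pool.Agent.Lib.MP_8a3537_gt.AU.LVL

/-!
# RO, module STB (helper54): step b
-/

namespace Pool.Agent.Lib.MP8a3537.RO

open Matrix Pool.Agent.Lib.MP8a3537.UV Pool.Agent.Lib.MP8a3537.AU
open Pool.Agent.Lib.MP8a3537.UO (ext)

namespace STBAux

section

variable {R G : Type} [Ring R] [StarRing R] [Group G] {L : Subgroup G} {Xa Xb : Set G} {ε : ℤˣ}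
  {C : FC (MonoidAlgebra R L)} {a b : Matrix C.I C.I (MonoidAlgebra R G)}

/-- `z` is a cocycle of degree `k` over `R[G]`. -/
def CyG (C : FC (MonoidAlgebra R L)) (k : ℤ) (z : C.I → MonoidAlgebra R G) : Prop :=
  (∀ i, z i ≠ 0 → C.deg i = k) ∧ ext C.d *ᵥ z = 0

omit [StarRing R] in
theorem cyG_exv {k : ℤ} {x : C.I → MonoidAlgebra R L} (hx : x ∈ C.Cy k) :
    CyG C k (exv (G := G) x) := by
  refine ⟨fun i hi => hx.1 i (NLKAux.exv_ne hi), ?_⟩
  rw [NLKAux.ext_exv, hx.2, NLKAux.exv_zero]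

theorem ba_comm (hN : NF L Xa Xb ∅ ε C a 0 b) : (b * a) * ext C.d = ext C.d * (b * a) := by
  rw [Matrix.mul_assoc, hN.ca, ← Matrix.mul_assoc, hN.cb, Matrix.mul_assoc]

theorem cyG_ba (hN : NF L Xa Xb ∅ ε C a 0 b) {k : ℤ} {z : C.I → MonoidAlgebra R G}
    (hz : CyG C k z) : CyG C k ((b * a) *ᵥ z) := by
  constructor
  · intro i hi
    rw [← Matrix.mulVec_mulVec] at hi
    obtain ⟨j, hj, hj'⟩ := NLKAux.mulVec_ne hi
    obtain ⟨m, hm, hm'⟩ := NLKAux.mulVec_ne hj'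
    have h1 := hN.gb i j hj
    have h2 := hN.ga j m hm
    have h3 := hz.1 m hm'
    omega
  · rw [Matrix.mulVec_mulVec, ← ba_comm hN, ← Matrix.mulVec_mulVec, hz.2, Matrix.mulVec_zero]

theorem cyG_pow (hN : NF L Xa Xb ∅ ε C a 0 b) {k : ℤ} {z : C.I → MonoidAlgebra R G}
    (hz : CyG C k z) (l : ℕ) : CyG C k ((b * a) ^ l *ᵥ z) := by
  induction l with
  | zero => rw [pow_zero, Matrix.one_mulVec]; exact hz
  | succ l ih =>
    rw [pow_succ', ← Matrix.mulVec_mulVec]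
    exact cyG_ba hN ih

omit [StarRing R] in
/-- the components of a cocycle over `R[G]` are cocycles. -/
theorem lres_cy {k : ℤ} {z : C.I → MonoidAlgebra R G} (hz : CyG C k z) (t : G) :
    (fun i => lres L t (z i)) ∈ C.Cy k := by
  refine ⟨fun i hi => hz.1 i fun h0 => hi ?_, ?_⟩
  · show lres L t (z i) = 0
    rw [h0, RESAux.lres_zero]
  · funext i
    have h1 := congrArg (lres L t) (congrFun hz.2 i)
    have h2 : (C.d *ᵥ fun i => lres L t (z i)) i = lres L t ((ext C.d *ᵥ z) i) := by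
      simp only [mulVec, dotProduct]
      rw [RESAux.lres_sum]
      exact Finset.sum_congr rfl fun j _ => (RESAux.lres_emb_mul L t (z j) (C.d i j)).symm
    rw [h2, h1]
    exact RESAux.lres_zero L t

/-- `(b a)^l x` is supported in `Y`. -/
theorem supp_pow {g : G} {Y : Set G} (hL : Loc L g Xa Xb Y) (hN : NF L Xa Xb ∅ ε C a 0 b)
    (x : C.I → MonoidAlgebra R L) (l : ℕ) : SuppV Y ((b * a) ^ l *ᵥ exv (G := G) x) := by
  induction l with
  | zero =>
    rw [pow_zero, Matrix.one_mulVec]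
    intro i h hh
    have := hL.yl h (NLKAux.supp_exv x i h hh) 1 hL.y1
    rwa [mul_one] at this
  | succ l ih =>
    rw [pow_succ', ← Matrix.mulVec_mulVec]
    refine NLKAux.supp_mulVec (X := {z | ∃ u ∈ Xb, ∃ v ∈ Xa, z = u * v})
      (INDAux.supp_mul hN.sb hN.sa fun u hu v hv => ⟨u, hu, v, hv, rfl⟩) ih ?_
    rintro z ⟨u, hu, v, hv, rfl⟩ y hy
    exact hL.ya u hu v hv y hy

end

end STBAux

open STBAux in
/-- **STB**. -/
theorem specSTB (hSUB : SpecSUB) (hCMP : SpecCMP) (hSUM : SpecSUM) (hYGX : SpecYGX) : SpecSTB := by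
  intro R G _ _ _ L g Xa Xb Y hL ε hAR C a b k l hN hlv hlv' hPL
  obtain ⟨C1, a1, b1, q, hS⟩ := hSUB R G L Xa Xb ε hAR hL.bl hL.br hL.bi hL.bn C a b k hN hlv hlv'
  -- `q` is a map of complexes
  have hqx : ∀ x ∈ C1.Cy k, q *ᵥ x ∈ C.Cy k := by
    intro x hx
    refine ⟨fun i hi => ?_, ?_⟩
    · obtain ⟨j, hj, hj'⟩ := NLKAux.mulVec_ne hi
      rw [hS.gq i j hj]
      exact hx.1 j hj'
    · rw [Matrix.mulVec_mulVec, hS.ch, ← Matrix.mulVec_mulVec, hx.2, Matrix.mulVec_zero]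
  have hq1 : ext q * (b1 * a1) = (b * a) * ext q := by
    rw [hS.ea, ← hS.eb]
    simp only [Matrix.mul_assoc]
  have hqp : ∀ n : ℕ, ext q * (b1 * a1) ^ n = (b * a) ^ n * ext q := by
    intro n
    induction n with
    | zero => rw [pow_zero, pow_zero, Matrix.mul_one, Matrix.one_mul]
    | succ n ih =>
      rw [pow_succ, pow_succ, ← Matrix.mul_assoc, ih, Matrix.mul_assoc, hq1, ← Matrix.mul_assoc]
  have hqv : ∀ (n : ℕ) (x : C1.I → MonoidAlgebra R L),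
      ext q *ᵥ ((b1 * a1) ^ n *ᵥ exv x) = (b * a) ^ n *ᵥ exv (q *ᵥ x) := by
    intro n x
    rw [Matrix.mulVec_mulVec, hqp, ← Matrix.mulVec_mulVec, NLKAux.ext_exv]
  refine ⟨C1, a1, b1, hS.nf, hS.lv, hS.lv', ?_, ?_, hS.good⟩
  · intro x hx
    obtain ⟨h1, h2⟩ := cyG_pow hS.nf (cyG_exv (G := G) hx) (l + 1)
    refine hS.inj _ h1 h2 ?_
    rw [hqv]
    exact hPL _ (hqx x hx)
  · intro x hx
    set x' : C.I → MonoidAlgebra R G := (b * a) ^ l *ᵥ exv (q *ᵥ x) with hx'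
    have hcy : CyG C k x' := cyG_pow hN (cyG_exv (hqx x hx)) l
    have hsp : SuppV Y x' := supp_pow hL hN _ l
    have hstar : (ext q : Matrix C.I C1.I (MonoidAlgebra R G))ᴴ = ext qᴴ :=
      STKAux.conjTranspose_map_emb L q
    have hstar1 : (ext C1.d : Matrix C1.I C1.I (MonoidAlgebra R G))ᴴ = ext C1.dᴴ :=
      STKAux.conjTranspose_map_emb L C1.d
    have hba : ∃ u : C.I → MonoidAlgebra R G, (b * a) *ᵥ x' = ext C.d *ᵥ u := by
      obtain ⟨u, hu⟩ := hPL _ (hqx x hx)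
      refine ⟨u, ?_⟩
      rw [hx', Matrix.mulVec_mulVec, ← pow_succ', hu]
    have hcomp := hCMP R G L {z | ∃ u ∈ Xb, ∃ v ∈ Xa, z = u * v} Y
      (by
        rintro h hh z ⟨u, hu, v, hv, rfl⟩
        exact ⟨h * u, hL.bl h hh u hu, v, hv, (mul_assoc _ _ _).symm⟩)
      (by
        rintro h hh z ⟨u, hu, v, hv, rfl⟩
        exact ⟨u, hu, v * h, hL.ar h hh v hv, mul_assoc _ _ _⟩)
      hL.yl
      (by
        rintro z ⟨u, hu, v, hv, rfl⟩ z' ⟨u', hu', v', hv', rfl⟩ y hy y' hy' he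
        have h1 := hL.dj u hu u' hu' v hv v' hv' y hy y' hy' he
        have h2 : (u * v)⁻¹ * (u' * v') = (y' * y⁻¹)⁻¹ := by
          have h3 : (y' * y⁻¹)⁻¹ = y * y'⁻¹ := by group
          rw [h3, inv_mul_eq_iff_eq_mul, ← mul_assoc, eq_mul_inv_iff_mul_eq]
          exact he.symm
        rw [h2]
        exact L.inv_mem h1)
      C.I C.I C.I C.d (b * a) x'
      (INDAux.supp_mul hN.sb hN.sa fun u hu v hv => ⟨u, hu, v, hv, rfl⟩) hsp hba
    obtain ⟨u, hu⟩ := hSUM R G L C1.I C.I C1.I C1.dᴴ ((ext q)ᴴ * a) x' (by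
      intro t
      obtain ⟨ut, hut⟩ := hcomp t
      have hxt := lres_cy hcy t
      set xt : C.I → MonoidAlgebra R L := fun i => lres L t (x' i) with hxtdef
      obtain ⟨y0, hy0, hya0⟩ := (hYGX R G L g Xa Xb Y hL).1 ε C a b k hN xt hxt
      suffices key : ∀ y : C.I → MonoidAlgebra R L, y ∈ C.dual.Cy k →
          (∀ i, (a *ᵥ exv xt) i = exv (G := G) y i * MonoidAlgebra.single g (1 : R)) →
          ∃ u : C1.I → MonoidAlgebra R G, ((ext q)ᴴ * a) *ᵥ exv xt = ext C1.dᴴ *ᵥ u from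
        key y0 hy0 hya0
      intro y hy hya
      have hya' : a *ᵥ exv xt =
          fun i => exv (G := G) y i * MonoidAlgebra.single g (1 : R) := funext hya
      have hby : ∃ u : C.I → MonoidAlgebra R G, b *ᵥ exv y = ext C.d *ᵥ u := by
        refine ⟨fun j => ut j * MonoidAlgebra.single g⁻¹ (1 : R), ?_⟩
        rw [PRGAux.mulVec_mul_right, ← hut, ← Matrix.mulVec_mulVec, hya',
          PRGAux.mulVec_mul_right]
        funext i
        rw [mul_assoc, MonoidAlgebra.single_mul_single, mul_inv_cancel, mul_one,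
          ← MonoidAlgebra.one_def, mul_one]
      obtain ⟨u', hu'⟩ : ∃ u' : C1.I → MonoidAlgebra R L, qᴴ *ᵥ y = C1.dᴴ *ᵥ u' :=
        hS.kill y hy hby
      refine ⟨fun j => exv (G := G) u' j * MonoidAlgebra.single g (1 : R), ?_⟩
      rw [← Matrix.mulVec_mulVec, hya', PRGAux.mulVec_mul_right, PRGAux.mulVec_mul_right, hstar,
        NLKAux.ext_exv, NLKAux.ext_exv, hu'])
    refine ⟨u, ?_⟩
    have h1 : a1 *ᵥ ((b1 * a1) ^ l *ᵥ exv x) = ((ext q)ᴴ * a) *ᵥ x' := by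
      rw [hx', ← hqv, hS.ea]
      simp only [Matrix.mulVec_mulVec, Matrix.mul_assoc]
    rw [h1, hu, hstar1]

end Pool.Agent.Lib.MP8a3537.RO
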