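import Pool.Agent.Lib.MP_8a3537_gt.RO.Spec
import Pool.Agent.Lib.MP_8a3537_gt.UV.RES

/-!
# SUM: boundaries from the components (helper80)
-/

namespace Pool.Agent.Lib.MP8a3537.RO

open Matrix Pool.Agent.Lib.MP8a3537.UV Pool.Agent.Lib.MP8a3537.AU
open Pool.Agent.Lib.MP8a3537.UO (ext)

theorem specSUM : SpecSUM := by
  intro R G _ _ L m n k _ _ _ D M x1 h
  classical
  obtain ⟨Q, hQ⟩ := RESAux.exists_lcosets L (fun (i : n) (_ : Unit) => x1 i)
  choose u hu using h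
  refine ⟨fun j => ∑ q ∈ Q, u (q.out)⁻¹ j * MonoidAlgebra.single (q.out)⁻¹ 1, ?_⟩
  funext i
  have hd : ∀ j, x1 j = ∑ q ∈ Q, emb R L (lres L (q.out)⁻¹ (x1 j)) *
      MonoidAlgebra.single (q.out)⁻¹ 1 := fun j =>
    RESAux.ldecomp L (x1 j) Q (fun g hg => hQ j () g hg)
  have h1 : (M *ᵥ x1) i = ∑ q ∈ Q, (M *ᵥ exv (fun j => lres L (q.out)⁻¹ (x1 j))) i *
      MonoidAlgebra.single (q.out)⁻¹ 1 := by
    simp only [Matrix.mulVec, dotProduct, Finset.sum_mul]
    rw [Finset.sum_comm]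
    refine Finset.sum_congr rfl fun j _ => ?_
    conv_lhs => rw [hd j, Finset.mul_sum]
    refine Finset.sum_congr rfl fun q _ => ?_
    rw [mul_assoc]
    rfl
  rw [h1]
  simp only [hu]
  simp only [Matrix.mulVec, dotProduct, Finset.sum_mul, Finset.mul_sum]
  rw [Finset.sum_comm]
  refine Finset.sum_congr rfl fun j _ => Finset.sum_congr rfl fun q _ => ?_
  rw [mul_assoc]

end Pool.Agent.Lib.MP8a3537.RO
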