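import Pool.Agent.Lib.MP_8a3537_gt.RO.Spec
import Pool.Agent.Lib.MP_8a3537_gt.AU.SWA

/-!
# RO, module SWB: the exchange, for a single block
-/

namespace Pool.Agent.Lib.MP8a3537.RO

open Matrix Pool.Agent.Lib.MP8a3537.UV Pool.Agent.Lib.MP8a3537.AU
open Pool.Agent.Lib.MP8a3537.UO (ext)

theorem specSWB : SpecSWB := by
  intro R G _ _ _ L Xa Xb ε C a b h
  obtain ⟨h1, -, h3⟩ := specSWA R G L Xa Xb ∅ ε C a 0 b h
  have e1 : Xinv (∅ : Set G) = ∅ := by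
    ext x
    simp [Xinv]
  have e2 : (0 : Matrix C.I C.I (MonoidAlgebra R G))ᴴ = 0 := conjTranspose_zero
  rw [e1] at h1
  have k1 : ∀ μ : Matrix C.I C.I (MonoidAlgebra R G), μ = 0 →
      NF L Xb Xa ∅ ε C.dual b μ a → NF L Xb Xa ∅ ε C.dual b 0 a := by
    rintro _ rfl h
    exact h
  have k3 : ∀ μ : Matrix C.I C.I (MonoidAlgebra R G), μ = 0 →
      (Good Xb Xa ε C.dual b μ a → Good Xa Xb ε C a 0 b) →
      Good Xb Xa ε C.dual b 0 a → Good Xa Xb ε C a 0 b := by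
    rintro _ rfl h
    exact h
  exact ⟨k1 _ e2 h1, k3 _ e2 h3⟩

end Pool.Agent.Lib.MP8a3537.RO
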