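import Pool.Agent.Lib.MP_8a3537_gt.RO.Spec

/-!
# WDA: words
-/

namespace Pool.Agent.Lib.MP8a3537.RO

open Matrix Pool.Agent.Lib.MP8a3537.UV Pool.Agent.Lib.MP8a3537.AU
open Pool.Agent.Lib.MP8a3537.UO (ext)

namespace WDAAux

variable {G : Type} [Group G] {H : Subgroup G} {X1 X2 X3 Yp Ym X1' : Set G}

theorem biX (U : SpecUNQ) (S : Sub1 H X1 X2 X3 Yp Ym X1') :
    ∀ s r, Bi H (XX X1' X2 X3 s r) := by
  have h := (U G H X1 X2 X3 Yp Ym S.pp).2.2.1
  intro s r
  cases s <;> cases r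
  · exact h false false
  · exact S.bi
  · exact h true false
  · exact h true true

theorem subX (S : Sub1 H X1 X2 X3 Yp Ym X1') :
    ∀ s r, XX X1' X2 X3 s r ⊆ XX X1 X2 X3 s r := by
  intro s r
  cases s <;> cases r
  · exact subset_rfl
  · exact S.sub
  · exact subset_rfl
  · exact subset_rfl

theorem invX (S : Sub1 H X1 X2 X3 Yp Ym X1') :
    ∀ s r x, x ∈ XX X1' X2 X3 s r → x⁻¹ ∈ XX X1' X2 X3 (!r) (!s) := by
  intro s r x hx
  cases s <;> cases r
  · exact hx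
  · exact S.inv x hx
  · exact S.pp.X2i x hx
  · change x⁻¹⁻¹ ∈ X3
    rw [inv_inv]
    exact hx

theorem lmul (U : SpecUNQ) (S : Sub1 H X1 X2 X3 Yp Ym X1') {k : ℕ} {s t : Bool} {z h : G}
    (hh : h ∈ H) (hz : Wd H X1' X2 X3 k s t z) : Wd H X1' X2 X3 k s t (h * z) := by
  cases hz with
  | base hz => exact .base (H.mul_mem hh hz)
  | cons hx hz =>
    rw [← mul_assoc]
    exact .cons ((biX U S _ _).1 h hh _ hx) hz

theorem rmul {k : ℕ} {s t : Bool} {z h : G}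
    (hh : h ∈ H) (hz : Wd H X1' X2 X3 k s t z) : Wd H X1' X2 X3 k s t (z * h) := by
  induction hz with
  | base hz => exact .base (H.mul_mem hz hh)
  | cons hx hz ih =>
    rw [mul_assoc]
    exact .cons hx ih

theorem mul (U : SpecUNQ) (S : Sub1 H X1 X2 X3 Yp Ym X1') {k l : ℕ} {s r t : Bool} {z z' : G}
    (hz : Wd H X1' X2 X3 k s r z) (hz' : Wd H X1' X2 X3 l r t z') :
    Wd H X1' X2 X3 (k + l) s t (z * z') := by
  induction hz with
  | base hh =>
    rw [Nat.zero_add]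
    exact lmul U S hh hz'
  | @cons k s r t x z hx hz ih =>
    rw [mul_assoc, Nat.add_right_comm]
    exact .cons hx (ih hz')

theorem letter {s t : Bool} {x : G} (hx : x ∈ XX X1' X2 X3 s t) :
    Wd H X1' X2 X3 1 s t x := by
  have h := Wd.cons (H := H) (k := 0) hx (.base H.one_mem)
  rwa [mul_one] at h

theorem inv (U : SpecUNQ) (S : Sub1 H X1 X2 X3 Yp Ym X1') {k : ℕ} {s t : Bool} {z : G}
    (hz : Wd H X1' X2 X3 k s t z) : Wd H X1' X2 X3 k (!t) (!s) z⁻¹ := by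
  induction hz with
  | base hh => exact .base (H.inv_mem hh)
  | @cons k s r t x z hx hz ih =>
    rw [_root_.mul_inv_rev]
    exact mul U S ih (letter (invX S _ _ _ hx))

theorem act (U : SpecUNQ) (S : Sub1 H X1 X2 X3 Yp Ym X1') {k : ℕ} {s t : Bool} {z : G}
    (hz : Wd H X1' X2 X3 k s t z) : ∀ y ∈ YB Yp Ym t, z * y ∈ YB Yp Ym s := by
  obtain ⟨h1, -, -, h4⟩ := U G H X1 X2 X3 Yp Ym S.pp
  induction hz with
  | base hh => exact fun y hy => (h4 _).2 _ hh y hy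
  | @cons k s r t x z hx hz ih =>
    intro y hy
    rw [mul_assoc]
    exact h1 _ _ _ _ (subX S _ _ hx) (ih y hy)

end WDAAux

theorem specWDA (h : SpecUNQ) : SpecWDA := by
  intro G _ H X1 X2 X3 Yp Ym X1' S
  refine ⟨fun k s t z h' hh hz => ⟨WDAAux.lmul h S hh hz, WDAAux.rmul hh hz⟩,
    fun k l s r t z z' hz hz' => WDAAux.mul h S hz hz', fun k s t z hz => WDAAux.inv h S hz,
    fun k s t z y hz hy => WDAAux.act h S hz y hy,
    fun s t x hx => ⟨WDAAux.letter hx, WDAAux.invX S s t x hx⟩⟩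

end Pool.Agent.Lib.MP8a3537.RO
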