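import Pool.Agent.Lib.MP_8a3537_gt.RO.Spec

/-!
# WNI: no word from `s'` to `s` is its own inverse
-/

namespace Pool.Agent.Lib.MP8a3537.RO

open Matrix Pool.Agent.Lib.MP8a3537.UV Pool.Agent.Lib.MP8a3537.AU

namespace WNIAux

variable {G : Type} [Group G]

theorem XX_mono {X1 X1' X2 X3 : Set G} (h : X1' ⊆ X1) (s r : Bool) (x : G)
    (hx : x ∈ XX X1' X2 X3 s r) : x ∈ XX X1 X2 X3 s r := by
  cases s <;> cases r
  · exact hx
  · exact h hx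
  · exact hx
  · exact hx

/-- Words of length zero. -/
theorem wd_zero {H : Subgroup G} {X1 X2 X3 : Set G} {s t : Bool} {z : G}
    (h : Wd H X1 X2 X3 0 s t z) : s = t ∧ z ∈ H := by
  cases h with
  | base hh => exact ⟨rfl, hh⟩

/-- Words of positive length, first letter. -/
theorem wd_succ {H : Subgroup G} {X1 X2 X3 : Set G} {k : ℕ} {s t : Bool} {z : G}
    (h : Wd H X1 X2 X3 (k + 1) s t z) :
    ∃ r x z1, x ∈ XX X1 X2 X3 s r ∧ Wd H X1 X2 X3 k r t z1 ∧ z = x * z1 := by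
  cases h with
  | cons hx hz => exact ⟨_, _, _, hx, hz, rfl⟩

/-- Words of positive length, last letter. -/
theorem wd_last {H : Subgroup G} {X1 X2 X3 : Set G}
    (hr : ∀ s t, ∀ h ∈ H, ∀ x ∈ XX X1 X2 X3 s t, x * h ∈ XX X1 X2 X3 s t) (k : ℕ) :
    ∀ (s t : Bool) (z : G), Wd H X1 X2 X3 (k + 1) s t z →
    ∃ q z2 y, Wd H X1 X2 X3 k s q z2 ∧ y ∈ XX X1 X2 X3 q t ∧ z = z2 * y := by
  induction k with
  | zero =>
    intro s t z h
    obtain ⟨r, x, z1, hx, hz1, rfl⟩ := wd_succ h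
    obtain ⟨rfl, hH⟩ := wd_zero hz1
    exact ⟨s, 1, x * z1, Wd.base H.one_mem, hr _ _ _ hH _ hx, by rw [one_mul]⟩
  | succ k ih =>
    intro s t z h
    obtain ⟨r, x, z1, hx, hz1, rfl⟩ := wd_succ h
    obtain ⟨q, z2, y, hz2, hy, rfl⟩ := ih _ _ _ hz1
    exact ⟨q, x * z2, y, Wd.cons hx hz2, hy, by rw [mul_assoc]⟩

end WNIAux

open WNIAux in
theorem specWNI (hUNQ : SpecUNQ) (hWDA : SpecWDA) : SpecWNI := by
  intro G _ H X1 X2 X3 Yp Ym X1' hS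
  obtain ⟨-, hu2, -, hu4⟩ := hUNQ G H X1 X2 X3 Yp Ym hS.pp
  obtain ⟨hw1, hw2, hw3, hw4, hw5⟩ := hWDA G H X1 X2 X3 Yp Ym X1' hS
  have hr : ∀ s t, ∀ h ∈ H, ∀ x ∈ XX X1' X2 X3 s t, x * h ∈ XX X1' X2 X3 s t := by
    intro s t h hh x hx
    cases s <;> cases t
    · -- Xinv X3
      change (x * h)⁻¹ ∈ X3
      rw [_root_.mul_inv_rev]
      exact hS.pp.X3l _ (H.inv_mem hh) _ hx
    · exact hS.bi.2 h hh x hx
    · exact hS.pp.X2r h hh x hx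
    · exact hS.pp.X3r h hh x hx
  intro k
  induction k using Nat.strong_induction_on with
  | _ k ih =>
  intro s z hz hzz
  match k, ih, hz with
  | 0, _, hz =>
    obtain ⟨h, -⟩ := wd_zero hz
    cases s <;> exact Bool.noConfusion h
  | 1, _, hz =>
    obtain ⟨r, x, z1, hx, hz1, rfl⟩ := wd_succ hz
    obtain ⟨rfl, hH⟩ := wd_zero hz1
    have hx' := hr _ _ _ hH _ hx
    have hinv : (x * z1)⁻¹ = x * z1 := inv_eq_of_mul_eq_one_right hzz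
    cases s
    · exact hS.pp.X1n _ (hS.sub hx') hinv
    · exact hS.pp.X2n _ hx' hinv
  | m + 2, ih, hz =>
    obtain ⟨r, x, z1, hx, hz1, rfl⟩ := wd_succ hz
    obtain ⟨q, z2, y, hz2, hy, rfl⟩ := wd_last hr _ _ _ _ hz1
    -- the inverse word
    have hinv : (x * (z2 * y))⁻¹ = x * (z2 * y) := inv_eq_of_mul_eq_one_right hzz
    have hy' := (hw5 _ _ _ hy).2
    rw [Bool.not_not] at hy'
    have hx' := (hw5 _ _ _ hx).2
    have hw := hw2 _ _ _ _ _ _ _ (hw3 _ _ _ _ hz2) (hw5 _ _ _ hx').1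
    have h1 : z2 * y ∈ YB Yp Ym r := by
      have := hw4 _ _ _ _ 1 hz1 (hu4 _).1
      rwa [mul_one] at this
    have h2 : z2⁻¹ * x⁻¹ ∈ YB Yp Ym (!q) := by
      have := hw4 _ _ _ _ 1 hw (hu4 _).1
      rwa [mul_one] at this
    obtain ⟨hrq, hh⟩ := hu2 s r (!q) x (z2 * y) y⁻¹ (z2⁻¹ * x⁻¹) (XX_mono hS.sub _ _ _ hx) h1
      (XX_mono hS.sub _ _ _ hy') h2 (by
        rw [← hinv]; group)
    have hword := (hw1 _ _ _ _ _ (H.inv_mem hh) hz2).2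
    have hq : q = !r := by rw [hrq, Bool.not_not]
    rw [hq] at hword
    refine ih m (by omega) r _ hword ?_
    -- `(z2 h⁻¹)² = 1`, `h = x⁻¹ y⁻¹`
    have e : (z2 * (x⁻¹ * y⁻¹)⁻¹) * (z2 * (x⁻¹ * y⁻¹)⁻¹) =
        x⁻¹ * ((x * (z2 * y)) * (x * (z2 * y))) * x := by group
    rw [e, hzz]
    group

end Pool.Agent.Lib.MP8a3537.RO
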