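import Pool.Agent.Lib.MP_8a3537_gt.RO.Spec
import Pool.Agent.Lib.MP_8a3537_gt.UV.RES

/-!
# YGX: `a x = y g` (MP_8a3537_gt, folder RO)
-/

namespace Pool.Agent.Lib.MP8a3537.RO

open Matrix Pool.Agent.Lib.MP8a3537.UV Pool.Agent.Lib.MP8a3537.AU
open Pool.Agent.Lib.MP8a3537.UO (ext)

namespace YGXM

section Gen

variable {R G : Type} [Ring R] [Group G] {L : Subgroup G}

theorem supp_mul_emb (X : Set G) (hX : ∀ l ∈ L, ∀ x ∈ X, x * l ∈ X) (z : MonoidAlgebra R G)
    (hz : ∀ g, z.coeff g ≠ 0 → g ∈ X) (s : MonoidAlgebra R L) :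
    ∀ g, (z * emb R L s).coeff g ≠ 0 → g ∈ X := by
  induction s using MonoidAlgebra.induction_linear with
  | zero =>
    intro g hg
    exact absurd (by simp) hg
  | add s t hs ht =>
    intro g hg
    rw [map_add, mul_add, MonoidAlgebra.coeff_add, Finsupp.add_apply] at hg
    by_cases h1 : (z * emb R L s).coeff g = 0
    · rw [h1, zero_add] at hg
      exact ht g hg
    · exact hs g h1
  | single h r =>
    intro g hg
    rw [RESAux.emb_single, MonoidAlgebra.coeff_mul_single_apply] at hg
    have h1 : z.coeff (g * (h : G)⁻¹) ≠ 0 := by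
      intro h0
      apply hg
      rw [h0, zero_mul]
    have h2 := hX h h.2 _ (hz _ h1)
    simpa using h2

theorem supp_mulVec {m n : Type} [Fintype n] (X : Set G) (hX : ∀ l ∈ L, ∀ x ∈ X, x * l ∈ X)
    (a : Matrix m n (MonoidAlgebra R G)) (ha : SuppIn X a) (x : n → MonoidAlgebra R L) (i : m) :
    ∀ g, ((a *ᵥ exv x) i).coeff g ≠ 0 → g ∈ X := by
  classical
  have key : ∀ S : Finset n, ∀ g, (∑ j ∈ S, a i j * emb R L (x j)).coeff g ≠ 0 → g ∈ X := by
    intro S
    induction S using Finset.induction_on with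
    | empty =>
      intro g hg
      exact absurd (by simp) hg
    | insert j S hj ih =>
      intro g hg
      rw [Finset.sum_insert hj, MonoidAlgebra.coeff_add, Finsupp.add_apply] at hg
      by_cases h1 : (a i j * emb R L (x j)).coeff g = 0
      · rw [h1, zero_add] at hg
        exact ih g hg
      · exact supp_mul_emb X hX (a i j) (ha i j) (x j) g h1
  exact key Finset.univ

theorem decomp_single (g0 : G) (z : MonoidAlgebra R G)
    (hz : ∀ g, z.coeff g ≠ 0 → ∃ l ∈ L, g = l * g0) :
    z = emb R L (lres L g0 z) * MonoidAlgebra.single g0 1 := by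
  ext g
  rw [MonoidAlgebra.coeff_mul_single_apply, mul_one]
  by_cases hm : g * g0⁻¹ ∈ L
  · have h1 := RESAux.emb_coeff_mem L (lres L g0 z) ⟨_, hm⟩
    rw [lres_coeff] at h1
    simp only [inv_mul_cancel_right] at h1
    exact h1.symm
  · rw [RESAux.emb_coeff_not_mem L _ _ hm]
    by_contra hc
    obtain ⟨l, hl, he⟩ := hz g hc
    apply hm
    rw [he]
    simpa using hl

theorem exv_inj {n : Type} (x : n → MonoidAlgebra R L) (h : exv (G := G) x = 0) : x = 0 := by
  funext i
  have h1 : emb R L (x i) = 0 := congrFun h i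
  ext l
  have h2 := RESAux.emb_coeff_mem L (x i) l
  rw [h1] at h2
  simpa using h2.symm

theorem exv_mulVec {m n : Type} [Fintype n] (M : Matrix m n (MonoidAlgebra R L))
    (x : n → MonoidAlgebra R L) : exv (G := G) (M *ᵥ x) = ext M *ᵥ exv x := by
  funext i
  change emb R L (∑ j, M i j * x j) = ∑ j, emb R L (M i j) * emb R L (x j)
  rw [map_sum]
  exact Finset.sum_congr rfl fun j _ => map_mul _ _ _

end Gen

section Star

variable {R G : Type} [Ring R] [StarRing R] [Group G]

theorem star_ext (L : Subgroup G) (s : MonoidAlgebra R L) :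
    star (emb R L s) = emb R L (star s) := by
  induction s using MonoidAlgebra.induction_linear with
  | zero => simp
  | add f g hf hg => simp only [map_add, star_add, hf, hg]
  | single a r =>
    rw [star_single]
    simp only [MonoidAlgebra.mapDomainRingHom_apply, MonoidAlgebra.mapDomain_single, star_single]
    simp

theorem ext_conj {L : Subgroup G} {m n : Type} (M : Matrix m n (MonoidAlgebra R L)) :
    (ext Mᴴ : Matrix n m (MonoidAlgebra R G)) = (ext M)ᴴ := by
  refine Matrix.ext fun i j => ?_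
  exact (star_ext L (M j i)).symm

end Star

end YGXM

theorem specYGX : SpecYGX := by
  intro R G _ _ _ L g Xa Xb Y hL
  have part2 : ∀ (m n : Type) [Fintype n] (a : Matrix m n (MonoidAlgebra R G))
      (x : n → MonoidAlgebra R L), SuppIn Xa a → ∀ i,
        (a *ᵥ exv x) i = exv (G := G) (fun i => lres L g ((a *ᵥ exv x) i)) i *
          MonoidAlgebra.single g 1 := by
    intro m n _ a x ha i
    exact YGXM.decomp_single g _ fun g' hg' =>
      (hL.ag g').1 (YGXM.supp_mulVec Xa hL.ar a ha x i g' hg')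
  refine ⟨?_, fun m n _ a x ha => ⟨_, part2 m n a x ha⟩⟩
  intro ε C a b k hN x hx
  have h2 := part2 C.I C.I a x hN.sa
  set y : C.I → MonoidAlgebra R L := fun i => lres L g ((a *ᵥ exv x) i) with hy
  refine ⟨y, ⟨?_, ?_⟩, h2⟩
  · intro i hi
    change - C.deg i = k
    have h3 : (a *ᵥ exv x) i ≠ 0 := by
      intro h0
      apply hi
      rw [hy]
      simp only [h0]
      exact RESAux.lres_zero L g
    have h4 : ∃ j, a i j * exv (G := G) x j ≠ 0 := by
      by_contra hc
      push Not at hc
      exact h3 (Finset.sum_eq_zero fun j _ => hc j)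
    obtain ⟨j, hj⟩ := h4
    have h5 : a i j ≠ 0 := left_ne_zero_of_mul hj
    have h6 : x j ≠ 0 := by
      intro h0
      apply right_ne_zero_of_mul hj
      change emb R L (x j) = 0
      rw [h0, map_zero]
    have h7 := hN.ga i j h5
    have h8 := hx.1 j h6
    omega
  · change C.dᴴ *ᵥ y = 0
    apply YGXM.exv_inj (G := G)
    rw [YGXM.exv_mulVec, YGXM.ext_conj]
    have h3 : (ext C.d)ᴴ *ᵥ (a *ᵥ exv (G := G) x) = 0 := by
      rw [mulVec_mulVec, ← hN.ca, ← mulVec_mulVec, ← YGXM.exv_mulVec, hx.2]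
      have h0 : exv (G := G) (0 : C.I → MonoidAlgebra R L) = 0 := by
        funext i
        exact map_zero (MonoidAlgebra.mapDomainRingHom R L.subtype)
      rw [h0, mulVec_zero]
    have h4 : ∀ i, (((ext C.d)ᴴ *ᵥ exv (G := G) y) i) * MonoidAlgebra.single g (1 : R) = 0 := by
      intro i
      have h5 := congrFun h3 i
      change ∑ j, (ext C.d)ᴴ i j * (a *ᵥ exv (G := G) x) j = 0 at h5
      change (∑ j, (ext C.d)ᴴ i j * exv (G := G) y j) * MonoidAlgebra.single g (1 : R) = 0
      rw [Finset.sum_mul, ← h5]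
      refine Finset.sum_congr rfl fun j _ => ?_
      rw [h2 j, mul_assoc]
    funext i
    have h6 := congrArg (fun z => z * MonoidAlgebra.single g⁻¹ (1 : R)) (h4 i)
    simp only [mul_assoc, MonoidAlgebra.single_mul_single, mul_inv_cancel, mul_one, zero_mul] at h6
    rw [← MonoidAlgebra.one_def, mul_one] at h6
    exact h6

end Pool.Agent.Lib.MP8a3537.RO
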