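import Pool.Agent.Lib.MP_8a3537_gt.RO.Spec
import Pool.Agent.Lib.MP_8a3537_gt.UV.SWP
import Pool.Agent.Lib.MP_8a3537_gt.UV.IND

/-!
# RO, module ROT: the induction on the number of flips
-/

namespace Pool.Agent.Lib.MP8a3537.RO

open Matrix Pool.Agent.Lib.MP8a3537.UV Pool.Agent.Lib.MP8a3537.AU
open Pool.Agent.Lib.MP8a3537.UO (ext)

namespace ROTAux

theorem ppx_swap {G : Type} [Group G] {H : Subgroup G} {X1 X2 X3 Yp Ym : Set G}
    (P : PingPongX H X1 X2 X3 Yp Ym) : PingPongX H X2 X1 (Xinv X3) Ym Yp :=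
  { toPingPong := INDAux.pp_swap P.toPingPong
    m1 := P.m2
    m2 := P.m1
    n1 := P.n2
    n2 := P.n1 }

/-- A flip in the double coset with square in `H`. -/
theorem exists_flip {G : Type} [Group G] {H : Subgroup G} {x : G} (hx : Flip H x) :
    ∃ h ∈ H, (x * h) * (x * h) ∈ H ∧ x ∈ dc H (x * h) := by
  obtain ⟨h, hh, h', hh', he⟩ := hx
  refine ⟨h, hh, ?_, 1, H.one_mem, h⁻¹, H.inv_mem hh, by group⟩
  have h1 : x * h * (x * h) = h'⁻¹ * h := by
    have h2 : h * x = x⁻¹ * h'⁻¹ := by rw [he]; group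
    calc x * h * (x * h) = x * (h * x) * h := by group
      _ = x * (x⁻¹ * h'⁻¹) * h := by rw [h2]
      _ = h'⁻¹ * h := by group
  rw [h1]
  exact H.mul_mem (H.inv_mem hh') hh

section Measure

variable {R G : Type} [Ring R] [Group G]

open Classical in
/-- The number of flips in the supports of the entries. -/
noncomputable def fl (H : Subgroup G) {n : ℕ} (M : Matrix (Fin n) (Fin n) (MonoidAlgebra R G)) :
    ℕ :=
  ∑ i, ∑ j, ((M i j).coeff.support.filter fun x => Flip H x).card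

theorem supp_cut {X W : Set G} {n : ℕ} {M : Matrix (Fin n) (Fin n) (MonoidAlgebra R G)}
    (hM : SuppIn X M) : SuppIn X (cutM W M) := by
  intro i j g hg
  apply hM i j g
  intro h
  apply hg
  show (cut W (M i j)).coeff g = 0
  rw [cut_coeff, h, ite_self]

theorem fl_cut_lt (H : Subgroup G) {n : ℕ} (M : Matrix (Fin n) (Fin n) (MonoidAlgebra R G))
    (W : Set G) {i j : Fin n} {x : G} (hx : (M i j).coeff x ≠ 0) (hf : Flip H x) (hW : x ∉ W) :
    fl H (cutM W M) < fl H M := by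
  classical
  have hsub : ∀ a b, (((cutM W M) a b).coeff.support.filter fun x => Flip H x) ⊆
      ((M a b).coeff.support.filter fun x => Flip H x) := by
    intro a b y hy
    rw [Finset.mem_filter, Finsupp.mem_support_iff] at hy ⊢
    refine ⟨fun h => hy.1 ?_, hy.2⟩
    show (cut W (M a b)).coeff y = 0
    rw [cut_coeff, h, ite_self]
  have hle : ∀ a b, (((cutM W M) a b).coeff.support.filter fun x => Flip H x).card ≤
      ((M a b).coeff.support.filter fun x => Flip H x).card := fun a b =>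
    Finset.card_le_card (hsub a b)
  unfold fl
  refine Finset.sum_lt_sum (fun a _ => Finset.sum_le_sum fun b _ => ?_) ⟨i, Finset.mem_univ i, ?_⟩
  · convert hle a b
  · refine Finset.sum_lt_sum (fun b _ => ?_) ⟨j, Finset.mem_univ j, ?_⟩
    · convert hle i b
    · have hlt : (((cutM W M) i j).coeff.support.filter fun x => Flip H x).card <
          ((M i j).coeff.support.filter fun x => Flip H x).card := by
        refine Finset.card_lt_card ((Finset.ssubset_iff_of_subset (hsub i j)).mpr ⟨x, ?_, ?_⟩)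
        · rw [Finset.mem_filter, Finsupp.mem_support_iff]
          exact ⟨hx, hf⟩
        · rw [Finset.mem_filter, Finsupp.mem_support_iff]
          rintro ⟨h1, -⟩
          apply h1
          show (cut W (M i j)).coeff x = 0
          rw [cut_coeff, if_neg hW]
      convert hlt

end Measure

/-- One elimination. -/
theorem half (hLOC : SpecLOC) (hELM : SpecELM) (hSBT : SpecSBT) (hSBF : SpecSBF) {R G : Type}
    [Ring R] [StarRing R] [Group G] {H : Subgroup G} {X1 X2 X3 Yp Ym : Set G}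
    (P : PingPongX H X1 X2 X3 Yp Ym)
    (hyp : ∀ g : G, g ∈ X1 ∨ g ∈ X2 → g * g ∈ H →
      AuslanderRegular (MonoidAlgebra R (Kg H g)) ∨ FP (MonoidAlgebra R (Kg H g)))
    (ε : ℤˣ) (n : ℕ) (ψ μ χ : Matrix (Fin n) (Fin n) (MonoidAlgebra R G)) (hψ : SuppIn X1 ψ)
    (hμ : SuppIn X3 μ) (hχ : SuppIn X2 χ)
    (hnil : IsNilpotent (nu ε (ψ + (ε : ℤ) • ψᴴ) μ (χ + (ε : ℤ) • χᴴ)))
    {i j : Fin n} {x : G} (hx : (ψ i j).coeff x ≠ 0) (hf : Flip H x)
    (ih : ∀ ψ0 : Matrix (Fin n) (Fin n) (MonoidAlgebra R G), SuppIn X1 ψ0 →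
      IsNilpotent (nu ε (ψ0 + (ε : ℤ) • ψ0ᴴ) μ (χ + (ε : ℤ) • χᴴ)) → fl H ψ0 < fl H ψ →
      StablyHyperbolic ε (UF ψ0 μ χ)) : StablyHyperbolic ε (UF ψ μ χ) := by
  obtain ⟨h, hh, hgg, hxd⟩ := exists_flip hf
  have hxX : x ∈ X1 := hψ i j x hx
  have hgX : x * h ∈ X1 := P.X1r h hh x hxX
  obtain ⟨hS, hL⟩ := hLOC G H X1 X2 X3 Yp Ym P (x * h) hgX hgg
  have hB : Blk R {y | ∃ l ∈ Kg H (x * h), y = l * (x * h)}
      (WS H {y | y ∈ X1 ∧ y ∉ dc H (x * h)} X2 X3 true false) := by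
    rcases hyp (x * h) (Or.inl hgX) hgg with hA | hF
    · exact hSBT R G (Kg H (x * h)) (x * h) _ _ Yp hL hA
    · exact hSBF R G (Kg H (x * h)) (x * h) _ _ Yp hL hF
  obtain ⟨h1, h2⟩ := hELM R G H X1 X2 X3 Yp Ym P.toPingPong ε n ψ μ χ hψ hμ hχ hnil (x * h) hgX
    hgg hS (fun r ψ' κ hψ' hκ hn => hB ε r ψ' κ hψ' hκ hn)
  apply h2
  exact ih _ (supp_cut hψ) h1 (fl_cut_lt H ψ _ hx hf (fun hc => hc hxd))

theorem main (hNWT : SpecNWT) (hLOC : SpecLOC) (hELM : SpecELM) (hSBT : SpecSBT)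
    (hSBF : SpecSBF) {R G : Type} [Ring R] [StarRing R] [Group G] {H : Subgroup G} (m : ℕ) :
    ∀ (X1 X2 X3 Yp Ym : Set G), PingPongX H X1 X2 X3 Yp Ym →
    (∀ g : G, g ∈ X1 ∨ g ∈ X2 → g * g ∈ H →
      AuslanderRegular (MonoidAlgebra R (Kg H g)) ∨ FP (MonoidAlgebra R (Kg H g))) →
    ∀ (ε : ℤˣ) (n : ℕ) (ψ μ χ : Matrix (Fin n) (Fin n) (MonoidAlgebra R G)), SuppIn X1 ψ →
    SuppIn X3 μ → SuppIn X2 χ →
    IsNilpotent (nu ε (ψ + (ε : ℤ) • ψᴴ) μ (χ + (ε : ℤ) • χᴴ)) → fl H ψ + fl H χ = m →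
    StablyHyperbolic ε (UF ψ μ χ) := by
  induction m using Nat.strong_induction_on with
  | _ m ih =>
    intro X1 X2 X3 Yp Ym P hyp ε n ψ μ χ hψ hμ hχ hnil hm
    by_cases h1 : ∀ i j x, (ψ i j).coeff x ≠ 0 → ¬ Flip H x
    · by_cases h2 : ∀ i j x, (χ i j).coeff x ≠ 0 → ¬ Flip H x
      · exact hNWT R G H X1 X2 X3 Yp Ym P.toPingPong ε n ψ μ χ hψ hμ hχ hnil h1 h2
      · push Not at h2
        obtain ⟨i, j, x, hx, hf⟩ := h2
        apply (specSwp (MonoidAlgebra R G) ε n ψ μ χ).1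
        have hμs : SuppIn (Xinv X3) μᴴ := INDAux.supp_star hμ (fun y hy => by
          change y⁻¹⁻¹ ∈ X3
          rw [inv_inv]
          exact hy)
        refine half hLOC hELM hSBT hSBF (ppx_swap P) (fun g hg => hyp g hg.symm) ε n χ μᴴ ψ hχ
          hμs hψ ?_ hx hf ?_
        · obtain ⟨l, hl⟩ := hnil
          exact ⟨l, INDAux.swap_zero ε _ _ _ l hl⟩
        · intro χ0 hχ0 hn0 hlt
          exact ih (fl H χ0 + fl H ψ) (by omega) X2 X1 (Xinv X3) Ym Yp (ppx_swap P)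
            (fun g hg => hyp g hg.symm) ε n χ0 μᴴ ψ hχ0 hμs hψ hn0 rfl
    · push Not at h1
      obtain ⟨i, j, x, hx, hf⟩ := h1
      refine half hLOC hELM hSBT hSBF P hyp ε n ψ μ χ hψ hμ hχ hnil hx hf ?_
      intro ψ0 hψ0 hn0 hlt
      exact ih (fl H ψ0 + fl H χ) (by omega) X1 X2 X3 Yp Ym P hyp ε n ψ0 μ χ hψ0 hμ hχ hn0 rfl

end ROTAux

/-- **Module ROT**: the theorem for ping-pong data. -/
theorem specROT (hNWT : SpecNWT) (hLOC : SpecLOC) (hELM : SpecELM) (hSBT : SpecSBT)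
    (hSBF : SpecSBF) : SpecROT := by
  intro R G _ _ _ H X1 X2 X3 Yp Ym P hyp ε n ψ μ χ hψ hμ hχ hnil
  exact ROTAux.main hNWT hLOC hELM hSBT hSBF _ X1 X2 X3 Yp Ym P hyp ε n ψ μ χ hψ hμ hχ hnil rfl

end Pool.Agent.Lib.MP8a3537.RO
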