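import Pool.Agent.Lib.MP_8a3537_gt.RO.Spec
import Pool.Agent.Lib.MP_8a3537_gt.UV.TRE

/-! Module TRX (helper32): the ping-pong data of an edge, with the extra properties. -/

namespace Pool.Agent.Lib.MP8a3537.RO

open Matrix Pool.Agent.Lib.MP8a3537.UV Pool.Agent.Lib.MP8a3537.AU

namespace TRXM

open Pool.Agent.Lib.MP8a3537.UV.TREAux

variable {G V : Type} [Group G] [MulAction G V] {T : SimpleGraph V} {v w : V}

theorem pingpong (hT : T.IsTree)
    (hG : ∀ (g : G) (x y : V), T.Adj x y → T.Adj (g • x) (g • y)) (ha : T.Adj v w)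
    (hinv : ∀ g : G, ¬ (g • v = w ∧ g • w = v))
    (htwo : ∀ g : G, g * g = 1 → (g • v = v ↔ g • w = w)) :
    PingPong (MulAction.stabilizer G v ⊓ MulAction.stabilizer G w)
      {g | g • v = v ∧ g • w ≠ w} {g | g • w = w ∧ g • v ≠ v} {g | g • v = w}
      (YY G T v w) (YY G T w v) := by
  have hinv' : ∀ g : G, ¬ (g • w = v ∧ g • v = w) := fun g h => hinv g ⟨h.2, h.1⟩
  have memH : ∀ h : G, h ∈ (MulAction.stabilizer G v ⊓ MulAction.stabilizer G w) ↔
      h • v = v ∧ h • w = w := fun h => by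
    rw [Subgroup.mem_inf, MulAction.mem_stabilizer_iff, MulAction.mem_stabilizer_iff]
  have memX : ∀ x : G, x ∈ Xinv {g : G | g • v = w} ↔ x • w = v := fun x => by
    change x⁻¹ • v = w ↔ x • w = v
    rw [inv_smul_eq_iff]
    exact eq_comm
  constructor
  · -- X1l
    intro h hh x hx
    rw [memH] at hh
    refine ⟨by rw [mul_smul, hx.1, hh.1], fun e => hx.2 ?_⟩
    rw [mul_smul] at e
    have := congrArg (fun z => h⁻¹ • z) e
    simp only [inv_smul_smul] at this
    rw [this, inv_smul_eq_iff, hh.2]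
  · -- X1r
    intro h hh x hx
    rw [memH] at hh
    exact ⟨by rw [mul_smul, hh.1, hx.1], by rw [mul_smul, hh.2]; exact hx.2⟩
  · -- X1i
    intro x hx
    exact ⟨by rw [inv_smul_eq_iff, hx.1], fun e => hx.2 (by rw [inv_smul_eq_iff] at e; exact e.symm)⟩
  · -- X1n
    intro x hx e
    have : x * x = 1 := by
      nth_rewrite 1 [← e]
      exact inv_mul_cancel x
    exact hx.2 ((htwo x this).mp hx.1)
  · intro h hh x hx
    rw [memH] at hh
    refine ⟨by rw [mul_smul, hx.1, hh.2], fun e => hx.2 ?_⟩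
    rw [mul_smul] at e
    have := congrArg (fun z => h⁻¹ • z) e
    simp only [inv_smul_smul] at this
    rw [this, inv_smul_eq_iff, hh.1]
  · intro h hh x hx
    rw [memH] at hh
    exact ⟨by rw [mul_smul, hh.2, hx.1], by rw [mul_smul, hh.1]; exact hx.2⟩
  · intro x hx
    exact ⟨by rw [inv_smul_eq_iff, hx.1], fun e => hx.2 (by rw [inv_smul_eq_iff] at e; exact e.symm)⟩
  · intro x hx e
    have : x * x = 1 := by
      nth_rewrite 1 [← e]
      exact inv_mul_cancel x
    exact hx.2 ((htwo x this).mpr hx.1)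
  · -- X3l
    intro h hh x hx
    rw [memH] at hh
    change (h * x) • v = w
    rw [mul_smul, show x • v = w from hx, hh.2]
  · intro h hh x hx
    rw [memH] at hh
    change (x * h) • v = w
    rw [mul_smul, hh.1]
    exact hx
  · exact YY_one ha
  · exact YY_one ha.symm
  · intro h hh y hy
    rw [memH] at hh
    exact YY_mul hT hG hh.1 hh.2 hy
  · intro h hh y hy
    rw [memH] at hh
    exact YY_mul hT hG hh.2 hh.1 hy
  · intro x hx y hy
    exact F_Y hT hG ha hx hy
  · intro x hx y hy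
    exact F_Y hT hG ha.symm hx hy
  · intro x hx y hy
    exact M_Y hT hG ha hx (fun e => hinv x ⟨hx, e⟩) hy
  · intro x hx y hy
    rw [memX] at hx
    exact M_Y hT hG ha.symm hx (fun e => hinv x ⟨e, hx⟩) hy
  · -- d23
    intro x hx y hy x' hx' y' hy'
    exact d_ne hT hG ha hinv hx.1 hy hx' hy'
  · intro x hx y hy x' hx' y' hy'
    rw [memX] at hx'
    exact d_ne hT hG ha.symm hinv' hx.1 hy hx' hy'
  · intro x hx x' hx' y hy y' hy' e
    rw [memH]
    exact u_F hT hG ha hx.1 hy hx'.1 hy' e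
  · intro x hx x' hx' y hy y' hy' e
    rw [memH]
    exact (u_F hT hG ha.symm hx.1 hy hx'.1 hy' e).symm
  · intro x hx x' hx' y hy y' hy' e
    rw [memH]
    exact u_F hT hG ha hx hy hx' hy' e
  · intro x hx x' hx' y hy y' hy' e
    rw [memX] at hx hx'
    rw [memH]
    exact (u_F hT hG ha.symm hx hy hx' hy' e).symm


theorem mm {x y : G} (hx : x • v = v ∧ x • w ≠ w) (hy : y • v = v ∧ y • w ≠ w) :
    x * y ∈ (MulAction.stabilizer G v ⊓ MulAction.stabilizer G w) ∨
      ((x * y) • v = v ∧ (x * y) • w ≠ w) := by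
  have h1 : (x * y) • v = v := by rw [mul_smul, hy.1, hx.1]
  by_cases h2 : (x * y) • w = w
  · left
    rw [Subgroup.mem_inf, MulAction.mem_stabilizer_iff, MulAction.mem_stabilizer_iff]
    exact ⟨h1, h2⟩
  · exact Or.inr ⟨h1, h2⟩

theorem nn (hT : T.IsTree) (hG : ∀ (g : G) (x y : V), T.Adj x y → T.Adj (g • x) (g • y))
    (ha : T.Adj v w) {x y : G} (hx : x • v = v ∧ x • w ≠ w) (hy : y ∈ YY G T v w) :
    x * y ∉ YY G T v w := by
  intro hxy
  have h1 : (x * y) • w ∈ Br T v (x • w) := by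
    have := smul_Br hT hG x hy.1
    rwa [hx.1, smul_smul] at this
  have h2 : T.Adj v (x • w) := by
    have := hG x v w ha
    rwa [hx.1] at this
  exact hx.2 (br_unique hT h2 ha h1 hxy.1)

end TRXM

open Pool.Agent.Lib.MP8a3537.UV.TREAux TRXM in
theorem specTRX : SpecTRX := by
  intro G V _ _ T v w hT hG ha hinv htwo
  refine ⟨YY G T v w, YY G T w v, ?_⟩
  have hP := pingpong hT hG ha hinv htwo
  refine { toPingPong := hP, m1 := ?_, m2 := ?_, n1 := ?_, n2 := ?_ }
  · intro x hx y hy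
    exact mm hx hy
  · intro x hx y hy
    rcases mm hx hy with h | h
    · left
      rw [inf_comm]
      exact h
    · exact Or.inr h
  · intro x hx y hy
    exact nn hT hG ha hx hy
  · intro x hx y hy
    exact nn hT hG ha.symm hx hy

end Pool.Agent.Lib.MP8a3537.RO
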