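import Pool.Agent.Lib.MP_8a3537_gt.RO.Spec
import Pool.Agent.Lib.MP_8a3537_gt.AU.PRG

/-!
# RO, module CMP (helper94): componentwise boundaries

The restriction to a right coset is the lemma `PRGAux.coset` of the module PRG (helper87).
-/

namespace Pool.Agent.Lib.MP8a3537.RO

open Matrix Pool.Agent.Lib.MP8a3537.UV Pool.Agent.Lib.MP8a3537.AU
open Pool.Agent.Lib.MP8a3537.UO (ext)

theorem specCMP : SpecCMP := by
  intro R G _ _ L X Y hXl hXr hYl hd m n k _ _ _ D M x1 hM hx h t
  obtain ⟨u, hu⟩ := h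
  exact PRGAux.coset D u hXl hXr hYl hd hM hx hu t

end Pool.Agent.Lib.MP8a3537.RO
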