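import Pool.Agent.Lib.MP_8a3537_gt.AU.Spec

/-!
# Arbitrary edge groups with regular flip stabilizers (MP_8a3537_gt, folder RO): definitions

Paper: `/team-store/8a3537_RO_roots.md`. The two types `1`, `2` of the paper are `true`, `false`.
In `XX s t`, `blk N s t`, `Wd k s t` the first index is the target, the second one the source.
-/

namespace Pool.Agent.Lib.MP8a3537.RO

open Matrix Pool.Agent.Lib.MP8a3537.UV Pool.Agent.Lib.MP8a3537.AU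
open Pool.Agent.Lib.MP8a3537.UO (ext)

/-! ### Groups -/

section Groups

variable {G : Type} [Group G]

/-- `H c H = c`. -/
def Bi (H : Subgroup G) (c : Set G) : Prop :=
  (∀ h ∈ H, ∀ x ∈ c, h * x ∈ c) ∧ (∀ h ∈ H, ∀ x ∈ c, x * h ∈ c)

/-- The double coset `H g H`. -/
def dc (H : Subgroup G) (g : G) : Set G := {x | ∃ h ∈ H, ∃ h' ∈ H, x = h * g * h'}

/-- `x⁻¹ ∈ H x H`. -/
def Flip (H : Subgroup G) (x : G) : Prop := x⁻¹ ∈ dc H x

/-- `H ∩ g H g⁻¹`. -/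
def Kg (H : Subgroup G) (g : G) : Subgroup G := H ⊓ H.comap (MulAut.conj g⁻¹).toMonoidHom

theorem mem_Kg (H : Subgroup G) (g x : G) : x ∈ Kg H g ↔ x ∈ H ∧ g⁻¹ * x * g ∈ H := by
  unfold Kg
  rw [Subgroup.mem_inf, Subgroup.mem_comap]
  simp

/-- The sets `X^(st)`. -/
def XX (X1 X2 X3 : Set G) : Bool → Bool → Set G
  | true, true => X3
  | true, false => X2
  | false, true => X1
  | false, false => Xinv X3

/-- The sets `Y_1`, `Y_2`. -/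
def YB (Yp Ym : Set G) : Bool → Set G
  | true => Yp
  | false => Ym

/-- Ping-pong data with the additional properties of an edge of a tree. -/
structure PingPongX (H : Subgroup G) (X1 X2 X3 Yp Ym : Set G) : Prop extends
    PingPong H X1 X2 X3 Yp Ym where
  m1 : ∀ x ∈ X1, ∀ y ∈ X1, x * y ∈ H ∨ x * y ∈ X1
  m2 : ∀ x ∈ X2, ∀ y ∈ X2, x * y ∈ H ∨ x * y ∈ X2
  n1 : ∀ x ∈ X1, ∀ y ∈ Yp, x * y ∉ Yp
  n2 : ∀ x ∈ X2, ∀ y ∈ Ym, x * y ∉ Ym

/-- Words with `k` letters from the source `t` to the target `s`. -/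
inductive Wd (H : Subgroup G) (X1 X2 X3 : Set G) : ℕ → Bool → Bool → G → Prop
  | base {s : Bool} {h : G} : h ∈ H → Wd H X1 X2 X3 0 s s h
  | cons {k : ℕ} {s r t : Bool} {x z : G} : x ∈ XX X1 X2 X3 s r → Wd H X1 X2 X3 k r t z →
      Wd H X1 X2 X3 (k + 1) s t (x * z)

/-- The set of all words from `t` to `s`. -/
def WS (H : Subgroup G) (X1 X2 X3 : Set G) (s t : Bool) : Set G :=
  {z | ∃ k, Wd H X1 X2 X3 k s t z}

/-- The data of the theorem on a single block: `Xa = L g`. -/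
structure Loc (L : Subgroup G) (g : G) (Xa Xb Y : Set G) : Prop where
  ag : ∀ x, x ∈ Xa ↔ ∃ l ∈ L, x = l * g
  al : ∀ l ∈ L, ∀ x ∈ Xa, l * x ∈ Xa
  ar : ∀ l ∈ L, ∀ x ∈ Xa, x * l ∈ Xa
  ai : ∀ x ∈ Xa, x⁻¹ ∈ Xa
  an : ∀ x ∈ Xa, x⁻¹ ≠ x
  bl : ∀ l ∈ L, ∀ x ∈ Xb, l * x ∈ Xb
  br : ∀ l ∈ L, ∀ x ∈ Xb, x * l ∈ Xb
  bi : ∀ x ∈ Xb, x⁻¹ ∈ Xb
  bn : ∀ x ∈ Xb, x⁻¹ ≠ x
  y1 : (1 : G) ∈ Y
  yl : ∀ l ∈ L, ∀ y ∈ Y, l * y ∈ Y
  ya : ∀ z ∈ Xb, ∀ x ∈ Xa, ∀ y ∈ Y, z * x * y ∈ Y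
  dj : ∀ z ∈ Xb, ∀ z' ∈ Xb, ∀ x ∈ Xa, ∀ x' ∈ Xa, ∀ t ∈ Y, ∀ t' ∈ Y,
    z * x * t = z' * x' * t' → t' * t⁻¹ ∈ L

end Groups

/-! ### Matrices over group rings -/

section Cut

variable {R G : Type} [Ring R]

open Classical in
/-- The part of `x` with support in `W`. -/
noncomputable def cut (W : Set G) (x : MonoidAlgebra R G) : MonoidAlgebra R G :=
  .ofCoeff (x.coeff.filter fun g => g ∈ W)

open Classical in
theorem cut_coeff (W : Set G) (x : MonoidAlgebra R G) (g : G) :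
    (cut W x).coeff g = if g ∈ W then x.coeff g else 0 := by
  unfold cut
  exact Finsupp.filter_apply _ _ _

/-- The part `M|_W` of the matrix `M` with support in `W`. -/
noncomputable def cutM {m n : Type} (W : Set G) (M : Matrix m n (MonoidAlgebra R G)) :
    Matrix m n (MonoidAlgebra R G) := M.map (cut W)

end Cut

section Matrices

variable {R G : Type} [Ring R] [Group G]

/-- The index `inl i` for `true`, `inr i` for `false`. -/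
def sd {n : Type} : Bool → n → n ⊕ n
  | true => Sum.inl
  | false => Sum.inr

/-- The block `(s, t)` of a matrix. -/
def blk {A n : Type} (N : Matrix (n ⊕ n) (n ⊕ n) A) (s t : Bool) : Matrix n n A :=
  N.submatrix (sd s) (sd t)

/-- Products of `k ≥ 1` letters (a letter is a block of `N` restricted to a biinvariant set). -/
inductive Wrd (H : Subgroup G) {n : Type} [Fintype n]
    (N : Matrix (n ⊕ n) (n ⊕ n) (MonoidAlgebra R G)) :
    ℕ → Bool → Bool → Matrix n n (MonoidAlgebra R G) → Prop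
  | one {s t : Bool} {c : Set G} : Bi H c → Wrd H N 1 s t (cutM c (blk N s t))
  | cons {k : ℕ} {s r t : Bool} {c : Set G} {P : Matrix n n (MonoidAlgebra R G)} : Bi H c →
      Wrd H N k r t P → Wrd H N (k + 1) s t (cutM c (blk N s r) * P)

/-- The additive group generated by the products of at least `k` letters. -/
noncomputable def EE (H : Subgroup G) {n : Type} [Fintype n]
    (N : Matrix (n ⊕ n) (n ⊕ n) (MonoidAlgebra R G)) (k : ℕ) (s t : Bool) :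
    AddSubgroup (Matrix n n (MonoidAlgebra R G)) :=
  AddSubgroup.closure {M | ∃ j, k ≤ j ∧ Wrd H N j s t M}

end Matrices

/-- The properties of the family `EE` (for a ring `A` with involution). -/
structure EFam {A : Type} [Ring A] [StarRing A] {n : ℕ}
    (E : ℕ → Bool → Bool → AddSubgroup (Matrix (Fin n) (Fin n) A)) (N : ℕ) : Prop where
  mul : ∀ (k l : ℕ) (s r t : Bool) (M M' : Matrix (Fin n) (Fin n) A), M ∈ E k s r →
    M' ∈ E l r t → M * M' ∈ E (k + l) s t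
  star : ∀ (k : ℕ) (s t : Bool) (M : Matrix (Fin n) (Fin n) A), M ∈ E k s t →
    Mᴴ ∈ E k (!t) (!s)
  mono : ∀ (k l : ℕ) (s t : Bool), k ≤ l → E l s t ≤ E k s t
  zero : ∀ (s t : Bool) (M : Matrix (Fin n) (Fin n) A), M ∈ E N s t → M = 0

/-- `∑_{i < N} (-ν)^i`, the inverse of `1 + ν` if `ν^N = 0`. -/
noncomputable def W0 {A : Type} [Ring A] {n : ℕ} (N : ℕ)
    (ν : Matrix (Fin n ⊕ Fin n) (Fin n ⊕ Fin n) A) :
    Matrix (Fin n ⊕ Fin n) (Fin n ⊕ Fin n) A :=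
  ∑ i ∈ Finset.range N, (-ν) ^ i

/-- The form `κ = - (z1^* ψ z1 + z1^* (1 + μ^*) z2 + z2^* χ z2)`, `z1 = w^(12) Ξ^*`,
`z2 = w^(22) Ξ^*`. -/
noncomputable def kap {A : Type} [Ring A] [StarRing A] {n r : ℕ} (ψ μ χ : Matrix (Fin n) (Fin n) A)
    (w : Matrix (Fin n ⊕ Fin n) (Fin n ⊕ Fin n) A) (Ξ : Matrix (Fin r) (Fin n) A) :
    Matrix (Fin r) (Fin r) A :=
  -((blk w true false * Ξᴴ)ᴴ * ψ * (blk w true false * Ξᴴ) +
    (blk w true false * Ξᴴ)ᴴ * (1 + μᴴ) * (blk w false false * Ξᴴ) +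
    (blk w false false * Ξᴴ)ᴴ * χ * (blk w false false * Ξᴴ))

/-! ### The single block -/

section Block

variable {R G : Type} [Ring R] [StarRing R] [Group G] {L : Subgroup G}

/-- `(b a)^l x` is a coboundary for all cocycles `x` of degree `k` over `R[L]`. -/
def PL (C : FC (MonoidAlgebra R L)) (a b : Matrix C.I C.I (MonoidAlgebra R G)) (k : ℤ) (l : ℕ) :
    Prop :=
  ∀ x ∈ C.Cy k, ∃ u : C.I → MonoidAlgebra R G, (b * a) ^ l *ᵥ exv x = ext C.d *ᵥ u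

/-- `a (b a)^l x` is a coboundary of the dual for all cocycles `x` of degree `k` over `R[L]`. -/
def QL (C : FC (MonoidAlgebra R L)) (a b : Matrix C.I C.I (MonoidAlgebra R G)) (k : ℤ) (l : ℕ) :
    Prop :=
  ∀ x ∈ C.Cy k, ∃ u : C.I → MonoidAlgebra R G, a *ᵥ ((b * a) ^ l *ᵥ exv x) = (ext C.d)ᴴ *ᵥ u

/-- The result of a surgery on `C` (paper: SG). -/
structure Sur (Xa Xb : Set G) (ε : ℤˣ) (k : ℤ) (C C' : FC (MonoidAlgebra R L))
    (a b : Matrix C.I C.I (MonoidAlgebra R G)) (a' b' : Matrix C'.I C'.I (MonoidAlgebra R G))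
    (p : Matrix C'.I C.I (MonoidAlgebra R L)) : Prop where
  nf : NF L Xa Xb ∅ ε C' a' 0 b'
  lv : C'.ExBelow k
  lv' : C'.dual.ExBelow k
  gp : ∀ i j, p i j ≠ 0 → C'.deg i = C.deg j
  ch : C'.d * p = p * C.d
  ea : (ext p)ᴴ * a' * ext p = a
  eb : b' = ext p * b * (ext p)ᴴ
  top : ∀ x' ∈ C'.Cy k, ∃ x ∈ C.Cy k, x' = p *ᵥ x
  kill : ∀ x ∈ C.Cy k, (∃ u, a *ᵥ exv x = (ext C.d)ᴴ *ᵥ u) → ∃ u, p *ᵥ x = C'.d *ᵥ u
  inj : ∀ y : C'.I → MonoidAlgebra R G, (∀ i, y i ≠ 0 → - C'.deg i = k) →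
    (ext C'.d)ᴴ *ᵥ y = 0 → (∃ u, (ext p)ᴴ *ᵥ y = (ext C.d)ᴴ *ᵥ u) →
    ∃ u, y = (ext C'.d)ᴴ *ᵥ u
  good : Good Xa Xb ε C' a' 0 b' → Good Xa Xb ε C a 0 b

/-- The result of a surgery on `C^*` (`q = p^*`). -/
structure SurB (Xa Xb : Set G) (ε : ℤˣ) (k : ℤ) (C C1 : FC (MonoidAlgebra R L))
    (a b : Matrix C.I C.I (MonoidAlgebra R G)) (a1 b1 : Matrix C1.I C1.I (MonoidAlgebra R G))
    (q : Matrix C.I C1.I (MonoidAlgebra R L)) : Prop where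
  nf : NF L Xa Xb ∅ ε C1 a1 0 b1
  lv : C1.ExBelow k
  lv' : C1.dual.ExBelow k
  gq : ∀ i j, q i j ≠ 0 → C.deg i = C1.deg j
  ch : C.d * q = q * C1.d
  eb : ext q * b1 * (ext q)ᴴ = b
  ea : a1 = (ext q)ᴴ * a * ext q
  top : ∀ y' ∈ C1.dual.Cy k, ∃ y ∈ C.dual.Cy k, y' = qᴴ *ᵥ y
  kill : ∀ y ∈ C.dual.Cy k, (∃ u, b *ᵥ exv y = ext C.d *ᵥ u) → ∃ u, qᴴ *ᵥ y = C1.dᴴ *ᵥ u
  inj : ∀ x : C1.I → MonoidAlgebra R G, (∀ i, x i ≠ 0 → C1.deg i = k) →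
    ext C1.d *ᵥ x = 0 → (∃ u, ext q *ᵥ x = ext C.d *ᵥ u) → ∃ u, x = ext C1.d *ᵥ u
  good : Good Xa Xb ε C1 a1 0 b1 → Good Xa Xb ε C a 0 b

end Block

end Pool.Agent.Lib.MP8a3537.RO
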