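import Pool.Agent.Lib.MP_8a3537_gt.RO.Defs

/-!
# Arbitrary edge groups with regular flip stabilizers: Specs

Paper proof: `/team-store/8a3537_RO_roots.md`. Every module `XXX` is a file
`Pool/Agent/Lib/MP_8a3537_gt/RO/XXX.lean` which imports this file and proves
`theorem specXXX (hypotheses in the order of the text) : SpecXXX` (exactly this name) in the namespace
`Pool.Agent.Lib.MP8a3537.RO`, with its auxiliary declarations in `RO.XXXAux`. The landed modules of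
the folders UV (`UV/RES`, `UV/TAT`, `UV/TRE`, `UV/EMV`, `UV/SWP`, `UV/STK`, `UV/IND`), AU (all) and
`RO/AUM` (the modules of AU without hypotheses) may be imported where it is useful.

Conventions: `S = R[L]`, `A = R[G]`. Columns, matrices act from the left. Types: `true` is the type
`1`, `false` the type `2` of the paper; first index target, second index source.
-/

namespace Pool.Agent.Lib.MP8a3537.RO

open Matrix Pool.Agent.Lib.MP8a3537.UV Pool.Agent.Lib.MP8a3537.AU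
open Pool.Agent.Lib.MP8a3537.UO (ext)

/-! ### Part 1: combinatorics of words -/

/-- **TRX** (size 120; imports `UV/TRE`): the ping-pong data of an edge, with the extra properties.

PROOF. `Yp`, `Ym` are the sets `YY` of `UV/TRE.lean` (`specTRE` proves `PingPong` for them; repeat its
proof or extract the lemma). `m1`: `x`, `y` fix `v`, so `x y` fixes `v`; if it fixes `w` it is in `H`,
otherwise in `X1`. `n1`: `x ∈ X1`, `y ∈ Yp`: `y w ∈ Br v w`, so `x y w ∈ Br (x v) (x w) = Br v (x w)`; if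
`x y ∈ Yp` then `x y w ∈ Br v w`, so `x w = w` by `br_unique`: contradiction. `m2`, `n2`: exchange
`v`, `w`. -/
def SpecTRX : Prop :=
  ∀ (G V : Type) [Group G] [MulAction G V] (T : SimpleGraph V) (v w : V), T.IsTree →
    (∀ (g : G) (x y : V), T.Adj x y → T.Adj (g • x) (g • y)) → T.Adj v w →
    (∀ g : G, ¬ (g • v = w ∧ g • w = v)) →
    (∀ g : G, g * g = 1 → (g • v = v ↔ g • w = w)) →
    ∃ Yp Ym : Set G,
      PingPongX (MulAction.stabilizer G v ⊓ MulAction.stabilizer G w)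
        {g | g • v = v ∧ g • w ≠ w} {g | g • w = w ∧ g • v ≠ v} {g | g • v = w} Yp Ym

/-- **UNQ** (size 80): action and uniqueness.

PROOF. `s`, `r`, `r'` by cases. (1) `X1Y`, `X2Y`, `X3Y`, `X3Y'`. (2) `r = r'`: `u1`, `u2`, `u3`, `u3'`; `r ≠ r'`:
`s = true`: `x ∈ X3`, `x' ∈ X2` or conversely: `d23`; `s = false`: `d13`. (3), (4): fields; for
`Xinv X3`: `(h x)⁻¹ = x⁻¹ h⁻¹`. -/
def SpecUNQ : Prop :=
  ∀ (G : Type) [Group G] (H : Subgroup G) (X1 X2 X3 Yp Ym : Set G), PingPong H X1 X2 X3 Yp Ym →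
    (∀ s r x y, x ∈ XX X1 X2 X3 s r → y ∈ YB Yp Ym r → x * y ∈ YB Yp Ym s) ∧
    (∀ s r r' x y x' y', x ∈ XX X1 X2 X3 s r → y ∈ YB Yp Ym r → x' ∈ XX X1 X2 X3 s r' →
      y' ∈ YB Yp Ym r' → x * y = x' * y' → r = r' ∧ x⁻¹ * x' ∈ H) ∧
    (∀ s r, Bi H (XX X1 X2 X3 s r)) ∧
    (∀ s, (1 : G) ∈ YB Yp Ym s ∧ ∀ h ∈ H, ∀ y ∈ YB Yp Ym s, h * y ∈ YB Yp Ym s)

/-- The hypotheses on the words which avoid some double cosets. -/
structure Sub1 {G : Type} [Group G] (H : Subgroup G) (X1 X2 X3 Yp Ym X1' : Set G) : Prop where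
  pp : PingPong H X1 X2 X3 Yp Ym
  sub : X1' ⊆ X1
  bi : Bi H X1'
  inv : ∀ x ∈ X1', x⁻¹ ∈ X1'

/-- **WDA** (size 180, dep `SpecUNQ`): words.

PROOF. (1) left: `k = 0`: `h h' ∈ H`; `k + 1`: `h (x z) = (h x) z`. Right: induction (`z h`). (2) induction
on the first word; `h z'` by (1). (3) a letter: `x ∈ XX X1' X2 X3 s r → x⁻¹ ∈ XX X1' X2 X3 (!r) (!s)` (four
cases: `X1'`, `X2` are closed under inverses, `X3`, `Xinv X3` are exchanged); `(x z)⁻¹ = z⁻¹ (x⁻¹ 1)` is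
a word by (2). (4) induction, `UNQ` (1) (`XX X1' X2 X3 s r ⊆ XX X1 X2 X3 s r`) and (4). -/
def SpecWDA : Prop :=
  ∀ (G : Type) [Group G] (H : Subgroup G) (X1 X2 X3 Yp Ym X1' : Set G),
    Sub1 H X1 X2 X3 Yp Ym X1' →
    (∀ k s t z h, h ∈ H → Wd H X1' X2 X3 k s t z →
      Wd H X1' X2 X3 k s t (h * z) ∧ Wd H X1' X2 X3 k s t (z * h)) ∧
    (∀ k l s r t z z', Wd H X1' X2 X3 k s r z → Wd H X1' X2 X3 l r t z' →
      Wd H X1' X2 X3 (k + l) s t (z * z')) ∧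
    (∀ k s t z, Wd H X1' X2 X3 k s t z → Wd H X1' X2 X3 k (!t) (!s) z⁻¹) ∧
    (∀ k s t z y, Wd H X1' X2 X3 k s t z → y ∈ YB Yp Ym t → z * y ∈ YB Yp Ym s) ∧
    (∀ s t x, x ∈ XX X1' X2 X3 s t → Wd H X1' X2 X3 1 s t x ∧ x⁻¹ ∈ XX X1' X2 X3 (!t) (!s))

/-- **WNI** (size 180, deps `SpecUNQ`, `SpecWDA`): no word from `s'` to `s` is its own inverse.

PROOF (paper w5). Strong induction on `k`. `k = 0`: a word of length `0` has equal types. `k = 1`: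
`z = x h`, `x ∈ X1` or `X2`, so `z ∈ X1` or `X2`, `z⁻¹ ≠ z` (`X1n`, `X2n`). `k = m + 2`: `z = x z1`,
`x ∈ XX s r`, `z1` a word of length `m + 1` from `!s` to `r`; last letter: `z1 = z2 y`,
`y ∈ XX q (!s)`, `z2` of length `m` from `q` to `r` (lemma: every word of length `m + 1` is a word of
length `m` times a letter, by induction; for length `1`: `x h = 1 (x h)`). `z = z⁻¹` says
`x z1 = y⁻¹ (z2⁻¹ x⁻¹)`, `y⁻¹ ∈ XX s (!q)`; `z1 ∈ YB r` and `z2⁻¹ x⁻¹ ∈ YB (!q)` (WDA (4) with `y = 1`: `z2⁻¹ x⁻¹` is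
a word from `!s` to `!q`). UNQ: `r = !q`, `x⁻¹ y⁻¹ = h ∈ H`, so `y = h⁻¹ x⁻¹`, `z = x (z2 h⁻¹) x⁻¹`,
`z2 h⁻¹` is a word of length `m` from `q = !r` to `r` with square `1`. -/
def SpecWNI : Prop :=
  ∀ (G : Type) [Group G] (H : Subgroup G) (X1 X2 X3 Yp Ym X1' : Set G),
    Sub1 H X1 X2 X3 Yp Ym X1' → ∀ (k : ℕ) (s : Bool) (z : G), Wd H X1' X2 X3 k s (!s) z →
    z * z ≠ 1

/-- **WDJ** (size 220, deps `SpecUNQ`, `SpecWDA`): disjointness (paper w6).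

PROOF. `X1' = X1 ∖ H g H`. Claim for words `z`, `z'` from `false` to `s` (induction on the word `z`, for all
`z'`): if `z x t = z' x' t'` with `x, x' ∈ L g` (so in `X1`), `t, t' ∈ Yp` then `t' t⁻¹ ∈ L`. (`x t`, `x' t' ∈ Ym`.)
`z = h ∈ H` and `z' = h' ∈ H`: `t' = y t`, `y = x'⁻¹ (h'⁻¹ h x)`; if `y ∉ H` then `y ∈ X1` (`m1`; `x'⁻¹ ∈ X1`,
`h'⁻¹ h x ∈ X1`), `t' = y t ∉ Yp` (`n1`): contradiction. So `y ∈ H`; `x = l g`, `x' = l' g`,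
`y = g⁻¹ h'' g` with `h'' = l'⁻¹ h'⁻¹ h l ∈ H`, `g⁻¹ y g = g⁻² h'' g² ∈ H`: `y ∈ Kg H g`.
`z = h`, `z' = x1 z1` (`s = false`): `(h x) t = x1 (z1 x' t')`, `h x ∈ XX X1 X2 X3 false true`,
`x1 ∈ XX X1' X2 X3 false r`: UNQ: `r = true`, so `x1 ∈ X1'`, and `(h x)⁻¹ x1 ∈ H`, so
`x1 ∈ h x H ⊆ H g H`: contradiction. `z = x1 z1`, `z' = h'`: the same. `z = x1 z1`, `z' = x1' z1'`: UNQ: same
type `r`, `x1' = x1 h`, so `z1 x t = (h z1') x' t'`, induction. -/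
def SpecWDJ : Prop :=
  ∀ (G : Type) [Group G] (H : Subgroup G) (X1 X2 X3 Yp Ym : Set G),
    PingPongX H X1 X2 X3 Yp Ym → ∀ g ∈ X1, g * g ∈ H →
    ∀ z ∈ WS H {x | x ∈ X1 ∧ x ∉ dc H g} X2 X3 true false,
    ∀ z' ∈ WS H {x | x ∈ X1 ∧ x ∉ dc H g} X2 X3 true false, ∀ l ∈ Kg H g, ∀ l' ∈ Kg H g,
    ∀ t ∈ Yp, ∀ t' ∈ Yp, z * (l * g) * t = z' * (l' * g) * t' → t' * t⁻¹ ∈ Kg H g

/-- **LOC** (size 150, deps `SpecWDA`, `SpecWNI`, `SpecWDJ`): the data of a single block.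

PROOF. `L = Kg H g`. `g L g⁻¹ = L`: `l ∈ L`: `g l g⁻¹ = g² (g⁻¹ l g) g⁻² ∈ H` and `g⁻¹ (g l g⁻¹) g = l ∈ H`.
`g² ∈ L`. `ar`: `l g l' = l (g l' g⁻¹) g`. `ai`: `(l g)⁻¹ = g⁻² (g l⁻¹ g⁻¹) g`. `an`: `l g ∈ X1` (`X1l`), `X1n`.
`X1' = {x ∈ X1 | x ∉ H g H}` satisfies `Sub1`: `H g H` is biinvariant, and inverse closed
(`(h g h')⁻¹ = h'⁻¹ g⁻² g h⁻¹`). `bl`, `br`, `bi`: WDA (`L ≤ H`). `bn`: `z⁻¹ = z` gives `z z = 1`: WNI. `ya`:
`x y ∈ Ym`, WDA (4). `dj`: WDJ. -/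
def SpecLOC : Prop :=
  ∀ (G : Type) [Group G] (H : Subgroup G) (X1 X2 X3 Yp Ym : Set G),
    PingPongX H X1 X2 X3 Yp Ym → ∀ g ∈ X1, g * g ∈ H →
    Sub1 H X1 X2 X3 Yp Ym {x | x ∈ X1 ∧ x ∉ dc H g} ∧
    Loc (Kg H g) g {x | ∃ l ∈ Kg H g, x = l * g}
      (WS H {x | x ∈ X1 ∧ x ∉ dc H g} X2 X3 true false) Yp

/-! ### Part 2: letters -/

/-- **JNT** (size 250, dep `SpecUNQ`): joint nilpotency (paper LEMMA 1).

PROOF. `N = nu ε a μ b`. `blk N s t` is supported in `XX X1 X2 X3 s t`. Claim by induction on the word `M` of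
`k` letters from `t` to `s`: `M = cutM W (blk (N ^ k) s t)` for some left `H`-invariant `W`, and
`blk (N ^ k) s t` is supported in `YB s` (because `1 ∈ YB t`; for this also `k = 0`). `k = 1`: `W = c`. Step:
`M = cutM c (blk N s r) * P`, `P = cutM W (blk (N ^ k) r t)`;
`blk (N ^ (k+1)) s t = ∑_q blk N s q * blk (N ^ k) q t` (sum over `q = true, false`). Put
`W' = (c ∩ XX s r) (W ∩ YB r)` (products). Then `M = cutM W' (blk (N ^ (k+1)) s t)`: entrywise, for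
`x ∈ supp (blk N s q)`, `y ∈ supp (blk (N ^ k) q t)`: if `x y ∈ W'`, `x y = x' y'`, `x' ∈ c ∩ XX s r`,
`y' ∈ W ∩ YB r`, then UNQ: `q = r`, `x' = x h`, so `x ∈ c`, `y = h y' ∈ W`. Conversely clear. (So
`cut W' (u v) = cut c u * cut W v` for such entries `u`, `v` with `q = r`, and `= 0` for `q ≠ r`: bilinear, check
on `single`s.) If `N ^ N0 = 0` then `N ^ k = 0` for `k ≥ N0`, so `M = 0`; closure: the generators of `EE` are
`0`. -/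
def SpecJNT : Prop :=
  ∀ (R G : Type) [Ring R] [StarRing R] [Group G] (H : Subgroup G) (X1 X2 X3 Yp Ym : Set G),
    PingPong H X1 X2 X3 Yp Ym → ∀ (ε : ℤˣ) (n : ℕ)
    (a μ b : Matrix (Fin n) (Fin n) (MonoidAlgebra R G)), SuppIn X1 a → SuppIn X3 μ →
    SuppIn X2 b → ∀ N : ℕ, (nu ε a μ b) ^ N = 0 →
    ∀ (s t : Bool) (M : Matrix (Fin n) (Fin n) (MonoidAlgebra R G)),
      M ∈ EE H (nu ε a μ b) N s t → M = 0

/-- **EFA** (size 200, dep `SpecJNT`): the family `EE`.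

PROOF. `mul`: bilinear (`AddSubgroup.closure_induction` twice); product of two words: induction on the
first one (`cutM c (blk ..) * P`). `mono`: clear. `zero`: JNT. `star`: `closure_induction`; for words: the
star of a product is the product of the stars in the opposite order, and
`(cutM c (blk N s t))ᴴ = cutM c⁻¹ (blk N s t)ᴴ`, `(blk N s t)ᴴ = blk N (!t) (!s)` for `s = t` (`μ`, `μᴴ`),
`= ε • blk N (!t) (!s)` for `s ≠ t` (`a = ε aᴴ`, `b = ε bᴴ`; `(ε • b)ᴴ = ε • bᴴ = b = ε • (ε • b)`), `c⁻¹` is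
biinvariant; so the star of one letter is in `EE 1 (!t) (!s)`, and of a product by `mul` and induction.
Letters: `one`. `blk N s t = cutM univ (blk N s t)`. -/
def SpecEFA : Prop :=
  ∀ (R G : Type) [Ring R] [StarRing R] [Group G] (H : Subgroup G) (X1 X2 X3 Yp Ym : Set G),
    PingPong H X1 X2 X3 Yp Ym → ∀ (ε : ℤˣ) (n : ℕ)
    (a μ b : Matrix (Fin n) (Fin n) (MonoidAlgebra R G)), SuppIn X1 a → SuppIn X3 μ →
    SuppIn X2 b → a = (ε : ℤ) • aᴴ → b = (ε : ℤ) • bᴴ → ∀ N : ℕ, (nu ε a μ b) ^ N = 0 →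
    EFam (EE H (nu ε a μ b)) N ∧
    (∀ (s t : Bool) (c : Set G), Bi H c →
      cutM c (blk (nu ε a μ b) s t) ∈ EE H (nu ε a μ b) 1 s t) ∧
    (∀ s t : Bool, blk (nu ε a μ b) s t ∈ EE H (nu ε a μ b) 1 s t)

/-- **NWC** (size 250): Newton iteration (paper LEMMA 2, CLAIM).

PROOF. Claim for all `k ≥ 1` by induction on `N - k`: for all `p ∈ E k false true`, `m ∈ E 1 false false`,
`q ∈ E 1 true false` the form `(p, 1 + m; 0, q)` is stably hyperbolic. `k ≥ N`: `p = 0` (`mono`, `zero`).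
`1 + m` is invertible: `m^i ∈ E i`, so `m^N = 0` (or `N = 0` and everything is `0`). `u = diag(1, (1 + m)⁻¹)`
gives `(0, 1; 0, q')`, and `u = (1, z; 0, 1)`: `uᴴ (0, 1; 0, q') u = (0, 1; 0, zᴴ + q')`, so with
`z = -q'ᴴ` this is `(0, 1; 0, 0) = hyp`. Step:
`u = (1, 0; -p, 1)` (invertible): `uᴴ (p, 1 + m; 0, q) u = (-m p + pᴴ q p, 1 + m - pᴴ q; -q p, q)`, and modulo
`Z - ε Zᴴ` (`Z = (0, 0; q p, 0)`) this is `(-m p + pᴴ q p, 1 + (m - pᴴ (q + ε qᴴ)); 0, q)`. The types: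
`pᴴ ∈ E k false true`, `qᴴ ∈ E 1 true false`; `m p ∈ E (k+1) false true`, `pᴴ q p ∈ E (2k+1) false true`,
`pᴴ q ∈ E (k+1) false false ≤ E 1 false false`. -/
def SpecNWC : Prop :=
  ∀ (A : Type) [Ring A] [StarRing A] (ε : ℤˣ) (n N : ℕ)
    (E : ℕ → Bool → Bool → AddSubgroup (Matrix (Fin n) (Fin n) A)), EFam E N →
    ∀ p ∈ E 1 false true, ∀ m ∈ E 1 false false, ∀ q ∈ E 1 true false,
      StablyHyperbolic ε (fromBlocks p (1 + m) 0 q)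

/-- **HLF** (size 150): a half of the double cosets.

PROOF. `D x = dc H x : Set G`. Choose a linear order on `Set G` (e.g. from `WellOrderingRel`), and
`c = {x | D x < D x⁻¹}`. `D (h x) = D x = D (x h)`, so `c` is biinvariant. If `x⁻¹ ∉ D x` then `D x ≠ D x⁻¹`,
so exactly one of `x`, `x⁻¹` is in `c`. Coefficient of `a i j` at `x` with `a i j x ≠ 0`: `x ∈ c`: it is that of
`cutM c a`, and the other summand `ε star((cutM c a) j i x⁻¹)` is `0`. `x ∉ c`: `x⁻¹ ∈ c`, the other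
summand is `ε star (a j i x⁻¹) = a i j x`. If `a i j x = 0` then also `a j i x⁻¹ = 0` and both are `0`. -/
def SpecHLF : Prop :=
  ∀ (R G : Type) [Ring R] [StarRing R] [Group G] (H : Subgroup G) (ε : ℤˣ) (n : ℕ)
    (a : Matrix (Fin n) (Fin n) (MonoidAlgebra R G)), a = (ε : ℤ) • aᴴ →
    (∀ i j x, (a i j).coeff x ≠ 0 → ¬ Flip H x) →
    ∃ c : Set G, Bi H c ∧ a = cutM c a + (ε : ℤ) • (cutM c a)ᴴ

/-- **NWT** (size 150, deps `SpecEFA`, `SpecNWC`, `SpecHLF`; imports `UV/TAT`, `UV/SWP`): no flips.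

PROOF. `a = ψ + ε ψᴴ`: if `a i j` is not `0` at `x` then `ψ i j` is not `0` at `x` or `ψ j i` at `x⁻¹`;
`Flip H x ↔ Flip H x⁻¹`. HLF: `a = p + ε pᴴ`, `b = q + ε qᴴ`, `p = cutM c a`, `q = cutM c' b`. EFA:
`p ∈ EE 1 false true`, `μᴴ ∈ EE 1 false false`, `ε • q = cutM c' (ε • b) ∈ EE 1 true false`. NWC:
`UF p μ q` is stably hyperbolic. `ψ - p`, `χ - q` are supported in `X1`, `X2`, and
`(ψ - p) + ε (ψ - p)ᴴ = 0`: TAT (`δ = -ε`): `ψ = p + c0 - ε c0ᴴ`; SWP (2). -/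
def SpecNWT : Prop :=
  ∀ (R G : Type) [Ring R] [StarRing R] [Group G] (H : Subgroup G) (X1 X2 X3 Yp Ym : Set G),
    PingPong H X1 X2 X3 Yp Ym → ∀ (ε : ℤˣ) (n : ℕ)
    (ψ μ χ : Matrix (Fin n) (Fin n) (MonoidAlgebra R G)), SuppIn X1 ψ → SuppIn X3 μ →
    SuppIn X2 χ → IsNilpotent (nu ε (ψ + (ε : ℤ) • ψᴴ) μ (χ + (ε : ℤ) • χᴴ)) →
    (∀ i j x, (ψ i j).coeff x ≠ 0 → ¬ Flip H x) → (∀ i j x, (χ i j).coeff x ≠ 0 → ¬ Flip H x) →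
    StablyHyperbolic ε (UF ψ μ χ)

/-! ### Part 3: elimination of a double coset -/

/-- **FAC** (size 150): factorization of the part in `H g H`.

PROOF. `ψ` is the finite sum, over the entries `(i, j)` and `x ∈ supp (ψ i j)`, of the matrices with the
only entry `single x r` at `(i, j)`. `x = h g h'`, `single x r = single h 1 * single g r * single h' 1`. Let
`K` be the finite index set of these terms, `Ξ : (K ⊕ K) × n`: row `inl k` is `single h⁻¹ 1` at `i`, row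
`inr k` is `single h' 1` at `j`; `ψ'` has the entry `single g r` at `(inl k, inr k)` and `0` elsewhere. Then
`Ξᴴ ψ' Ξ = ψ` (`star (single h⁻¹ 1) = single h 1`). Reindex `K ⊕ K` by `Fin r`. Or by induction: the
statement is closed under sums (block matrices) and true for a single term. -/
def SpecFAC : Prop :=
  ∀ (R G : Type) [Ring R] [StarRing R] [Group G] (H : Subgroup G) (g : G) (n : ℕ)
    (ψ : Matrix (Fin n) (Fin n) (MonoidAlgebra R G)), SuppIn (dc H g) ψ →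
    ∃ (r : ℕ) (Ξ : Matrix (Fin r) (Fin n) (MonoidAlgebra R G))
      (ψ' : Matrix (Fin r) (Fin r) (MonoidAlgebra R G)), SuppIn (H : Set G) Ξ ∧
      SuppIn {x | x = g} ψ' ∧ ψ = Ξᴴ * ψ' * Ξ

/-- **SCH** (size 300): elimination (paper LEMMA 3).

PROOF. Index set `M ⊕ (N ⊕ N)`, `F = (Λ, 0, -Ξᴴ; 0, ψ', 1; 0, 0, 0)`. `α = ψ' + ε ψ'ᴴ`.
(1) `u1 = (1, 0, 0; Ξ, 1, 0; -α Ξ, 0, 1)`: modulo `Z - ε Zᴴ`, `u1ᴴ F u1 = (Λ + Ξᴴ ψ' Ξ) ⊕ (ψ', 1; 0, 0)`: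
`u1ᴴ F u1 = (Λ + Ξᴴ ψ' Ξ + (Ξᴴ α Ξ - Ξᴴ α Ξ), Ξᴴ ψ', 0; ψ' Ξ - α Ξ, ψ', 1; 0, 0, 0)`, and `ψ' Ξ - α Ξ = -ε ψ'ᴴ Ξ`
at `(2,1)` cancels `Ξᴴ ψ'` at `(1,2)` (`Z = (0, Ξᴴ ψ'; 0, 0)` up to sign). And `(ψ', 1; 0, 0) ≅ (0, 1; 0, 0)` by
`(1, 0; -ψ', 1)`. So `F ≅ (Λ + Ξᴴ ψ' Ξ) ⊕ hyp N`.
(2) `Zm = Φi Ξᴴ`, `u2 = (1, 0, Zm; 0, 1, 0; 0, 0, 1)`: modulo `Z - ε Zᴴ`,
`u2ᴴ F u2 = Λ ⊕ (ψ', 1; 0, κ)`, `κ = -Zmᴴ Λ Zm`: the entries `(1,3)`: `Λ Zm - Ξᴴ`, `(3,1)`: `Zmᴴ Λ`, together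
`(Λ + ε Λᴴ) Zm - Ξᴴ = 0`; `(3,3)`: `Zmᴴ Λ Zm - Zmᴴ Ξᴴ = Zmᴴ Λ Zm - Zmᴴ (Λ + ε Λᴴ) Zm = -ε Zmᴴ Λᴴ Zm`, which is
`-Zmᴴ Λ Zm` modulo `Z - ε Zᴴ`.
So `(Λ + Ξᴴ ψ' Ξ) ⊕ hyp N ≅ Λ ⊕ (ψ', 1; 0, κ)` (`Isometric` is symmetric, transitive, compatible with sums
and reindexing: see the auxiliary lemmas of `UV/EMV`, `UV/SWP`, `AU/GDS`); the right side is stably
hyperbolic as the sum of two such forms, so the left side is. -/
def SpecSCH : Prop :=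
  ∀ (A : Type) [Ring A] [StarRing A] (ε : ℤˣ) (M N : Type) [Fintype M] [DecidableEq M] [Fintype N]
    [DecidableEq N] (Λ Φi : Matrix M M A) (Ξ : Matrix N M A) (ψ' : Matrix N N A),
    (Λ + (ε : ℤ) • Λᴴ) * Φi = 1 → Φi * (Λ + (ε : ℤ) • Λᴴ) = 1 → StablyHyperbolic ε Λ →
    StablyHyperbolic ε (fromBlocks ψ' 1 0 (-((Φi * Ξᴴ)ᴴ * Λ * (Φi * Ξᴴ)))) →
    StablyHyperbolic ε (Λ + Ξᴴ * ψ' * Ξ)

/-- **SCU** (size 200, dep `SpecSCH`): elimination for `UF`.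

PROOF. `ν = nu ε (ψ + ε ψᴴ) μ (χ + ε χᴴ)`, `w = W0 N ν`: `w (1 + ν) = 1 = (1 + ν) w` (geometric sum).
`Λ = UF ψ μ χ`, `Λ + ε Λᴴ = J (1 + ν)`, `J = (0, 1; ε, 0)`, `J⁻¹ = Ji = (0, ε; 1, 0)`; `Φi = w Ji`.
`Ξ' = fromCols Ξ 0 : r × (n ⊕ n)`: `Φi Ξ'ᴴ = w (0; Ξᴴ) = (blk w true false * Ξᴴ; blk w false false * Ξᴴ)`, so
`-(Φi Ξ'ᴴ)ᴴ Λ (Φi Ξ'ᴴ) = kap ψ μ χ w Ξ`, `Λ + Ξ'ᴴ ψ' Ξ' = UF (ψ + Ξᴴ ψ' Ξ) μ χ`, `UF ψ' 0 κ = (ψ', 1; 0, κ)`. SCH.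
Second part: `κ + ε κᴴ = -Zmᴴ (Λ + ε Λᴴ) Zm = -Zmᴴ Ξ'ᴴ = -(Ξ' Zm)ᴴ = -(Ξ (blk w true false) Ξᴴ)ᴴ`. -/
def SpecSCU : Prop :=
  ∀ (A : Type) [Ring A] [StarRing A] (ε : ℤˣ) (n r N : ℕ) (ψ μ χ : Matrix (Fin n) (Fin n) A)
    (Ξ : Matrix (Fin r) (Fin n) A) (ψ' : Matrix (Fin r) (Fin r) A),
    (nu ε (ψ + (ε : ℤ) • ψᴴ) μ (χ + (ε : ℤ) • χᴴ)) ^ N = 0 →
    (StablyHyperbolic ε (UF ψ μ χ) →
      StablyHyperbolic ε (UF ψ' 0
        (kap ψ μ χ (W0 N (nu ε (ψ + (ε : ℤ) • ψᴴ) μ (χ + (ε : ℤ) • χᴴ))) Ξ)) →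
      StablyHyperbolic ε (UF (ψ + Ξᴴ * ψ' * Ξ) μ χ)) ∧
    kap ψ μ χ (W0 N (nu ε (ψ + (ε : ℤ) • ψᴴ) μ (χ + (ε : ℤ) • χᴴ))) Ξ +
      (ε : ℤ) • (kap ψ μ χ (W0 N (nu ε (ψ + (ε : ℤ) • ψᴴ) μ (χ + (ε : ℤ) • χᴴ))) Ξ)ᴴ =
      -(Ξ * (blk (W0 N (nu ε (ψ + (ε : ℤ) • ψᴴ) μ (χ + (ε : ℤ) • χᴴ))) true false)ᴴ * Ξᴴ)

/-- **KNA** (size 200): nilpotency.

PROOF. `ν0 = nu ε a0 μ b`: its blocks `blk ν0 s t` are in `E 1 s t` (`ε • b`, `μᴴ ∈ E 1 false false` by `star`). By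
induction `blk (ν0 ^ i) s t ∈ E i s t` for `i ≥ 1` (`blk (ν0 ^ (i+1)) s t = ∑_q blk ν0 s q * blk (ν0 ^ i) q t`), so
`ν0 ^ N = 0` (`1 ≤ N`). `W = blk (W0 N ν0) true false ∈ E 1 true false` (the term `i = 0` of `W0` has the block `0`,
the others are in `E i ≤ E 1`), `Wᴴ ∈ E 1 true false`. `(θ α) ^ l * θ = ± Ξ (Wᴴ ac) ^ l Wᴴ Ξᴴ` (induction, with
`Ξᴴ α Ξ = ac`), `(Wᴴ ac) ^ l Wᴴ ∈ E (2 l + 1) true false`, so it is `0` for `l = N`. So `(θ α) ^ (N+1) = 0`,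
`(α θ) ^ (N+1) = 0`, and `nu ε α 0 θ = (0, ε θ; α, 0)` has the square `(ε θ α, 0; 0, ε α θ)`, so it is
nilpotent. -/
def SpecKNA : Prop :=
  ∀ (A : Type) [Ring A] [StarRing A] (ε : ℤˣ) (n r N : ℕ)
    (E : ℕ → Bool → Bool → AddSubgroup (Matrix (Fin n) (Fin n) A)), EFam E N → 1 ≤ N →
    ∀ (a0 ac μ b : Matrix (Fin n) (Fin n) A), a0 ∈ E 1 false true → ac ∈ E 1 false true →
      μ ∈ E 1 true true → b ∈ E 1 true false →
      (nu ε a0 μ b) ^ N = 0 ∧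
      ∀ (Ξ : Matrix (Fin r) (Fin n) A) (α θ : Matrix (Fin r) (Fin r) A), Ξᴴ * α * Ξ = ac →
        θ = -(Ξ * (blk (W0 N (nu ε a0 μ b)) true false)ᴴ * Ξᴴ) → IsNilpotent (nu ε α 0 θ)

/-- **KSP** (size 250, dep `SpecWDA`): the supports of `κ`.

PROOF. `ν = nu ε (ψ + ε ψᴴ) μ (χ + ε χᴴ)`: `blk ν s t` is supported in `XX X1' X2 X3 s t ⊆ WS s t` (inverse
closed `X1'`, `X2`; `Xinv X3`). `WS s r * WS r t ⊆ WS s t` (WDA (2)), `(WS s t)⁻¹ ⊆ WS (!t) (!s)` (WDA (3)),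
`H ⊆ WS s s`. By induction `blk (ν ^ i) s t` is supported in `WS s t` (`i = 0`: `1` or `0`), so
`blk (W0 N ν) s t` is. `z1 = blk w true false * Ξᴴ`: `WS true false`; `z2`: `WS false false`; stars: `z1ᴴ`:
`WS true false`, `z2ᴴ`: `WS true true`; `ψ`: `WS false true`, `1 + μᴴ`: `WS false false`, `χ`: `WS true false`. The
three products are supported in `WS true false`. (Lemma: `SuppIn X M → SuppIn Y M' →
SuppIn {z | ∃ x ∈ X, ∃ y ∈ Y, z = x * y} (M * M')`, `SuppIn X M → SuppIn X⁻¹ Mᴴ`.) -/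
def SpecKSP : Prop :=
  ∀ (R G : Type) [Ring R] [StarRing R] [Group G] (H : Subgroup G) (X1 X2 X3 Yp Ym X1' : Set G),
    Sub1 H X1 X2 X3 Yp Ym X1' → ∀ (ε : ℤˣ) (n r N : ℕ)
    (ψ μ χ : Matrix (Fin n) (Fin n) (MonoidAlgebra R G))
    (Ξ : Matrix (Fin r) (Fin n) (MonoidAlgebra R G)), SuppIn X1' ψ → SuppIn X3 μ →
    SuppIn X2 χ → SuppIn (H : Set G) Ξ →
    SuppIn (WS H X1' X2 X3 true false)
      (kap ψ μ χ (W0 N (nu ε (ψ + (ε : ℤ) • ψᴴ) μ (χ + (ε : ℤ) • χᴴ))) Ξ)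

/-- **ELM** (size 250, deps `SpecEFA`, `SpecFAC`, `SpecSCU`, `SpecKNA`, `SpecKSP`): the elimination.

PROOF (paper LEMMA 5). `c = dc H g` is biinvariant and inverse closed (`g² ∈ H`), `ψc = cutM c ψ`,
`ψ0 = cutM cᶜ ψ`, `ψ = ψ0 + ψc`. `a = ψ + ε ψᴴ`, `ac = ψc + ε ψcᴴ = cutM c a`, `a0 = ψ0 + ε ψ0ᴴ = cutM cᶜ a`. `N ≥ 1`
with `(nu ε a μ b) ^ N = 0`. EFA: `a0, ac ∈ E 1 false true`, `μ ∈ E 1 true true`, `b ∈ E 1 true false`
(`ε • (ε • b)`). KNA: `(nu ε a0 μ b) ^ N = 0`. FAC for `ψc`: `Ξ`, `ψ'`; `α = ψ' + ε ψ'ᴴ`, `Ξᴴ α Ξ = ac`. SCU for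
`ψ0`: `κ = kap ..`, `κ + ε κᴴ = -(Ξ wᴴ Ξᴴ)`; KSP with `X1' = {x ∈ X1 | x ∉ c}`: `supp κ`; KNA: nilpotent. So
`UF ψ' 0 κ` is stably hyperbolic by the hypothesis `hB` (`{x | x = g} ⊆ {l g}`). SCU: done
(`ψ0 + Ξᴴ ψ' Ξ = ψ`). The hypothesis `Sub1` for `X1'` is given as `hS`. -/
def SpecELM : Prop :=
  ∀ (R G : Type) [Ring R] [StarRing R] [Group G] (H : Subgroup G) (X1 X2 X3 Yp Ym : Set G),
    PingPong H X1 X2 X3 Yp Ym → ∀ (ε : ℤˣ) (n : ℕ)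
    (ψ μ χ : Matrix (Fin n) (Fin n) (MonoidAlgebra R G)), SuppIn X1 ψ → SuppIn X3 μ →
    SuppIn X2 χ → IsNilpotent (nu ε (ψ + (ε : ℤ) • ψᴴ) μ (χ + (ε : ℤ) • χᴴ)) →
    ∀ g ∈ X1, g * g ∈ H → Sub1 H X1 X2 X3 Yp Ym {x | x ∈ X1 ∧ x ∉ dc H g} →
    (∀ (r : ℕ) (ψ' κ : Matrix (Fin r) (Fin r) (MonoidAlgebra R G)),
      SuppIn {x | ∃ l ∈ Kg H g, x = l * g} ψ' →
      SuppIn (WS H {x | x ∈ X1 ∧ x ∉ dc H g} X2 X3 true false) κ →
      IsNilpotent (nu ε (ψ' + (ε : ℤ) • ψ'ᴴ) 0 (κ + (ε : ℤ) • κᴴ)) →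
      StablyHyperbolic ε (UF ψ' 0 κ)) →
    IsNilpotent (nu ε (cutM (dc H g)ᶜ ψ + (ε : ℤ) • (cutM (dc H g)ᶜ ψ)ᴴ) μ
      (χ + (ε : ℤ) • χᴴ)) ∧
    (StablyHyperbolic ε (UF (cutM (dc H g)ᶜ ψ) μ χ) → StablyHyperbolic ε (UF ψ μ χ))

/-! ### Part 4: the single block, Auslander regular `R[L]` -/

/-- **CMP** (size 200; imports `UV/RES`; see the proof of `AU/PRG`): componentwise boundaries.

PROOF. Choose representatives `t_j` of the right cosets `L t` which meet the supports of `x1`. Then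
`x1 = ∑_j exv(x_j) t_j`, `x_j = lres L t_j x1` (and `x_j = 0` unless `t_j ∈ Y`, as `Y` is left `L`-invariant),
`M x1 = ∑_j (M exv x_j) t_j`, the `j`-th summand is supported in `X t_j` (`X` is right `L`-invariant), a left
`L`-invariant set, and these sets are pairwise disjoint: `x t_j = x' t_i` gives `x⁻¹ x' = t_j t_i⁻¹ ∈ L` by
`Disj`. Let `M x1 = ext D u`; the parts of `u` and of `M x1` supported in `X t_j` (`cut (X t_j)`) satisfy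
`(M exv x_j) t_j = ext D u_j` (`cut W` commutes with the left multiplication by `R[L]` for left `L`-invariant
`W`), so `M exv x_j = ext D (u_j t_j⁻¹)`. For a general `t`: if `lres L t x1 = 0` take `u = 0`; else `t = l t_j`
and `lres L (l t_j) x1 = (lres L t_j x1) * single l⁻¹ 1`. -/
def SpecCMP : Prop :=
  ∀ (R G : Type) [Ring R] [Group G] (L : Subgroup G) (X Y : Set G),
    (∀ l ∈ L, ∀ x ∈ X, l * x ∈ X) → (∀ l ∈ L, ∀ x ∈ X, x * l ∈ X) →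
    (∀ l ∈ L, ∀ y ∈ Y, l * y ∈ Y) → Disj L X Y → ∀ (m n k : Type) [Fintype m] [Fintype n]
    [Fintype k] (D : Matrix m k (MonoidAlgebra R L)) (M : Matrix m n (MonoidAlgebra R G))
    (x1 : n → MonoidAlgebra R G), SuppIn X M → SuppV Y x1 →
    (∃ u : k → MonoidAlgebra R G, M *ᵥ x1 = ext D *ᵥ u) →
    ∀ t : G, ∃ u : k → MonoidAlgebra R G,
      M *ᵥ exv (fun i => lres L t (x1 i)) = ext D *ᵥ u

/-- **SUM** (size 150): the converse.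

PROOF. `x1 = ∑_j exv(x_j) t_j` (finite sum over representatives of right cosets), so
`M x1 = ∑_j (M exv x_j) t_j = ext D (∑_j u_j t_j)`. -/
def SpecSUM : Prop :=
  ∀ (R G : Type) [Ring R] [Group G] (L : Subgroup G) (m n k : Type) [Fintype m] [Fintype n]
    [Fintype k] (D : Matrix m k (MonoidAlgebra R L)) (M : Matrix m n (MonoidAlgebra R G))
    (x1 : n → MonoidAlgebra R G),
    (∀ t : G, ∃ u : k → MonoidAlgebra R G,
      M *ᵥ exv (fun i => lres L t (x1 i)) = ext D *ᵥ u) →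
    ∃ u : k → MonoidAlgebra R G, M *ᵥ x1 = ext D *ᵥ u

/-- **YGX** (size 150): `a x = y g`.

PROOF. Entries of `a *ᵥ exv x` are supported in `L g L = L g` (`ag`, `ar`), so `(a *ᵥ exv x) i = exv y i * g` with
`y i = lres L g ((a *ᵥ exv x) i)` (for `z` supported in `L g`: `z = emb (lres L g z) * single g 1`). Degrees:
`ga`: `(a x)_i ≠ 0` only if `C.deg i = -k`, that is `C.dual.deg i = k`. `C.dual.d y = 0`:
`ext (C.dᴴ) (exv y) g = (ext C.d)ᴴ a (exv x) = a (ext C.d) (exv x) = 0` (`ca`), and `exv` is injective. For the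
second part use the same for a column: `D = 0`. -/
def SpecYGX : Prop :=
  ∀ (R G : Type) [Ring R] [StarRing R] [Group G] (L : Subgroup G) (g : G) (Xa Xb Y : Set G),
    Loc L g Xa Xb Y →
    (∀ (ε : ℤˣ) (C : FC (MonoidAlgebra R L)) (a b : Matrix C.I C.I (MonoidAlgebra R G)) (k : ℤ),
      NF L Xa Xb ∅ ε C a 0 b → ∀ x ∈ C.Cy k, ∃ y ∈ C.dual.Cy k, ∀ i,
        (a *ᵥ exv x) i = exv (G := G) y i * MonoidAlgebra.single g 1) ∧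
    (∀ (m n : Type) [Fintype n] (a : Matrix m n (MonoidAlgebra R G)) (x : n → MonoidAlgebra R L),
      SuppIn Xa a → ∃ y : m → MonoidAlgebra R L, ∀ i,
        (a *ᵥ exv x) i = exv (G := G) y i * MonoidAlgebra.single g 1)

/-- **SWB** (size 60; imports `AU/SWA`): the exchange, with `X3 = ∅`, `μ = 0`.

PROOF. `specSWA` with `X3 = ∅`: `Xinv ∅ = ∅`, `0ᴴ = 0`. -/
def SpecSWB : Prop :=
  ∀ (R G : Type) [Ring R] [StarRing R] [Group G] (L : Subgroup G) (Xa Xb : Set G) (ε : ℤˣ)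
    (C : FC (MonoidAlgebra R L)) (a b : Matrix C.I C.I (MonoidAlgebra R G)),
    NF L Xa Xb ∅ ε C a 0 b →
    NF L Xb Xa ∅ ε C.dual b 0 a ∧ (Good Xb Xa ε C.dual b 0 a → Good Xa Xb ε C a 0 b)

/-- **SUR** (size 280; imports `RO/AUM`): a surgery (paper SG).

PROOF. `Z = Ker C a 0 k` (the condition on `μ = 0` is trivial), `C.Bd k ≤ Z ≤ C.Cy k` (see `AU/STE`). `RD C k Z J g`
from `auRSZ` (`k = 0`) or `auRSP`. `auEXF` with `X3 = ∅`, `μ = 0`: `f`, `f'`, `t`; `f' = 0` because it is supported in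
`∅`. `C' = cone C J g`, `a' = newa ε a f t`, `b' = fromBlocks b 0 0 0`, `μ' = fromBlocks 0 0 0 0 = 0`. `specCNF`,
`specCNE`, `specGDS`. `p = fromRows 1 0` (the inclusion). `ch`: `C'.d * p = (C.d; 0) = p * C.d`. `ea`, `eb`: block
computations. `top`: an index `inr j` has the degree `J.deg j - 1 ≤ k - 1`, so `x' = (x; 0)`, `C.d x = 0`. `kill`:
`x ∈ Ker C a 0 k`, `g3'`: `x = g y + C.d w`, `J.deg = k` on `y`, so `J.d y = 0` and `C'.d (w; y) = (x; 0) = p x`.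
`inj`: `y' = (x; z)`: `(ext C.d)ᴴ x = 0`, `(ext g)ᴴ x + (ext J.d)ᴴ z = 0`, degrees: `-C.deg i = k`,
`1 - J.deg j = k`, `(ext p)ᴴ y' = x = (ext C.d)ᴴ u`: `specCNE` (2) (with `ExA J.dual k univ` from `specFLT` and
`g4`): `x = (ext C.d)ᴴ u`, `z = (ext g)ᴴ u + (ext J.d)ᴴ v`, so `y' = (ext C'.d)ᴴ (u; v)`. `good`: GDS. -/
def SpecSUR : Prop :=
  ∀ (R G : Type) [Ring R] [StarRing R] [Group G] (L : Subgroup G) (Xa Xb : Set G) (ε : ℤˣ),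
    AuslanderRegular (MonoidAlgebra R L) →
    (∀ l ∈ L, ∀ x ∈ Xa, l * x ∈ Xa) → (∀ l ∈ L, ∀ x ∈ Xa, x * l ∈ Xa) →
    (∀ x ∈ Xa, x⁻¹ ∈ Xa) → (∀ x ∈ Xa, x⁻¹ ≠ x) →
    ∀ (C : FC (MonoidAlgebra R L)) (a b : Matrix C.I C.I (MonoidAlgebra R G)) (k : ℕ),
    NF L Xa Xb ∅ ε C a 0 b → C.ExBelow k → C.dual.ExBelow k →
    ∃ (C' : FC (MonoidAlgebra R L)) (a' b' : Matrix C'.I C'.I (MonoidAlgebra R G))
      (p : Matrix C'.I C.I (MonoidAlgebra R L)), Sur Xa Xb ε k C C' a b a' b' p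

/-- **SUB** (size 180, deps `SpecSUR`, `SpecSWB`): a surgery on the dual.

PROOF. SWB: `NF L Xb Xa ∅ ε C.dual b 0 a`; level: `C.dual.dual` has the degrees `- - C.deg i` and the
differential `C.d` (`conjTranspose_conjTranspose`). SUR for `(C.dual; b, a)` (roles of `Xa`, `Xb` exchanged):
`C'`, `b'`, `a'`, `p`. `C1 = C'.dual`, `a1 = a'`, `b1 = b'`, `q = pᴴ`. `NF` for `C1` from SWB for `C'` (the
`NF L Xb Xa ∅ ε C' b' 0 a'`), `good`: `Good Xa Xb C'.dual a' 0 b' → Good Xb Xa C' b' 0 a'` (SWB for `C'`),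
`→ Good Xb Xa C.dual b 0 a` (SUR), `→ Good Xa Xb C a 0 b` (SWB for `C`). The other fields are the stars of those
of `Sur` (`C1.d = C'.dᴴ`, `ext (pᴴ) = (ext p)ᴴ`). -/
def SpecSUB : Prop :=
  ∀ (R G : Type) [Ring R] [StarRing R] [Group G] (L : Subgroup G) (Xa Xb : Set G) (ε : ℤˣ),
    AuslanderRegular (MonoidAlgebra R L) →
    (∀ l ∈ L, ∀ x ∈ Xb, l * x ∈ Xb) → (∀ l ∈ L, ∀ x ∈ Xb, x * l ∈ Xb) →
    (∀ x ∈ Xb, x⁻¹ ∈ Xb) → (∀ x ∈ Xb, x⁻¹ ≠ x) →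
    ∀ (C : FC (MonoidAlgebra R L)) (a b : Matrix C.I C.I (MonoidAlgebra R G)) (k : ℕ),
    NF L Xa Xb ∅ ε C a 0 b → C.ExBelow k → C.dual.ExBelow k →
    ∃ (C1 : FC (MonoidAlgebra R L)) (a1 b1 : Matrix C1.I C1.I (MonoidAlgebra R G))
      (q : Matrix C.I C1.I (MonoidAlgebra R L)), SurB Xa Xb ε k C C1 a b a1 b1 q

/-- **STB** (size 280, deps `SpecSUB`, `SpecCMP`, `SpecSUM`, `SpecYGX`): step b.

PROOF. SUB: `C1`, `q`. For `x ∈ C1.Cy k`: `q x ∈ C.Cy k` (`gq`, `ch`). `ext q (b1 a1) = b a (ext q)`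
(`a1 = qᴴ a q`, `q b1 qᴴ = b`), so `ext q ((b1 a1)^l x) = (b a)^l (exv (q x))`. `PL (l+1)`: `inj` for
`(b1 a1)^(l+1) x` (it is a cocycle of degree `k` over `R[G]`: `ca`, `cb`, `ga`, `gb`). `QL l`: `x' = (b a)^l exv(q x)`;
`supp x' ⊆ Y` (`exv (..)` is supported in `L ⊆ Y`; `ya`); `x'` is a cocycle of degree `k`, so are its components
`x_t = lres L t x' ∈ C.Cy k`. `(b a) x' = ext C.d u` by `PL (l+1)`. CMP with `M = b * a`, `X = {z x | z ∈ Xb, x ∈ Xa}`,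
`D = C.d` (`Disj L X Y` from `dj`: `z x t = z' x' t'` gives `(z x)⁻¹ (z' x') = t t'⁻¹ ∈ L`): `b a exv x_t = ext C.d u_t`.
YGX: `a exv x_t = (exv y_t) g`, `y_t ∈ C.dual.Cy k`; so `b exv y_t = ext C.d (u_t g⁻¹)`; `kill`:
`qᴴ y_t = C1.dᴴ u'`, so `(ext q)ᴴ a exv x_t = (ext q)ᴴ (exv y_t) g = (ext C1.d)ᴴ (..)`. SUM with `M = (ext q)ᴴ * a`,
`D = C1.dᴴ`: `(ext q)ᴴ a x' = (ext C1.d)ᴴ u`, and `a1 (b1 a1)^l exv x = (ext q)ᴴ a (ext q) (b1 a1)^l exv x =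
(ext q)ᴴ a x'`. -/
def SpecSTB : Prop :=
  ∀ (R G : Type) [Ring R] [StarRing R] [Group G] (L : Subgroup G) (g : G) (Xa Xb Y : Set G),
    Loc L g Xa Xb Y → ∀ ε : ℤˣ, AuslanderRegular (MonoidAlgebra R L) →
    ∀ (C : FC (MonoidAlgebra R L)) (a b : Matrix C.I C.I (MonoidAlgebra R G)) (k l : ℕ),
    NF L Xa Xb ∅ ε C a 0 b → C.ExBelow k → C.dual.ExBelow k → PL C a b k (l + 1) →
    ∃ (C1 : FC (MonoidAlgebra R L)) (a1 b1 : Matrix C1.I C1.I (MonoidAlgebra R G)),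
      NF L Xa Xb ∅ ε C1 a1 0 b1 ∧ C1.ExBelow k ∧ C1.dual.ExBelow k ∧ PL C1 a1 b1 k (l + 1) ∧
      QL C1 a1 b1 k l ∧ (Good Xa Xb ε C1 a1 0 b1 → Good Xa Xb ε C a 0 b)

/-- **STA** (size 250, deps `SpecSUR`, `SpecCMP`, `SpecSUM`): step a.

PROOF. SUR: `C'`, `p`. `x' ∈ C'.Cy k` is `p x`, `x ∈ C.Cy k` (`top`). `(b' a') (ext p) = (ext p) (b a)` (`b' = p b pᴴ`,
`pᴴ a' p = a`), so `(b' a')^l exv(p x) = (ext p) x''`, `x'' = (b a)^l exv x`, supported in `Y`, a cocycle of degree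
`k`, `a x'' = (ext C.d)ᴴ u` (`QL l`). CMP with `M = a`, `X = Xa`, `D = C.dᴴ` (`Disj L Xa Y`: `x, x' ∈ Xa = L g = g L`
gives `x⁻¹ x' ∈ L`; `g L g⁻¹ = L` follows from `ag`, `ar`, `ai`): `a exv x_t = (ext C.d)ᴴ u_t`, `x_t = lres L t x'' ∈ C.Cy k`;
`kill`: `p x_t = C'.d u'`. SUM with `M = ext p`, `D = C'.d`: `(ext p) x'' = ext C'.d u`. -/
def SpecSTA : Prop :=
  ∀ (R G : Type) [Ring R] [StarRing R] [Group G] (L : Subgroup G) (g : G) (Xa Xb Y : Set G),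
    Loc L g Xa Xb Y → ∀ ε : ℤˣ, AuslanderRegular (MonoidAlgebra R L) →
    ∀ (C : FC (MonoidAlgebra R L)) (a b : Matrix C.I C.I (MonoidAlgebra R G)) (k l : ℕ),
    NF L Xa Xb ∅ ε C a 0 b → C.ExBelow k → C.dual.ExBelow k → QL C a b k l →
    ∃ (C' : FC (MonoidAlgebra R L)) (a' b' : Matrix C'.I C'.I (MonoidAlgebra R G)),
      NF L Xa Xb ∅ ε C' a' 0 b' ∧ C'.ExBelow k ∧ C'.dual.ExBelow k ∧ PL C' a' b' k l ∧
      (Good Xa Xb ε C' a' 0 b' → Good Xa Xb ε C a 0 b)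

/-- **LVB** (size 280, deps `SpecSTB`, `SpecSTA`, `SpecSUB`; imports `RO/AUM`): one level.

PROOF. `nil`: `nu ε a 0 b = (0, ε b; a, 0)` is nilpotent, so `(b a)^l = 0` for some `l`, `PL k l`. Induction on `l`
(for all states): if `PL k l` and level `k` then the conclusion. `l + 1`: STB, STA, induction (compose the
`Good` implications). `l = 0`: every `x ∈ C.Cy k` is `ext C.d u` over `R[G]`, so over `R[L]` (apply `lres L 1`), so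
`C.ExBelow (k + 1)` (see `AU/LVL`). SUB: `C1`, `q`. `C1.ExBelow (k + 1)`: for `x ∈ C1.Cy k`: `q x ∈ C.Cy k` is a
boundary, `inj` over `R[G]`, back to `R[L]` by `lres L 1`. `C1.dual.ExBelow (k + 1)`: `y' ∈ C1.dual.Cy k` is `qᴴ y`,
`y ∈ C.dual.Cy k` (`top`); `b exv y` is a cocycle of `C` of degree `k` over `R[G]` (`cb`: `ext C.d b = b (ext C.d)ᴴ`),
so it is `ext C.d u` (`specFLT` for `C.ExBelow (k + 1)`, `X = univ`); `kill`: `qᴴ y = C1.dᴴ u'`. -/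
def SpecLVB : Prop :=
  ∀ (R G : Type) [Ring R] [StarRing R] [Group G] (L : Subgroup G) (g : G) (Xa Xb Y : Set G),
    Loc L g Xa Xb Y → ∀ ε : ℤˣ, AuslanderRegular (MonoidAlgebra R L) →
    ∀ (C : FC (MonoidAlgebra R L)) (a b : Matrix C.I C.I (MonoidAlgebra R G)) (k : ℕ),
    NF L Xa Xb ∅ ε C a 0 b → C.ExBelow k → C.dual.ExBelow k →
    ∃ (C' : FC (MonoidAlgebra R L)) (a' b' : Matrix C'.I C'.I (MonoidAlgebra R G)),
      NF L Xa Xb ∅ ε C' a' 0 b' ∧ C'.ExBelow (k + 1 : ℕ) ∧ C'.dual.ExBelow (k + 1 : ℕ) ∧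
      (Good Xa Xb ε C' a' 0 b' → Good Xa Xb ε C a 0 b)

/-- The theorem on a single block. -/
def Blk (R : Type) {G : Type} [Ring R] [StarRing R] [Group G] (Xa Xb : Set G) : Prop :=
  ∀ (ε : ℤˣ) (n : ℕ) (ψ χ : Matrix (Fin n) (Fin n) (MonoidAlgebra R G)), SuppIn Xa ψ →
    SuppIn Xb χ → IsNilpotent (nu ε (ψ + (ε : ℤ) • ψᴴ) 0 (χ + (ε : ℤ) • χᴴ)) →
    StablyHyperbolic ε (UF ψ 0 χ)

/-- **SBT** (size 180, dep `SpecLVB`; imports `RO/AUM`; see `AU/FNU`): the single block.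

PROOF. `C0`: `I = Fin n`, `deg = 0`, `d = 0`; `NF`, level `0` are clear. LVB `k` times, `k` from `auACY`, then `auACY`:
exact; `auENV`: `Good` (`X1 = Xa`, `X2 = Xb`, `X3 = ∅`, `μ = 0`); back to `Good` for `C0`, apply to `ψ`, `χ`
(reindex `{i // 0 = 0} ≃ Fin n`), exactly as in `AU/FNU.lean`. -/
def SpecSBT : Prop :=
  ∀ (R G : Type) [Ring R] [StarRing R] [Group G] (L : Subgroup G) (g : G) (Xa Xb Y : Set G),
    Loc L g Xa Xb Y → AuslanderRegular (MonoidAlgebra R L) → Blk R Xa Xb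

/-! ### Part 5: the single block, (FP) for `R[L]` -/

/-- **FPM** (size 150; imports `UV/STK`, `UV/RES`): the P-move.

PROOF. `specSTK specRES` with `H = L`, `X1 = X`, `X3 = ∅`, `μ = 0`: `p`, `a'`, `m'`, `IsPM`. If `a y = 0` with `supp y ⊆ L` then
`pᴴ a' (p y) = 0`, `m' (p y) = 0` (`m' = 0`: `m' p = μ = 0`, `cancel`), `supp (p y) ⊆ L`, `inj` with `Y = L`
(`Disj L X L`: `x y = x' y'`, `y, y' ∈ L` gives `x⁻¹ x' = y y'⁻¹ ∈ L`; `Disj L ∅ L` is trivial), for the matrix with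
one column `p y`: `p y = 0`. -/
def SpecFPM : Prop :=
  ∀ (R G : Type) [Ring R] [StarRing R] [Group G] (L : Subgroup G) (X : Set G) (ε : ℤˣ) (n : ℕ)
    (a : Matrix (Fin n) (Fin n) (MonoidAlgebra R G)), FP (MonoidAlgebra R L) →
    (∀ l ∈ L, ∀ x ∈ X, l * x ∈ X) → (∀ l ∈ L, ∀ x ∈ X, x * l ∈ X) → SuppIn X a →
    a = (ε : ℤ) • aᴴ →
    ∃ (r : ℕ) (p : Matrix (Fin r) (Fin n) (MonoidAlgebra R G))
      (a' : Matrix (Fin r) (Fin r) (MonoidAlgebra R G)), SuppIn (L : Set G) p ∧ SuppIn X a' ∧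
      a' = (ε : ℤ) • a'ᴴ ∧ a = pᴴ * a' * p ∧
      (∀ (l : Type) (Z : Matrix l (Fin r) (MonoidAlgebra R G)), Z * p = 0 → Z = 0) ∧
      (∀ y : Fin n → MonoidAlgebra R G, SuppV (L : Set G) y → a *ᵥ y = 0 → p *ᵥ y = 0)

/-- **SBF** (size 350, deps `SpecFPM`, `SpecCMP`, `SpecSUM`, `SpecYGX`; imports `UV/TAT`, `UV/EMV`, `UV/SWP`).

PROOF. For `a = ψ + ε ψᴴ`, `b = χ + ε χᴴ`: `P(l)`: `(b a)^l = 0`, `Q(l)`: `a (b a)^l = 0`. B-MOVE (`P(l+1)` to `P(l+1)`,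
`Q(l)`): FPM for `b`, `X = Xb`: `b = pᴴ b' p`, `a1 = p a pᴴ`, `b1 = b'`; `pᴴ (b1 a1) = (b a) pᴴ`, so
`pᴴ (b1 a1)^l = (b a)^l pᴴ`; `pᴴ Z = 0 → Z = 0` (star of `cancel`), so `P(l+1)`. `X' = (b a)^l pᴴ`: its columns `x'` are
supported in `Y`, `(b a) x' = 0`; CMP with `D = 0` (`k = Empty` or `Fin 0`; `ext D u = 0`), `M = b * a`:
`(b a) exv x_t = 0`; YGX (second part): `a exv x_t = (exv y_t) g`, so `b exv y_t = 0`, so `p exv y_t = 0`, so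
`(p a) exv x_t = 0`; SUM with `D = 0`: `(p a) x' = 0`. So `a1 (b1 a1)^l = p a pᴴ (b1 a1)^l = p a (b a)^l pᴴ = 0`. A-MOVE
(`Q(l)` to `P(l)`): FPM for `a`, `X = Xa`: `a = pᴴ a' p`, `a2 = a'`, `b2 = p b pᴴ`; `(b2 a2) p = p (b a)`, so
`(b2 a2)^l p = p (b a)^l`; the columns `x''` of `(b a)^l` are supported in `Y`, `a x'' = 0`, CMP with `M = a`
(`Disj L Xa Y` as in STA): `a exv x_t = 0`, so `p exv x_t = 0`, SUM: `p x'' = 0`; so `(b2 a2)^l p = 0`, `cancel`: `P(l)`.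
FORMS. A-move: `ψ' ` with `a' = ψ' + ε ψ'ᴴ`, `supp ψ' ⊆ Xa` (TAT), `ψ - pᴴ ψ' p` is even (TAT with `-ε`, SWP (2)), EMV with
`m' = 0`: `UF ψ' 0 (p χ pᴴ)` stably hyperbolic implies it for `UF (pᴴ ψ' p) 0 χ`. B-move: the same after SWP (1).
`supp (p χ pᴴ) ⊆ Xb`, `supp (p a pᴴ) ⊆ Xa` and `p ψ pᴴ` is the new `ψ`. Induction on `l`; `l = 0`: `1 = 0` as
`n × n` matrices, so all matrices are `0`, SWP (3). `nu ε a 0 b` nilpotent gives `(b a)^l = 0` for some `l`. -/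
def SpecSBF : Prop :=
  ∀ (R G : Type) [Ring R] [StarRing R] [Group G] (L : Subgroup G) (g : G) (Xa Xb Y : Set G),
    Loc L g Xa Xb Y → FP (MonoidAlgebra R L) → Blk R Xa Xb

/-! ### Part 6: the theorem -/

/-- **ROT** (size 300, deps `SpecNWT`, `SpecLOC`, `SpecELM`, `SpecSBT`, `SpecSBF`; imports `UV/SWP`, `UV/IND`).

PROOF. `PingPongX` is symmetric under `(X1, X2, X3, Yp, Ym) ↦ (X2, X1, Xinv X3, Ym, Yp)` (`INDAux.pp_swap` and the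
four extra fields), so is the hypothesis on the flips; `UF χ μᴴ ψ` is stably hyperbolic iff `UF ψ μ χ` is (SWP (1));
the nilpotency is preserved (`INDAux`: `nu ε b μᴴ a`). Measure: `m(ψ, χ)` = number of triples `(i, j, x)` with
`x ∈ supp (ψ i j)`, `Flip H x`, plus the same number for `χ`. Strong induction on the measure, for all data
(both orientations). Measure `0`: NWT. Otherwise, if `x ∈ supp (ψ i j)` with `x⁻¹ = h x h'`, `h, h' ∈ H`: then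
`x h x = h'⁻¹`, so `g = x h` satisfies `g g = x h x h = h'⁻¹ h ∈ H`; `g ∈ X1` (`X1r`), `x ∈ dc H g`. LOC:
`Sub1`, `Loc`; the hypothesis for `g`: SBT or SBF give
`Blk R (L g) (WS ..)`. ELM: it suffices that `UF (cutM (dc H g)ᶜ ψ) μ χ` is stably hyperbolic; its `ν` is nilpotent
(ELM), the supports are in `X1`, `X3`, `X2`, and the measure is smaller (the triple of `x` has disappeared). If the
flip is in `supp χ`: exchange. -/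
def SpecROT : Prop :=
  ∀ (R G : Type) [Ring R] [StarRing R] [Group G] (H : Subgroup G) (X1 X2 X3 Yp Ym : Set G),
    PingPongX H X1 X2 X3 Yp Ym →
    (∀ g : G, g ∈ X1 ∨ g ∈ X2 → g * g ∈ H →
      AuslanderRegular (MonoidAlgebra R (Kg H g)) ∨ FP (MonoidAlgebra R (Kg H g))) →
    ∀ (ε : ℤˣ) (n : ℕ) (ψ μ χ : Matrix (Fin n) (Fin n) (MonoidAlgebra R G)), SuppIn X1 ψ →
    SuppIn X3 μ → SuppIn X2 χ →
    IsNilpotent (nu ε (ψ + (ε : ℤ) • ψᴴ) μ (χ + (ε : ℤ) • χᴴ)) → StablyHyperbolic ε (UF ψ μ χ)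

/-- **FIN** (size 120, deps `SpecTRX`, `SpecROT`): the theorem for trees.

PROOF. `H = stabilizer v ⊓ stabilizer w`; `Kg H g = (stabilizer v ⊓ stabilizer w) ⊓ (stabilizer (g • v) ⊓
stabilizer (g • w))` (`Subgroup.ext`, `mem_Kg`: `g⁻¹ x g` fixes `v` iff `x` fixes `g • v`); `g * g ∈ H` iff `g • g • v = v`
and `g • g • w = w`. Rewrite the hypothesis with the equality of subgroups (`▸`). -/
def SpecFIN : Prop :=
  ∀ (R G V : Type) [Ring R] [StarRing R] [Group G] [MulAction G V] (T : SimpleGraph V) (v w : V),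
    T.IsTree → (∀ (g : G) (x y : V), T.Adj x y → T.Adj (g • x) (g • y)) → T.Adj v w →
    (∀ g : G, ¬ (g • v = w ∧ g • w = v)) →
    (∀ g : G, g * g = 1 → (g • v = v ↔ g • w = w)) →
    (∀ g : G, (g • v = v ∧ g • w ≠ w) ∨ (g • w = w ∧ g • v ≠ v) → g • g • v = v → g • g • w = w →
      AuslanderRegular (MonoidAlgebra R
        ↥((MulAction.stabilizer G v ⊓ MulAction.stabilizer G w) ⊓
          (MulAction.stabilizer G (g • v) ⊓ MulAction.stabilizer G (g • w)))) ∨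
      FP (MonoidAlgebra R
        ↥((MulAction.stabilizer G v ⊓ MulAction.stabilizer G w) ⊓
          (MulAction.stabilizer G (g • v) ⊓ MulAction.stabilizer G (g • w))))) →
    ∀ (ε : ℤˣ) (n : ℕ) (ψ μ χ : Matrix (Fin n) (Fin n) (MonoidAlgebra R G)),
      SuppIn {g | g • v = v ∧ g • w ≠ w} ψ → SuppIn {g | g • v = w} μ →
      SuppIn {g | g • w = w ∧ g • v ≠ v} χ →
      IsNilpotent (nu ε (ψ + (ε : ℤ) • ψᴴ) μ (χ + (ε : ℤ) • χᴴ)) →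
      StablyHyperbolic ε (UF ψ μ χ)

end Pool.Agent.Lib.MP8a3537.RO
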