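import Pool.Agent.Lib.MP_8a3537_gt.RO.Spec

/-!
# UNQ: action and uniqueness
-/

namespace Pool.Agent.Lib.MP8a3537.RO

open Matrix Pool.Agent.Lib.MP8a3537.UV Pool.Agent.Lib.MP8a3537.AU
open Pool.Agent.Lib.MP8a3537.UO (ext)

namespace UNQAux

variable {G : Type} [Group G] {H : Subgroup G} {X1 X2 X3 Yp Ym : Set G}

theorem act (P : PingPong H X1 X2 X3 Yp Ym) :
    ∀ s r x y, x ∈ XX X1 X2 X3 s r → y ∈ YB Yp Ym r → x * y ∈ YB Yp Ym s := by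
  intro s r x y hx hy
  cases s <;> cases r
  · exact P.X3Y' x hx y hy
  · exact P.X1Y x hx y hy
  · exact P.X2Y x hx y hy
  · exact P.X3Y x hx y hy

theorem bi (P : PingPong H X1 X2 X3 Yp Ym) : ∀ s r, Bi H (XX X1 X2 X3 s r) := by
  intro s r
  cases s <;> cases r
  · constructor
    · intro h hh x hx
      change (h * x)⁻¹ ∈ X3
      rw [_root_.mul_inv_rev]
      exact P.X3r _ (H.inv_mem hh) _ hx
    · intro h hh x hx
      change (x * h)⁻¹ ∈ X3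
      rw [_root_.mul_inv_rev]
      exact P.X3l _ (H.inv_mem hh) _ hx
  · exact ⟨P.X1l, P.X1r⟩
  · exact ⟨P.X2l, P.X2r⟩
  · exact ⟨P.X3l, P.X3r⟩

theorem yb (P : PingPong H X1 X2 X3 Yp Ym) :
    ∀ s, (1 : G) ∈ YB Yp Ym s ∧ ∀ h ∈ H, ∀ y ∈ YB Yp Ym s, h * y ∈ YB Yp Ym s := by
  intro s
  cases s
  · exact ⟨P.Ym1, P.Yml⟩
  · exact ⟨P.Yp1, P.Ypl⟩

theorem unq (P : PingPong H X1 X2 X3 Yp Ym) :
    ∀ s r r' x y x' y', x ∈ XX X1 X2 X3 s r → y ∈ YB Yp Ym r → x' ∈ XX X1 X2 X3 s r' →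
      y' ∈ YB Yp Ym r' → x * y = x' * y' → r = r' ∧ x⁻¹ * x' ∈ H := by
  intro s r r' x y x' y' hx hy hx' hy' h
  cases s <;> cases r <;> cases r'
  · exact ⟨rfl, P.u3' x hx x' hx' y hy y' hy' h⟩
  · exact absurd h.symm (P.d13 x' hx' y' hy' x hx y hy)
  · exact absurd h (P.d13 x hx y hy x' hx' y' hy')
  · exact ⟨rfl, P.u1 x hx x' hx' y hy y' hy' h⟩
  · exact ⟨rfl, P.u2 x hx x' hx' y hy y' hy' h⟩
  · exact absurd h (P.d23 x hx y hy x' hx' y' hy')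
  · exact absurd h.symm (P.d23 x' hx' y' hy' x hx y hy)
  · exact ⟨rfl, P.u3 x hx x' hx' y hy y' hy' h⟩

end UNQAux

theorem specUNQ : SpecUNQ := by
  intro G _ H X1 X2 X3 Yp Ym P
  exact ⟨UNQAux.act P, UNQAux.unq P, UNQAux.bi P, UNQAux.yb P⟩

end Pool.Agent.Lib.MP8a3537.RO
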